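import Pool.Agent.H56CQ.LinKer

/-!
# The adjoint representation of a connected Lie group has kernel the centre
-/

set_option autoImplicit false

namespace Pool.Agent.H56CQ

open scoped Manifold Topology ContDiff

variable {n : ℕ}



section Const

variable {H : Type*} [TopologicalSpace H] [ChartedSpace (EuclideanSpace ℝ (Fin n)) H]
  [IsManifold (𝓡 n) ((⊤ : ℕ∞) : WithTop ℕ∞) H]

/-- the manifold derivative as a linear endomorphism of the model space -/
noncomputable def DD (n : ℕ) {H : Type*} [TopologicalSpace H]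
    [ChartedSpace (EuclideanSpace ℝ (Fin n)) H] (f : H → H) (x : H) :
    EuclideanSpace ℝ (Fin n) →L[ℝ] EuclideanSpace ℝ (Fin n) :=
  mfderiv (𝓡 n) (𝓡 n) f x

omit [IsManifold (𝓡 n) ((⊤ : ℕ∞) : WithTop ℕ∞) H] in
theorem DD_comp {f g : H → H} {x : H} (hg : MDifferentiableAt (𝓡 n) (𝓡 n) g (f x))
    (hf : MDifferentiableAt (𝓡 n) (𝓡 n) f x) :
    DD n (g ∘ f) x = (DD n g (f x)).comp (DD n f x) :=
  mfderiv_comp x hg hf

/-- A map with vanishing derivative is locally constant. -/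
theorem eventually_const {f : H → H} (hf : ContMDiff (𝓡 n) (𝓡 n) ((⊤ : ℕ∞) : WithTop ℕ∞) f)
    (h0 : ∀ x, DD n f x = 0) (x0 : H) : ∀ᶠ y in 𝓝 x0, f y = f x0 := by
  have hdiff : ∀ x, MDifferentiableAt (𝓡 n) (𝓡 n) f x := fun x =>
    (hf x).mdifferentiableAt (by simp)
  set φ := extChartAt (𝓡 n) x0 with hφ
  set φ' := extChartAt (𝓡 n) (f x0) with hφ'
  let g : EuclideanSpace ℝ (Fin n) → EuclideanSpace ℝ (Fin n) := φ' ∘ f ∘ φ.symm
  have hUo : IsOpen (f ⁻¹' φ'.source) :=
    (isOpen_extChartAt_source (f x0)).preimage hf.continuous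
  have hx0 : x0 ∈ φ.source := mem_extChartAt_source x0
  -- a neighbourhood of `φ x0` on which everything is defined
  have hV : φ.target ∩ φ.symm ⁻¹' (f ⁻¹' φ'.source) ∈ 𝓝 (φ x0) := by
    refine Filter.inter_mem ?_ ?_
    · exact extChartAt_target_mem_nhds (I := 𝓡 n) x0
    · have hc : ContinuousAt φ.symm (φ x0) := continuousAt_extChartAt_symm x0
      refine hc.preimage_mem_nhds ?_
      rw [φ.left_inv hx0]
      exact hUo.mem_nhds (mem_extChartAt_source (f x0))
  obtain ⟨r, hr, hball⟩ := Metric.mem_nhds_iff.mp hV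
  have hder : ∀ e ∈ Metric.ball (φ x0) r, HasFDerivAt g
      (0 : EuclideanSpace ℝ (Fin n) →L[ℝ] EuclideanSpace ℝ (Fin n)) e := by
    intro e he
    obtain ⟨he1, he2⟩ := hball he
    have h1 : MDifferentiableAt 𝓘(ℝ, EuclideanSpace ℝ (Fin n)) (𝓡 n) φ.symm e := by
      have : IsManifold (𝓡 n) 1 H := IsManifold.of_le (n := ((⊤ : ℕ∞) : WithTop ℕ∞)) (by simp)
      have := mdifferentiableOn_extChartAt_symm (I := 𝓡 n) (x := x0)
      have h2 := this e he1
      exact h2.mdifferentiableAt ((isOpen_extChartAt_target x0).mem_nhds he1)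
    have h2 : MDifferentiableAt (𝓡 n) 𝓘(ℝ, EuclideanSpace ℝ (Fin n)) φ' (f (φ.symm e)) := by
      have h3 : f (φ.symm e) ∈ (chartAt (EuclideanSpace ℝ (Fin n)) (f x0)).source := by
        have : f (φ.symm e) ∈ φ'.source := he2
        rwa [hφ', extChartAt_source] at this
      exact mdifferentiableAt_extChartAt h3
    have hf' : HasMFDerivAt (𝓡 n) (𝓡 n) f (φ.symm e) 0 := by
      have h4 := (hdiff (φ.symm e)).hasMFDerivAt
      have h5 : mfderiv (𝓡 n) (𝓡 n) f (φ.symm e) = 0 := h0 (φ.symm e)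
      rwa [h5] at h4
    have h6 := h2.hasMFDerivAt.comp (φ.symm e) hf'
    have h7 := h6.comp e h1.hasMFDerivAt
    have h8 : HasMFDerivAt 𝓘(ℝ, EuclideanSpace ℝ (Fin n)) 𝓘(ℝ, EuclideanSpace ℝ (Fin n)) g e
        (0 : EuclideanSpace ℝ (Fin n) →L[ℝ] EuclideanSpace ℝ (Fin n)) := by
      rw [ContinuousLinearMap.comp_zero, ContinuousLinearMap.zero_comp] at h7
      exact h7
    exact hasMFDerivAt_iff_hasFDerivAt.mp h8
  have hconst : ∀ e ∈ Metric.ball (φ x0) r, g e = g (φ x0) := by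
    intro e he
    refine Metric.isOpen_ball.is_const_of_fderiv_eq_zero (𝕜 := ℝ)
      (convex_ball (φ x0) r).isPreconnected ?_ ?_ he (Metric.mem_ball_self hr)
    · intro e he
      exact (hder e he).differentiableAt.differentiableWithinAt
    · intro e he
      exact (hder e he).fderiv
  have h9 : φ.source ∩ φ ⁻¹' (Metric.ball (φ x0) r) ∈ 𝓝 x0 := by
    refine Filter.inter_mem (extChartAt_source_mem_nhds x0) ?_
    exact (continuousAt_extChartAt x0).preimage_mem_nhds (Metric.ball_mem_nhds _ hr)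
  filter_upwards [h9] with y hy
  obtain ⟨hy1, hy2⟩ := hy
  have h10 := hconst (φ y) hy2
  have h11 : φ' (f y) = φ' (f x0) := by
    have e1 : g (φ y) = φ' (f y) := by simp [g, φ.left_inv hy1]
    have e2 : g (φ x0) = φ' (f x0) := by simp [g, φ.left_inv hx0]
    rw [← e1, ← e2, h10]
  have hfy : f y ∈ φ'.source := by
    have := (hball hy2).2
    rw [Set.mem_preimage, Set.mem_preimage, φ.left_inv hy1] at this
    exact this
  exact φ'.injOn hfy (mem_extChartAt_source (f x0)) h11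

end Const

section Lie

variable {H : Type*} [TopologicalSpace H] [Group H]
  [ChartedSpace (EuclideanSpace ℝ (Fin n)) H]
  [LieGroup (𝓡 n) ((⊤ : ℕ∞) : WithTop ℕ∞) H]

/-- conjugation -/
def cj (g : H) : H → H := fun x => g * x * g⁻¹

theorem contMDiff_cj (g : H) :
    ContMDiff (𝓡 n) (𝓡 n) ((⊤ : ℕ∞) : WithTop ℕ∞) (cj g) :=
  (contMDiff_const.mul contMDiff_id).mul contMDiff_const

omit [Group H] [LieGroup (𝓡 n) ((⊤ : ℕ∞) : WithTop ℕ∞) H] in
theorem mdiff_of {f : H → H} (hf : ContMDiff (𝓡 n) (𝓡 n) ((⊤ : ℕ∞) : WithTop ℕ∞) f) (x : H) :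
    MDifferentiableAt (𝓡 n) (𝓡 n) f x :=
  (hf x).mdifferentiableAt (by simp)

omit [Group H] [LieGroup (𝓡 n) ((⊤ : ℕ∞) : WithTop ℕ∞) H] in
theorem DD_id (x : H) : DD n (id : H → H) x = ContinuousLinearMap.id ℝ _ := mfderiv_id

/-- The derivative at the identity of `x ↦ c x * x⁻¹`. -/
theorem DD_mul_inv (g : H) (hg : DD n (cj g) 1 = ContinuousLinearMap.id ℝ _) :
    DD n (fun x : H => cj g x * x⁻¹) 1 = 0 := by
  have hmul : ∀ c : H → H, ContMDiff (𝓡 n) (𝓡 n) ((⊤ : ℕ∞) : WithTop ℕ∞) c → c 1 = 1 →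
      ∀ v : EuclideanSpace ℝ (Fin n), DD n (fun x : H => c x * x⁻¹) 1 v =
        DD n c 1 v + DD n (fun x : H => x⁻¹) 1 v := by
    intro c hc hc1 v
    have hF : ContMDiff ((𝓡 n).prod (𝓡 n)) (𝓡 n) ((⊤ : ℕ∞) : WithTop ℕ∞)
        (fun p : H × H => c p.1 * p.2⁻¹) :=
      (hc.comp contMDiff_fst).mul contMDiff_snd.inv
    have hFd : MDifferentiableAt ((𝓡 n).prod (𝓡 n)) (𝓡 n) (fun p : H × H => c p.1 * p.2⁻¹)
        ((1 : H), (1 : H)) := (hF _).mdifferentiableAt (by simp)
    have hdiag : MDifferentiableAt (𝓡 n) ((𝓡 n).prod (𝓡 n)) (fun x : H => (x, x)) 1 :=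
      mdifferentiableAt_id.prodMk mdifferentiableAt_id
    have h1 : mfderiv (𝓡 n) (𝓡 n) (fun x : H => c x * x⁻¹) 1 =
        (mfderiv ((𝓡 n).prod (𝓡 n)) (𝓡 n) (fun p : H × H => c p.1 * p.2⁻¹)
          ((1 : H), (1 : H))).comp
          (mfderiv (𝓡 n) ((𝓡 n).prod (𝓡 n)) (fun x : H => (x, x)) 1) :=
      mfderiv_comp (1 : H) (f := fun x : H => (x, x)) (g := fun p : H × H => c p.1 * p.2⁻¹)
        hFd hdiag
    have h2 : mfderiv (𝓡 n) ((𝓡 n).prod (𝓡 n)) (fun x : H => (x, x)) 1 =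
        (ContinuousLinearMap.id ℝ (TangentSpace (𝓡 n) (1 : H))).prod
          (ContinuousLinearMap.id ℝ (TangentSpace (𝓡 n) (1 : H))) := by
      rw [← mfderiv_id]
      exact mdifferentiableAt_id.mfderiv_prod mdifferentiableAt_id
    have h3 : DD n (fun x : H => c x * x⁻¹) 1 v =
        mfderiv ((𝓡 n).prod (𝓡 n)) (𝓡 n) (fun p : H × H => c p.1 * p.2⁻¹)
          ((1 : H), (1 : H)) (v, v) := by
      change mfderiv (𝓡 n) (𝓡 n) (fun x : H => c x * x⁻¹) 1 v = _
      rw [h1, h2]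
      rfl
    rw [h3, mfderiv_prod_eq_add_apply hFd]
    have e1 : (fun z : H => c z * (1 : H)⁻¹) = c := by
      funext z
      simp
    have e2 : (fun z : H => c 1 * z⁻¹) = fun z : H => z⁻¹ := by
      funext z
      simp [hc1]
    change mfderiv (𝓡 n) (𝓡 n) (fun z : H => c z * (1 : H)⁻¹) 1 v +
      mfderiv (𝓡 n) (𝓡 n) (fun z : H => c 1 * z⁻¹) 1 v = _
    rw [e1, e2]
    rfl
  have hinv : ∀ v : EuclideanSpace ℝ (Fin n), v + DD n (fun x : H => x⁻¹) 1 v = 0 := by
    intro v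
    have h := hmul id contMDiff_id rfl v
    have e : (fun x : H => id x * x⁻¹) = fun _ => (1 : H) := by
      funext x
      simp
    have h0 : DD n (fun _ : H => (1 : H)) 1 = 0 := mfderiv_const
    rw [e, h0, DD_id] at h
    simpa using h.symm
  apply ContinuousLinearMap.ext
  intro v
  rw [hmul (cj g) (contMDiff_cj g) (by simp [cj]) v, hg]
  exact hinv v

/-- An element of a connected Lie group whose adjoint action is trivial is central. -/
theorem central_of_DD [ConnectedSpace H] (g : H)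
    (hg : DD n (cj g) 1 = ContinuousLinearMap.id ℝ _) (x : H) : g * x = x * g := by
  set ψ : H → H := fun x => cj g x * x⁻¹ with hψ
  have hψs : ContMDiff (𝓡 n) (𝓡 n) ((⊤ : ℕ∞) : WithTop ℕ∞) ψ :=
    (contMDiff_cj g).mul contMDiff_id.inv
  have h1 : DD n ψ 1 = 0 := DD_mul_inv g hg
  have h0 : ∀ y, DD n ψ y = 0 := by
    intro y
    have hL : ContMDiff (𝓡 n) (𝓡 n) ((⊤ : ℕ∞) : WithTop ℕ∞) (fun x : H => y⁻¹ * x) :=
      contMDiff_const.mul contMDiff_id
    have hR : ContMDiff (𝓡 n) (𝓡 n) ((⊤ : ℕ∞) : WithTop ℕ∞)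
        (fun x : H => cj g y * x * y⁻¹) :=
      (contMDiff_const.mul contMDiff_id).mul contMDiff_const
    have e : ψ = (fun x : H => cj g y * x * y⁻¹) ∘ (ψ ∘ fun x : H => y⁻¹ * x) := by
      funext z
      simp only [hψ, cj, Function.comp_apply]
      group
    rw [e, DD_comp (mdiff_of hR _) (mdiff_of (hψs.comp hL) _),
      DD_comp (mdiff_of hψs _) (mdiff_of hL _)]
    have e2 : y⁻¹ * y = 1 := inv_mul_cancel y
    simp only [e2, h1, ContinuousLinearMap.zero_comp, ContinuousLinearMap.comp_zero]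
  have hloc : IsLocallyConstant ψ := by
    rw [IsLocallyConstant.iff_eventually_eq]
    intro z
    exact eventually_const hψs h0 z
  have h2 : ψ x = ψ 1 := hloc.apply_eq_of_isPreconnected isPreconnected_univ
    (Set.mem_univ _) (Set.mem_univ _)
  have h3 : g * x * g⁻¹ * x⁻¹ = 1 := by
    have : ψ 1 = 1 := by simp [hψ, cj]
    rw [this] at h2
    exact h2
  have h4 : g * x * g⁻¹ = x := mul_inv_eq_one.mp h3
  exact mul_inv_eq_iff_eq_mul.mp h4

/-- The adjoint representation. -/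
noncomputable def AdRep (n : ℕ) (H : Type*) [TopologicalSpace H] [Group H]
    [ChartedSpace (EuclideanSpace ℝ (Fin n)) H]
    [LieGroup (𝓡 n) ((⊤ : ℕ∞) : WithTop ℕ∞) H] :
    H →* Module.End ℝ (EuclideanSpace ℝ (Fin n)) where
  toFun g := (DD n (cj g) 1 : EuclideanSpace ℝ (Fin n) →L[ℝ] EuclideanSpace ℝ (Fin n))
  map_one' := by
    have e : (cj (1 : H)) = id := by
      funext x
      simp [cj]
    rw [e, DD_id]
    rfl
  map_mul' g h := by
    have e : cj (g * h) = cj g ∘ cj h := by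
      funext x
      simp [cj, mul_assoc]
    have e1 : cj h 1 = 1 := by simp [cj]
    rw [e, DD_comp (mdiff_of (contMDiff_cj g) _) (mdiff_of (contMDiff_cj h) _), e1]
    rfl

/-- The kernel of the adjoint representation of a connected Lie group is its centre. -/
theorem adRep_eq_one_iff [ConnectedSpace H] (g : H) :
    AdRep n H g = 1 ↔ g ∈ Subgroup.center H := by
  rw [Subgroup.mem_center_iff]
  constructor
  · intro h x
    refine (central_of_DD (n := n) g ?_ x).symm
    apply ContinuousLinearMap.ext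
    intro v
    exact congrArg (fun F : Module.End ℝ (EuclideanSpace ℝ (Fin n)) => F v) h
  · intro h
    have e : cj g = id := by
      funext x
      simp only [cj, id_eq]
      rw [← h x, mul_inv_cancel_right]
    apply LinearMap.ext
    intro v
    change DD n (cj g) 1 v = v
    rw [e, DD_id]
    rfl

/-- The centre of a connected Lie group is the kernel of a finite dimensional real
representation. -/
theorem linKer_center_lie (n : ℕ) (H : Type*) [TopologicalSpace H] [Group H]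
    [ChartedSpace (EuclideanSpace ℝ (Fin n)) H]
    [LieGroup (𝓡 n) ((⊤ : ℕ∞) : WithTop ℕ∞) H] [ConnectedSpace H] :
    LinKer ℝ (Subgroup.center H) :=
  linKer_of_rep (AdRep n H) fun g => adRep_eq_one_iff g

end Lie

end Pool.Agent.H56CQ
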