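import Pool.Agent.H56CQ.Main0

/-!
# Positive characteristic: the quotient by a pure central subgroup is linear
-/

set_option autoImplicit false

namespace Pool.Agent.H56CQ

section

variable {G : Type*} [Group G]

/-- A space of additive functions on a finitely generated group is finite dimensional. -/
theorem additive_finite {F : Type*} [Field F] {B : Subgroup G} (hfg : B.FG)
    (W : Submodule F (B → F)) (hW : ∀ φ ∈ W, ∀ b c, φ (b * c) = φ b + φ c) :
    FiniteDimensional F W := by
  classical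
  obtain ⟨S, hS⟩ := hfg
  have hmem : ∀ x ∈ S, x ∈ B := fun x hx => hS ▸ Subgroup.subset_closure hx
  let ev : W →ₗ[F] (S → F) :=
    { toFun := fun φ x => (φ : B → F) ⟨x, hmem x x.2⟩
      map_add' := fun _ _ => rfl
      map_smul' := fun _ _ => rfl }
  refine Module.Finite.of_injective ev ?_
  rw [← LinearMap.ker_eq_bot, LinearMap.ker_eq_bot']
  rintro ⟨φ, hφ⟩ h0
  apply Subtype.ext
  funext b
  have hmul := hW φ hφ
  have hone : φ 1 = 0 := add_one' φ hmul
  obtain ⟨b, hb⟩ := b
  have hb' : b ∈ Subgroup.closure (S : Set G) := by rw [hS]; exact hb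
  suffices h : ∀ (x : G) (hx : x ∈ Subgroup.closure (S : Set G)), φ ⟨x, hS ▸ hx⟩ = 0 from
    h b hb'
  intro x hx
  induction hx using Subgroup.closure_induction with
  | mem x hx =>
    have := congrFun h0 ⟨x, hx⟩
    exact this
  | one => exact hone
  | mul x y hx hy h1 h2 =>
    have := hmul ⟨x, hS ▸ hx⟩ ⟨y, hS ▸ hy⟩
    rw [h1, h2, add_zero] at this
    exact this
  | inv x hx h1 =>
    have := hmul ⟨x, hS ▸ hx⟩ ⟨x⁻¹, hS ▸ Subgroup.inv_mem _ hx⟩
    have h2 : (⟨x, hS ▸ hx⟩ : B) * ⟨x⁻¹, hS ▸ Subgroup.inv_mem _ hx⟩ = 1 := by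
      apply Subtype.ext
      simp
    rw [h2, hone, h1, zero_add] at this
    exact this.symm

/-- A space of rational additive functions on a finitely generated abelian group that detects the
elements of infinite order contains all of them. -/
theorem additive_mem {B : Subgroup G} (hB : ∀ b ∈ B, ∀ g : G, b * g = g * b) (hfg : B.FG)
    (W : Submodule ℚ (B → ℚ)) (hW : ∀ φ ∈ W, ∀ b c, φ (b * c) = φ b + φ c)
    (hsep : ∀ y : B, (∀ θ ∈ W, θ y = 0) → ∃ M : ℕ, 1 ≤ M ∧ y ^ M = 1) (ψ : B → ℚ)
    (hψ : ∀ x y, ψ (x * y) = ψ x + ψ y) : ψ ∈ W := by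
  classical
  have hfin := additive_finite hfg W hW
  obtain ⟨m, b, q, hq, hqdel, hdual⟩ := exists_dual_points (K := ℚ) _ W hfin le_rfl
  let cg : CommGroup B := commGroupOf B hB
  have hqadd : ∀ i x y, q i (x * y) = q i x + q i y := fun i x y => hW _ (hq i) x y
  have key : ∀ x : B, ψ x = ∑ i, ψ (b i) * q i x := by
    intro x
    let N : ℕ := ∏ i, (q i x).den
    have hN : 0 < N := Finset.prod_pos fun i _ => (q i x).den_pos
    have hn : ∀ i, ∃ n : ℤ, (n : ℚ) = (N : ℚ) * q i x := by
      intro i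
      obtain ⟨c, hc⟩ : (q i x).den ∣ N := Finset.dvd_prod_of_mem _ (Finset.mem_univ i)
      refine ⟨c * (q i x).num, ?_⟩
      rw [hc]
      push_cast
      have h1 : (((q i x).den : ℕ) : ℚ) * q i x = (q i x).num := Rat.den_mul_eq_num _
      linear_combination -(c : ℚ) * h1
    choose n hn using hn
    let y : B := x ^ N * ∏ i, (b i) ^ (-(n i))
    have hval : ∀ θ : B → ℚ, (∀ u v, θ (u * v) = θ u + θ v) →
        θ y = N * θ x - ∑ i, (n i : ℚ) * θ (b i) := by
      intro θ hθ
      have h1 : θ (∏ i, (b i) ^ (-(n i))) = ∑ i, θ ((b i) ^ (-(n i))) := add_prod' θ hθ _ _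
      have h2 : ∀ i, θ ((b i) ^ (-(n i))) = -((n i : ℚ) * θ (b i)) := by
        intro i
        rw [add_zpow' θ hθ]
        simp
      have h3 : θ y = θ (x ^ N) + θ (∏ i, (b i) ^ (-(n i))) := hθ _ _
      rw [h3, h1, add_pow' θ hθ]
      simp only [h2, Finset.sum_neg_distrib, nsmul_eq_mul]
      ring
    have hqy : ∀ i, q i y = 0 := by
      intro i
      rw [hval (q i) (hqadd i), Finset.sum_eq_single i]
      · rw [hqdel, if_pos rfl, hn]; ring
      · intro j _ hj
        rw [hqdel, if_neg (Ne.symm hj), mul_zero]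
      · intro h
        exact absurd (Finset.mem_univ i) h
    obtain ⟨M, hM1, hM'⟩ := hsep y (by
      intro θ hθ
      rw [hdual θ hθ y]
      refine Finset.sum_eq_zero fun i _ => ?_
      rw [hqy, mul_zero])
    have h1 : ψ (y ^ M) = 0 := by rw [hM']; exact add_one' ψ hψ
    rw [add_pow' ψ hψ, nsmul_eq_mul] at h1
    have h2 : ψ y = 0 := by
      rcases mul_eq_zero.mp h1 with h3 | h3
      · exfalso
        have : M = 0 := by exact_mod_cast h3
        omega
      · exact h3
    rw [hval ψ hψ] at h2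
    have hN' : (N : ℚ) ≠ 0 := by exact_mod_cast hN.ne'
    have h4 : (N : ℚ) * ψ x = (N : ℚ) * ∑ i, ψ (b i) * q i x := by
      rw [Finset.mul_sum]
      have h5 : ∑ i, (N : ℚ) * (ψ (b i) * q i x) = ∑ i, (n i : ℚ) * ψ (b i) := by
        refine Finset.sum_congr rfl fun i _ => ?_
        rw [hn]; ring
      rw [h5]
      linarith
    exact mul_left_cancel₀ hN' h4
  have hfinal : ψ = ∑ i, ψ (b i) • q i := by
    funext x
    rw [Finset.sum_apply, key x]
    rfl
  rw [hfinal]
  exact Submodule.sum_mem _ fun i _ => Submodule.smul_mem _ _ (hq i)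

end

section

variable {G : Type*} {K : Type*} [Group G] [Field K] [IsAlgClosed K]

universe u

/-- Reduction to representations where the central subgroup acts with single eigenvalues. -/
theorem detect_gen {B : Subgroup G} (hB : ∀ b ∈ B, ∀ g : G, b * g = g * b) (a : B)
    (Hs : ∀ (V : Type u) [AddCommGroup V] [Module K V] [FiniteDimensional K V] [Nontrivial V]
      (ρ : G →* Module.End K V),
      (∀ z ∈ B, ∃ μ : K, IsNilpotent (ρ z - μ • (1 : Module.End K V))) →
      ∃ N : ℕ, 1 ≤ N ∧ (ρ a) ^ N = 1) (n : ℕ) :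
    ∀ (V : Type u) [AddCommGroup V] [Module K V] [FiniteDimensional K V],
      Module.finrank K V ≤ n → ∀ ρ : G →* Module.End K V, ∃ N : ℕ, 1 ≤ N ∧ (ρ a) ^ N = 1 := by
  induction n with
  | zero =>
    intro V _ _ _ hn ρ
    have hsub : Subsingleton V := Module.finrank_zero_iff.mp (Nat.le_zero.mp hn)
    refine ⟨1, le_rfl, ?_⟩
    ext v
    exact Subsingleton.elim _ _
  | succ n ih =>
    intro V _ _ _ hn ρ
    by_cases hsub : Subsingleton V
    · refine ⟨1, le_rfl, ?_⟩
      ext v
      exact Subsingleton.elim _ _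
    have hnt : Nontrivial V := not_subsingleton_iff_nontrivial.mp hsub
    by_cases hcase : ∃ z ∈ B, ∃ (μ : K) (k : ℕ),
        IsCompl (LinearMap.ker ((ρ z - μ • (1 : Module.End K V)) ^ k))
          (LinearMap.range ((ρ z - μ • (1 : Module.End K V)) ^ k)) ∧
        LinearMap.ker ((ρ z - μ • (1 : Module.End K V)) ^ k) ≠ ⊥ ∧
        LinearMap.ker ((ρ z - μ • (1 : Module.End K V)) ^ k) ≠ ⊤
    · obtain ⟨z, hz, μ, k, hc, hbot, htop⟩ := hcase
      set F := (ρ z - μ • (1 : Module.End K V)) ^ k with hF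
      have hcommF : ∀ g, ρ g * F = F * ρ g := by
        intro g
        have h1 : Commute (ρ g) (ρ z - μ • (1 : Module.End K V)) := by
          refine Commute.sub_right ?_ ?_
          · change ρ g * ρ z = ρ z * ρ g
            rw [← map_mul, ← map_mul, hB z hz g]
          · exact (Commute.one_right _).smul_right μ
        exact (h1.pow_right k).eq
      have hW1 : ∀ g, ∀ w ∈ LinearMap.ker F, ρ g w ∈ LinearMap.ker F := by
        intro g w hw
        rw [LinearMap.mem_ker] at hw ⊢
        have := congrArg (fun S : Module.End K V => S w) (hcommF g)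
        simp only [Module.End.mul_apply] at this
        rw [← this, hw, map_zero]
      have hW2 : ∀ g, ∀ w ∈ LinearMap.range F, ρ g w ∈ LinearMap.range F := by
        rintro g _ ⟨v, rfl⟩
        refine ⟨ρ g v, ?_⟩
        have := congrArg (fun S : Module.End K V => S v) (hcommF g)
        simp only [Module.End.mul_apply] at this
        exact this.symm
      have hrk := Submodule.finrank_add_eq_of_isCompl hc
      have h1pos : 0 < Module.finrank K (LinearMap.ker F) := by
        rw [Nat.pos_iff_ne_zero]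
        intro h0
        exact hbot (Submodule.finrank_eq_zero.mp h0)
      have h2pos : 0 < Module.finrank K (LinearMap.range F) := by
        rw [Nat.pos_iff_ne_zero]
        intro h0
        have h3 : LinearMap.range F = ⊥ := Submodule.finrank_eq_zero.mp h0
        rw [h3] at hc
        exact htop (by simpa using hc.sup_eq_top)
      obtain ⟨N1, hN1, h1⟩ := ih (LinearMap.ker F) (by omega) (restrictRep ρ _ hW1)
      obtain ⟨N2, hN2, h2⟩ := ih (LinearMap.range F) (by omega) (restrictRep ρ _ hW2)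
      refine ⟨N1 * N2, Nat.mul_pos hN1 hN2, ?_⟩
      have e1 : ∀ w ∈ LinearMap.ker F, ((ρ a) ^ (N1 * N2)) w = w := by
        intro w hw
        have h3 : ((restrictRep ρ _ hW1 a) ^ (N1 * N2)) = 1 := by
          rw [pow_mul, h1, one_pow]
        have h4 := restrictRep_pow ρ _ hW1 (a : G) (N1 * N2) ⟨w, hw⟩
        rw [h3] at h4
        simpa using h4.symm
      have e2 : ∀ w ∈ LinearMap.range F, ((ρ a) ^ (N1 * N2)) w = w := by
        intro w hw
        have h3 : ((restrictRep ρ _ hW2 a) ^ (N1 * N2)) = 1 := by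
          rw [mul_comm, pow_mul, h2, one_pow]
        have h4 := restrictRep_pow ρ _ hW2 (a : G) (N1 * N2) ⟨w, hw⟩
        rw [h3] at h4
        simpa using h4.symm
      apply LinearMap.ext
      intro v
      have hv : v ∈ LinearMap.ker F ⊔ LinearMap.range F := by
        rw [hc.sup_eq_top]; exact Submodule.mem_top
      obtain ⟨x, hx, y, hy, rfl⟩ := Submodule.mem_sup.mp hv
      rw [map_add, e1 x hx, e2 y hy]
      rfl
    · push Not at hcase
      refine Hs V ρ ?_
      intro z hz
      obtain ⟨μ, hμ⟩ := Module.End.exists_eigenvalue (ρ z)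
      refine ⟨μ, ?_⟩
      set f := ρ z - μ • (1 : Module.End K V) with hf
      obtain ⟨k, hk, hk1⟩ := ((LinearMap.eventually_isCompl_ker_pow_range_pow f).and
        (Filter.eventually_ge_atTop 1)).exists
      have hbot : LinearMap.ker (f ^ k) ≠ ⊥ := by
        obtain ⟨v, hv⟩ := hμ.exists_hasEigenvector
        have hfv : f v = 0 := by
          rw [hf, LinearMap.sub_apply, hv.apply_eq_smul]
          simp
        intro hb
        have : v ∈ LinearMap.ker (f ^ k) := by
          obtain ⟨j, rfl⟩ : ∃ j, k = j + 1 := ⟨k - 1, by omega⟩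
          rw [LinearMap.mem_ker, pow_succ, Module.End.mul_apply, hfv, map_zero]
        rw [hb, Submodule.mem_bot] at this
        exact hv.2 this
      have htop := hcase z hz μ k hk hbot
      exact ⟨k, LinearMap.ker_eq_top.mp htop⟩

end

section

variable {G : Type*} {K : Type*} [Group G] [Field K]
variable {V : Type*} [AddCommGroup V] [Module K V] [FiniteDimensional K V]

theorem det_torsion (ρ : G →* Module.End K V) (a : G)
    (H : ∀ ν : G → ℚ, (∀ x y, ν (x * y) = ν x + ν y) → ν a = 0) :
    ∃ M : ℕ, 1 ≤ M ∧ (detUnit ρ a) ^ M = 1 := by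
  have hdet : ∀ ν : Additive Kˣ →+ ℚ, ν (Additive.ofMul (detUnit ρ a)) = 0 := by
    intro ν
    refine H (fun g => ν (Additive.ofMul (detUnit ρ g))) ?_
    intro x y
    rw [map_mul, ofMul_mul, map_add]
  obtain ⟨M, hM1, hM⟩ := torsion_of_hom_rat _ hdet
  have hM' : (detUnit ρ a) ^ M = 1 := by
    have := congrArg Additive.toMul hM
    simpa using this
  exact ⟨M, hM1, hM'⟩

theorem detect_single_p (p : ℕ) [Fact p.Prime] [CharP K p] [Nontrivial V] {B : Subgroup G}
    (ρ : G →* Module.End K V) (a : B)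
    (hdet : ∃ M : ℕ, 1 ≤ M ∧ (detUnit ρ a) ^ M = 1)
    (hsingle : ∀ z ∈ B, ∃ μ : K, IsNilpotent (ρ z - μ • (1 : Module.End K V))) :
    ∃ N : ℕ, 1 ≤ N ∧ (ρ a) ^ N = 1 := by
  obtain ⟨μ, hμ⟩ := hsingle a a.2
  obtain ⟨M, hM1, hM'⟩ := hdet
  have hM2 : (LinearMap.det (ρ a)) ^ M = 1 := by
    have := congrArg (fun u : Kˣ => (u : K)) hM'
    simpa [detUnit_val] using this
  set n := ρ a - μ • (1 : Module.End K V) with hn
  have hneg : IsNilpotent (-n) := hμ.neg
  have hdetmu : LinearMap.det (ρ a) = μ ^ Module.finrank K V := by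
    have h1 := LinearMap.eval_charpoly (-n) μ
    rw [hneg.charpoly_eq_X_pow_finrank] at h1
    rw [Polynomial.eval_pow, Polynomial.eval_X] at h1
    rw [h1]
    congr 1
    rw [hn, Algebra.algebraMap_eq_smul_one]
    abel
  rw [hdetmu, ← pow_mul] at hM2
  set m := Module.finrank K V * M with hm
  have hmpos : 1 ≤ m := Nat.mul_pos Module.finrank_pos hM1
  have hcomm : Commute (ρ (a : G)) (μ • (1 : Module.End K V)) := (Commute.one_right _).smul_right μ
  have h2 := hcomm.mul_geom_sum₂ m
  have h3 : (μ • (1 : Module.End K V)) ^ m = 1 := by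
    rw [smul_pow, hM2, one_pow, one_smul]
  rw [h3, ← hn] at h2
  have hcn : Commute (ρ (a : G)) n := by
    rw [hn]
    exact (Commute.refl _).sub_right hcomm
  have hcn2 : Commute (μ • (1 : Module.End K V)) n := (Commute.one_left n).smul_left μ
  have hnil : IsNilpotent ((ρ (a : G)) ^ m - 1) := by
    rw [← h2]
    refine Commute.isNilpotent_mul_right ?_ hμ
    refine Commute.sum_right _ _ _ fun i _ => ?_
    exact (hcn.symm.pow_right i).mul_right (hcn2.symm.pow_right _)
  obtain ⟨k, hk⟩ := hnil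
  have hchar : CharP (Module.End K V) p :=
    charP_of_injective_algebraMap (algebraMap K (Module.End K V)).injective p
  have hk2 : ((ρ (a : G)) ^ m - 1) ^ p ^ k = 0 :=
    pow_eq_zero_of_le (Nat.lt_pow_self (Fact.out : p.Prime).one_lt).le hk
  rw [sub_pow_char_pow_of_commute _ _ (Commute.one_right _), one_pow, ← pow_mul] at hk2
  exact ⟨m * p ^ k, Nat.mul_pos hmpos (pow_pos (Fact.out : p.Prime).pos k),
    sub_eq_zero.mp hk2⟩

/-- The units of an algebraically closed field contain a copy of the rationals as soon as they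
contain an element of infinite order. -/
theorem exists_rat_hom [IsAlgClosed K] (x : Kˣ) (hx : ∀ M : ℕ, 1 ≤ M → x ^ M ≠ 1) :
    ∃ q : ℚ →+ Additive Kˣ, ∀ r, q r = 0 → r = 0 := by
  have hsurj : ∀ {n : ℤ}, n ≠ 0 → Function.Surjective (fun a : Additive Kˣ => n • a) := by
    intro n hn a
    obtain ⟨z, hz⟩ := IsAlgClosed.exists_pow_nat_eq ((Additive.toMul a : Kˣ) : K)
      (Int.natAbs_pos.mpr hn)
    have hz0 : z ≠ 0 := by
      rintro rfl
      rw [zero_pow (Int.natAbs_pos.mpr hn).ne'] at hz
      exact (Additive.toMul a : Kˣ).ne_zero hz.symm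
    let u : Kˣ := Units.mk0 z hz0
    have hu : u ^ n.natAbs = Additive.toMul a := by
      apply Units.ext
      simpa [u] using hz
    rcases Int.natAbs_eq n with h | h
    · refine ⟨Additive.ofMul u, ?_⟩
      beta_reduce
      rw [h, natCast_zsmul, ← ofMul_pow, hu]
      rfl
    · refine ⟨Additive.ofMul u⁻¹, ?_⟩
      beta_reduce
      rw [h, neg_smul, natCast_zsmul, ← ofMul_pow, inv_pow, hu, ofMul_inv, neg_neg]
      rfl
  let hdiv : DivisibleBy (Additive Kˣ) ℤ := divisibleByOfSMulRightSurj _ _ hsurj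
  have hbaer : Module.Baer ℤ (Additive Kˣ) := Module.Baer.of_divisible _
  obtain ⟨q, hq⟩ := Module.Baer.extension_property_addMonoidHom hbaer (Int.castAddHom ℚ)
    (fun a b h => by simpa using h) (zmultiplesHom (Additive Kˣ) (Additive.ofMul x))
  refine ⟨q, ?_⟩
  intro r hr
  have h1 : q ((r.num : ℤ) : ℚ) = 0 := by
    have h2 : ((r.num : ℤ) : ℚ) = r.den • r := by
      rw [nsmul_eq_mul, Rat.den_mul_eq_num]
    rw [h2, map_nsmul, hr, smul_zero]
  have h3 : q ((r.num : ℤ) : ℚ) = r.num • Additive.ofMul x := by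
    have := congrArg (fun f : ℤ →+ Additive Kˣ => f r.num) hq
    simpa using this
  rw [h3] at h1
  by_contra hr0
  have hnum : r.num ≠ 0 := Rat.num_ne_zero.mpr hr0
  refine hx r.num.natAbs (Int.natAbs_pos.mpr hnum) ?_
  have h4 : r.num.natAbs • Additive.ofMul x = 0 := by
    rcases Int.natAbs_eq r.num with h | h
    · rw [h, natCast_zsmul] at h1
      simpa using h1
    · rw [h, neg_smul, natCast_zsmul, neg_eq_zero] at h1
      simpa using h1
  exact h4

end

section

variable {G : Type*} [Group G] {K : Type*} [Field K] [IsAlgClosed K]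

theorem linKer_pureClosure_p (p : ℕ) [Fact p.Prime] [CharP K p] {B D : Subgroup G}
    (hB : ∀ b ∈ B, ∀ g : G, b * g = g * b)
    (hfg : B.FG) (hlin : LinKer K (⊥ : Subgroup G)) (hlinB : LinKer K B) :
    LinKer K (pureClosure B D hB) := by
  classical
  obtain ⟨n0, ρ, hρ⟩ := hlin.exists_rep
  let W : Submodule ℚ (B → ℚ) :=
    { carrier := {ψ | ∃ ν : G → ℚ, (∀ x y, ν (x * y) = ν x + ν y) ∧ ∀ b : B, ν b = ψ b}
      add_mem' := by
        rintro ψ ψ' ⟨ν, h1, h2⟩ ⟨ν', h1', h2'⟩
        refine ⟨fun g => ν g + ν' g, ?_, ?_⟩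
        · intro x y
          simp only [h1, h1']
          ring
        · intro b
          simp only [h2, h2', Pi.add_apply]
      zero_mem' := ⟨fun _ => 0, by intro x y; simp, fun _ => rfl⟩
      smul_mem' := by
        rintro c ψ ⟨ν, h1, h2⟩
        refine ⟨fun g => c * ν g, ?_, ?_⟩
        · intro x y
          simp only [h1]
          ring
        · intro b
          simp only [h2, Pi.smul_apply, smul_eq_mul] }
  have hW : ∀ φ ∈ W, ∀ b c, φ (b * c) = φ b + φ c := by
    rintro φ ⟨ν, h1, h2⟩ b c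
    rw [← h2, ← h2, ← h2, Subgroup.coe_mul, h1]
  have hsep : ∀ y : B, (∀ θ ∈ W, θ y = 0) → ∃ M : ℕ, 1 ≤ M ∧ y ^ M = 1 := by
    intro y hy
    have H : ∀ ν : G → ℚ, (∀ x y, ν (x * y) = ν x + ν y) → ν y = 0 := by
      intro ν hν
      exact hy (fun b => ν b) ⟨ν, hν, fun _ => rfl⟩
    obtain ⟨N, hN, h⟩ := detect_gen hB y (fun V _ _ _ _ ρ hs => detect_single_p p ρ y (det_torsion ρ y H) hs)
      _ (Fin n0 → K) le_rfl ρ
    refine ⟨N, hN, ?_⟩
    rw [← map_pow] at h
    have h1 := (hρ _).mp h
    exact Subtype.ext (by simpa using Subgroup.mem_bot.mp h1)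
  have hmem := additive_mem hB hfg W hW hsep
  by_cases hinf : ∃ x : Kˣ, ∀ M : ℕ, 1 ≤ M → x ^ M ≠ 1
  swap
  · -- all units are torsion, hence `B` is torsion and everything is in the pure closure
    push Not at hinf
    have hall : pureClosure B D hB = B := by
      refine le_antisymm (pureClosure_le hB) ?_
      intro b hb
      obtain ⟨N, hN, h⟩ := detect_gen hB ⟨b, hb⟩
        (fun V _ _ _ _ ρ hs => detect_single_p p ρ ⟨b, hb⟩ (hinf _) hs)
        _ (Fin n0 → K) le_rfl ρ
      refine ⟨hb, N, hN, ?_⟩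
      rw [← map_pow] at h
      have h1 := Subgroup.mem_bot.mp ((hρ _).mp h)
      rw [h1]
      exact D.one_mem
    rw [hall]
    exact hlinB
  obtain ⟨x0, hx0⟩ := hinf
  obtain ⟨q, hq⟩ := exists_rat_hom x0 hx0
  have hfinW := additive_finite hfg W hW
  let V0 : Submodule ℚ (B → ℚ) :=
    { carrier := {φ | ∀ b : B, (b : G) ∈ pureClosure B D hB → φ b = 0}
      add_mem' := by
        intro φ ψ h1 h2 b hb
        rw [Pi.add_apply, h1 b hb, h2 b hb, add_zero]
      zero_mem' := fun _ _ => rfl
      smul_mem' := by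
        intro c φ h b hb
        rw [Pi.smul_apply, h b hb, smul_zero] }
  let W' : Submodule ℚ (B → ℚ) := W ⊓ V0
  have hfinW' : FiniteDimensional ℚ W' := Submodule.finiteDimensional_of_le inf_le_left
  obtain ⟨m, b, φ, hφ, -, hdual⟩ := exists_dual_points (K := ℚ) _ W' hfinW' le_rfl
  have hN : ∀ i, ∃ N : Subgroup G, LinKer K N ∧ ∀ b : B, (b : G) ∈ N ↔ φ i b = 0 := by
    intro i
    obtain ⟨ν, hν1, hν2⟩ := (hφ i).1
    let χ : G →* Kˣ := MonoidHom.mk' (fun g => Additive.toMul (q (ν g))) (by
      intro x y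
      rw [hν1, map_add]
      rfl)
    have hχ : ∀ g, χ g = 1 ↔ ν g = 0 := by
      intro g
      constructor
      · intro h
        exact hq _ h
      · intro h
        change Additive.toMul (q (ν g)) = 1
        rw [h, map_zero]
        rfl
    let σ : G →* Module.End K K :=
      { toFun := fun g => ((χ g : Kˣ) : K) • (1 : Module.End K K)
        map_one' := by simp
        map_mul' := by
          intro x y
          ext
          simp [mul_comm] }
    refine ⟨χ.ker, linKer_of_rep σ ?_, ?_⟩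
    · intro g
      rw [MonoidHom.mem_ker]
      constructor
      · intro h
        have := congrArg (fun F : Module.End K K => F 1) h
        apply Units.ext
        simpa [σ] using this
      · intro h
        change ((χ g : Kˣ) : K) • (1 : Module.End K K) = 1
        rw [h]
        simp
    · intro b
      rw [MonoidHom.mem_ker, hχ, hν2]
  choose N hN1 hN2 using hN
  have hfinal : pureClosure B D hB = B ⊓ ⨅ i, N i := by
    apply le_antisymm
    · refine le_inf (pureClosure_le hB) (le_iInf fun i => ?_)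
      intro x hx
      have hxB : x ∈ B := hx.1
      exact (hN2 i ⟨x, hxB⟩).mpr ((hφ i).2 ⟨x, hxB⟩ hx)
    · intro x hx
      obtain ⟨hxB, hxN⟩ := Subgroup.mem_inf.mp hx
      rw [Subgroup.mem_iInf] at hxN
      by_contra hcon
      obtain ⟨ψ, hψ1, hψ2, hψ3⟩ := exists_rat_functional hB ⟨x, hxB⟩ hcon
      have h1 : ψ ∈ W' := ⟨hmem ψ hψ1, fun b hb => hψ2 b hb⟩
      have h2 := hdual _ h1 ⟨x, hxB⟩
      rw [Finset.sum_eq_zero] at h2
      · exact hψ3 h2
      · intro i _
        rw [(hN2 i ⟨x, hxB⟩).mp (hxN i), mul_zero]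
  rw [hfinal]
  exact hlinB.inf (linKer_iInf N hN1)

end

end Pool.Agent.H56CQ
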