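import Pool.Agent.H56CQ.H1

/-!
# The elementwise criterion
-/

set_option autoImplicit false

namespace Pool.Agent.H56CQ

section

variable {E : Type} [Group E]

/-- rational functionals on `A` vanishing on `N` -/
def annih (A N : Subgroup E) : Submodule ℚ (A → ℚ) where
  carrier := {ψ | (∀ x y, ψ (x * y) = ψ x + ψ y) ∧ ∀ x : A, (x : E) ∈ N → ψ x = 0}
  add_mem' := by
    rintro ψ ψ' ⟨h1, h2⟩ ⟨h3, h4⟩
    refine ⟨fun x y => ?_, fun x hx => ?_⟩
    · rw [Pi.add_apply, Pi.add_apply, Pi.add_apply, h1, h3]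
      ring
    · rw [Pi.add_apply, h2 x hx, h4 x hx, add_zero]
  zero_mem' := ⟨fun x y => by simp, fun x _ => rfl⟩
  smul_mem' := by
    rintro c ψ ⟨h1, h2⟩
    refine ⟨fun x y => ?_, fun x hx => ?_⟩
    · rw [Pi.smul_apply, Pi.smul_apply, Pi.smul_apply, h1, smul_add]
    · rw [Pi.smul_apply, h2 x hx, smul_zero]

/-- There is a smallest kernel up to finite index. -/
theorem exists_small_kernel {A : Subgroup E} (hA : ∀ b ∈ A, ∀ g : E, b * g = g * b)
    (hfg : A.FG) (d : ℕ) : ∀ (N : Subgroup E), N ≤ A →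
      Module.finrank ℚ (annih A (⊥ : Subgroup E)) ≤ Module.finrank ℚ (annih A N) + d →
      (∃ (L : Type) (_ : Field L) (_ : CharZero L), LinKer L N) →
      ∃ N' : Subgroup E, N' ≤ A ∧ (∃ (L : Type) (_ : Field L) (_ : CharZero L), LinKer L N') ∧
        ∀ a ∈ N', RepTorsion a := by
  have hfin : FiniteDimensional ℚ (annih A (⊥ : Subgroup E)) :=
    additive_finite hfg _ fun φ hφ => hφ.1
  have hle : ∀ N : Subgroup E, annih A N ≤ annih A (⊥ : Subgroup E) := by
    intro N ψ hψ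
    refine ⟨hψ.1, fun x hx => ?_⟩
    have : x = 1 := Subtype.ext (Subgroup.mem_bot.mp hx)
    rw [this]
    exact add_one' ψ hψ.1
  have hfinN : ∀ N : Subgroup E, FiniteDimensional ℚ (annih A N) := fun N =>
    additive_finite hfg _ fun φ hφ => hφ.1
  -- one step
  have step : ∀ N : Subgroup E, N ≤ A → (∃ (L : Type) (_ : Field L) (_ : CharZero L), LinKer L N) →
      (∃ a ∈ N, ¬ RepTorsion a) → ∃ N' : Subgroup E, N' ≤ A ∧
        (∃ (L : Type) (_ : Field L) (_ : CharZero L), LinKer L N') ∧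
        Module.finrank ℚ (annih A N) < Module.finrank ℚ (annih A N') := by
    rintro N hN ⟨L, _, _, hL⟩ ⟨a, ha, hna⟩
    unfold RepTorsion at hna
    push Not at hna
    obtain ⟨K, _, _, m, φ, hφ⟩ := hna
    obtain ⟨L', _, hL0, _, ⟨f⟩, ⟨g⟩⟩ := exists_common_field L K
    have hker : LinKer K φ.ker := ⟨m, φ, rfl⟩
    refine ⟨N ⊓ φ.ker, inf_le_left.trans hN,
      ⟨L', inferInstance, hL0, (hL.map_field f).inf (hker.map_field g)⟩, ?_⟩
    have hnot : (((⟨a, hN ha⟩ : A) : E)) ∉ pureClosure A (N ⊓ φ.ker) hA := by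
      rintro ⟨_, n, hn, h2⟩
      have h3 : φ (a ^ n) = 1 := (Subgroup.mem_inf.mp h2).2
      rw [map_pow] at h3
      exact hφ n hn h3
    obtain ⟨ψ, h1, h2, h3⟩ := exists_rat_functional hA (⟨a, hN ha⟩ : A) hnot
    refine Submodule.finrank_lt_finrank_of_lt (lt_of_le_of_ne ?_ ?_)
    · intro θ hθ
      exact ⟨hθ.1, fun x hx => hθ.2 x hx.1⟩
    · intro heq
      have h4 : ψ ∈ annih A (N ⊓ φ.ker) := by
        refine ⟨h1, fun x hx => h2 x ?_⟩
        exact le_pureClosure hA (inf_le_left.trans hN) hx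
      rw [← heq] at h4
      exact h3 (h4.2 _ ha)
  induction d with
  | zero =>
    intro N hN hd hL
    by_cases hcase : ∃ a ∈ N, ¬ RepTorsion a
    · obtain ⟨N', h1, h2, h3⟩ := step N hN hL hcase
      have h4 := Submodule.finrank_mono (hle N')
      omega
    · push Not at hcase
      exact ⟨N, hN, hL, hcase⟩
  | succ d ih =>
    intro N hN hd hL
    by_cases hcase : ∃ a ∈ N, ¬ RepTorsion a
    · obtain ⟨N', h1, h2, h3⟩ := step N hN hL hcase
      exact ih N' h1 (by omega) h2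
    · push Not at hcase
      exact ⟨N, hN, hL, hcase⟩

/-- **Elementwise criterion.** -/
theorem quotLinear_iff_elements (hE : Group.FG E) {A : Subgroup E}
    (hA : ∀ b ∈ A, ∀ g : E, b * g = g * b)
    (hfg : A.FG) {K : Type} [Field K] [hK : CharZero K] (hlinA : LinKer K A) :
    QuotLinear E A ↔ ∀ a ∈ A, RepTorsion a → ∃ N : ℕ, 1 ≤ N ∧ a ^ N ∈ Res E := by
  have hRA : Res E ≤ A := res_le_of_linKer hE hlinA
  rw [quotLinear_iff hE hA hfg hlinA]
  constructor
  · intro h a _ ha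
    obtain ⟨L, _, _, m, φ, hφ⟩ := linKer_res_charZero hA hfg hlinA hRA h
    obtain ⟨N, hN, h1⟩ := ha L m φ
    refine ⟨N, hN, ?_⟩
    rw [← hφ, MonoidHom.mem_ker, map_pow]
    exact h1
  · intro h
    obtain ⟨N', h1, ⟨L, _, _, hL⟩, h2⟩ := exists_small_kernel hA hfg
      (Module.finrank ℚ (annih A (⊥ : Subgroup E))) A le_rfl (by omega)
      ⟨K, inferInstance, hK, hlinA⟩
    have hRN : Res E ≤ N' := res_le_of_linKer hE hL
    have h3 : LinKer L (N'.map (QuotientGroup.mk' (Res E))) :=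
      hL.map_surj _ (QuotientGroup.mk'_surjective _) (by rw [QuotientGroup.ker_mk']; exact hRN)
    refine isLinear_of_linKer_bot (linKer_bot_of_rf isRF_quot_res ?_ h3)
    obtain ⟨R, hR1, hR2, hR3⟩ := pureClosure_finite (D := Res E) hA hfg
    refine (hR1.image (QuotientGroup.mk' (Res E))).subset ?_
    rintro _ ⟨x, hx, rfl⟩
    obtain ⟨n, hn, hxn⟩ := h x (h1 hx) (h2 x hx)
    obtain ⟨r, hr, d, hd, hxr⟩ := hR3 x ⟨h1 hx, n, hn, hxn⟩
    refine ⟨r, hr, ?_⟩
    change ((r : E) : E ⧸ Res E) = ((x : E) : E ⧸ Res E)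
    rw [QuotientGroup.eq, hxr, inv_mul_cancel_left]
    exact hd

/-- If every element of `A` has finite order in all representations, then the question is
equivalent to the finiteness of the index of the finite residual in `A`. -/
theorem quotLinear_iff_relIndex (hE : Group.FG E) {A : Subgroup E}
    (hA : ∀ b ∈ A, ∀ g : E, b * g = g * b)
    (hfg : A.FG) {K : Type} [Field K] [CharZero K] (hlinA : LinKer K A)
    (ht : ∀ a ∈ A, RepTorsion a) : QuotLinear E A ↔ (Res E).relIndex A ≠ 0 := by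
  refine ⟨fun h => ?_, fun h => quotLinear_of_relIndex hE hA hfg hlinA h⟩
  rw [quotLinear_iff_elements hE hA hfg hlinA] at h
  obtain ⟨R, hR1, hR2, hR3⟩ := pureClosure_finite (D := Res E) hA hfg
  have hRA : ∀ r ∈ R, r ∈ A := fun r hr => (hR2 r hr).1
  have : Finite R := hR1
  let f : R → A ⧸ (Res E).subgroupOf A := fun r => ((⟨r, hRA r r.2⟩ : A) : _)
  have hf : Function.Surjective f := by
    intro q
    obtain ⟨⟨x, hx⟩, rfl⟩ := QuotientGroup.mk_surjective q
    obtain ⟨n, hn, hxn⟩ := h x hx (ht x hx)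
    obtain ⟨r, hr, d, hd, hxr⟩ := hR3 x ⟨hx, n, hn, hxn⟩
    refine ⟨⟨r, hr⟩, ?_⟩
    change ((⟨r, hRA r hr⟩ : A) : A ⧸ (Res E).subgroupOf A) = ((⟨x, hx⟩ : A) : _)
    rw [QuotientGroup.eq]
    change r⁻¹ * x ∈ Res E
    rw [hxr, inv_mul_cancel_left]
    exact hd
  have hfin : Finite (A ⧸ (Res E).subgroupOf A) := Finite.of_surjective f hf
  exact Nat.card_pos.ne'

/-- Vanishing first cohomology. -/
theorem quotLinear_iff_of_h1 (hE : Group.FG E) {A : Subgroup E}
    (hA : ∀ b ∈ A, ∀ g : E, b * g = g * b)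
    (hfg : A.FG) {K : Type} [Field K] [CharZero K] (hlinA : LinKer K A)
    (h1 : H1Vanish E) : QuotLinear E A ↔ (Res E).relIndex A ≠ 0 :=
  quotLinear_iff_relIndex hE hA hfg hlinA fun a ha K _ _ m φ =>
    finite_order_of_h1 h1 hA ⟨a, ha⟩ K m φ

end

end Pool.Agent.H56CQ
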