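import Mathlib

/-!
# Definitions used in the statements about lattices and central quotients
-/

set_option autoImplicit false

namespace Pool.Agent.H56CQ

/-- A linear group: it embeds in a general linear group over some field. -/
def IsLinearGroup (Γ : Type*) [Group Γ] : Prop :=
  ∃ (K : Type) (_ : Field K) (m : ℕ) (φ : Γ →* Matrix.GeneralLinearGroup (Fin m) K),
    Function.Injective φ

/-- Residual finiteness: every element different from `1` lies outside some normal subgroup of
finite index. -/
def IsRF (Γ : Type*) [Group Γ] : Prop :=
  ∀ g : Γ, g ≠ 1 → ∃ N : Subgroup Γ, N.Normal ∧ N.FiniteIndex ∧ g ∉ N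

/-- The finite residual: the intersection of all normal subgroups of finite index. -/
def Res (Γ : Type*) [Group Γ] : Subgroup Γ :=
  ⨅ N : {N : Subgroup Γ // N.Normal ∧ N.FiniteIndex}, (N : Subgroup Γ)

/-- Membership in the finite residual. -/
theorem mem_res {Γ : Type*} [Group Γ] {g : Γ} :
    g ∈ Res Γ ↔ ∀ N : Subgroup Γ, N.Normal → N.FiniteIndex → g ∈ N := by
  rw [Res, Subgroup.mem_iInf]
  exact ⟨fun h N h1 h2 => h ⟨N, h1, h2⟩, fun h N => h N.1 N.2.1 N.2.2⟩

/-- The finite residual is normal. -/
instance res_normal {Γ : Type*} [Group Γ] : (Res Γ).Normal := by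
  constructor
  intro n hn g
  rw [mem_res] at hn ⊢
  intro N h1 h2
  exact h1.conj_mem n (hn N h1 h2) g

/-- The question for all quotients of `E` by subgroups of `A`: every group `Q` that is a quotient
of `E` by a subgroup of `A` is linear if and only if it is residually finite. -/
def QuestionForQuotients (E : Type) [Group E] (A : Subgroup E) : Prop :=
  ∀ (Q : Type) [Group Q] (π : E →* Q), Function.Surjective π → π.ker ≤ A →
    (IsLinearGroup Q ↔ IsRF Q)

/-- The element `a` has finite order in every finite dimensional representation over every field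
of characteristic zero. -/
def RepTorsion {E : Type} [Group E] (a : E) : Prop :=
  ∀ (K : Type) [Field K] [CharZero K] (m : ℕ) (φ : E →* Matrix.GeneralLinearGroup (Fin m) K),
    ∃ N : ℕ, 1 ≤ N ∧ φ a ^ N = 1

/-- First cohomology vanishes: over every field of characteristic zero, every crossed
homomorphism into a finite dimensional representation is principal. -/
def H1Vanish (E : Type) [Group E] : Prop :=
  ∀ (K : Type) [Field K] [CharZero K] (m : ℕ) (φ : E →* Matrix.GeneralLinearGroup (Fin m) K)
    (c : E → Fin m → K),
    (∀ x y, c (x * y) = c x + Matrix.mulVec (φ x : Matrix (Fin m) (Fin m) K) (c y)) →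
    ∃ v : Fin m → K, ∀ x, c x = Matrix.mulVec (φ x : Matrix (Fin m) (Fin m) K) v - v

end Pool.Agent.H56CQ
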