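import Mathlib

/-!
# Automorphisms of algebraically closed fields of characteristic zero move every irrational
-/

set_option autoImplicit false

namespace Pool.Agent.H56CQ

open Cardinal

theorem exists_ringEquiv_extending {S : Type} [CommRing S] [IsDomain S]
    {K L : Type} [Field K] [Field L] [IsAlgClosed K] [IsAlgClosed L] [Algebra S K] [Algebra S L]
    [FaithfulSMul S K] [FaithfulSMul S L]
    (h : Algebra.trdeg S K = Algebra.trdeg S L) :
    ∃ F : K ≃+* L, ∀ s, F (algebraMap S K s) = algebraMap S L s := by
  obtain ⟨ι, v, hv⟩ := exists_isTranscendenceBasis' S K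
  obtain ⟨κ, w, hw⟩ := exists_isTranscendenceBasis' S L
  have h1 : #ι = #κ := by
    rw [hv.cardinalMk_eq_trdeg, hw.cardinalMk_eq_trdeg, h]
  obtain ⟨e⟩ := Cardinal.eq.mp h1
  let i1 := IsAlgClosed.isAlgClosure_of_transcendence_basis v hv
  let i2 := IsAlgClosed.isAlgClosure_of_transcendence_basis w hw
  let e0 : Algebra.adjoin S (Set.range v) ≃ₐ[S] Algebra.adjoin S (Set.range w) :=
    (hv.1.aevalEquiv.symm.trans (MvPolynomial.renameEquiv S e)).trans hw.1.aevalEquiv
  refine ⟨IsAlgClosure.equivOfEquiv K L e0.toRingEquiv, ?_⟩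
  intro s
  have h2 : algebraMap S K s =
      algebraMap (Algebra.adjoin S (Set.range v)) K (algebraMap S _ s) := rfl
  rw [h2, IsAlgClosure.equivOfEquiv_algebraMap]
  have h3 : e0.toRingEquiv (algebraMap S _ s) = algebraMap S _ s := e0.commutes s
  rw [h3]
  rfl

theorem exists_ringEquiv_of_homs {S : Type} [CommRing S] [IsDomain S] [Algebra ℚ S]
    {K : Type} [Field K] [IsAlgClosed K] [CharZero K] (n : ℕ) (hS : Algebra.trdeg ℚ S = n)
    (i j : S →+* K) (hi : Function.Injective i) (hj : Function.Injective j) :
    ∃ F : K ≃+* K, ∀ s, F (i s) = j s := by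
  have key : ∀ (k : S →+* K), Function.Injective k →
      (n : Cardinal.{0}) + @Algebra.trdeg S K _ _ k.toAlgebra = Algebra.trdeg ℚ K := by
    intro k hk
    let := k.toAlgebra
    have : FaithfulSMul S K := (faithfulSMul_iff_algebraMap_injective S K).mpr hk
    have : IsScalarTower ℚ S K := IsScalarTower.of_algebraMap_eq' (Subsingleton.elim _ _)
    have : FaithfulSMul ℚ S :=
      (faithfulSMul_iff_algebraMap_injective ℚ S).mpr (algebraMap ℚ S).injective
    rw [← hS]
    exact _root_.trdeg_add_eq ℚ S (A := K)
  have h1 := key i hi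
  have h2 := key j hj
  rw [← h2] at h1
  have h3 : @Algebra.trdeg S K _ _ i.toAlgebra = @Algebra.trdeg S K _ _ j.toAlgebra := by
    rw [add_comm (n : Cardinal.{0}), add_comm (n : Cardinal.{0})] at h1
    exact (Cardinal.add_nat_inj n).mp h1
  have := @exists_ringEquiv_extending S _ _ K K _ _ _ _ i.toAlgebra j.toAlgebra
    (by
      let := i.toAlgebra
      exact (faithfulSMul_iff_algebraMap_injective S K).mpr hi)
    (by
      let := j.toAlgebra
      exact (faithfulSMul_iff_algebraMap_injective S K).mpr hj) h3
  exact this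

open Polynomial in
/-- Every element fixed by all automorphisms of an algebraically closed field of characteristic
zero is rational. -/
theorem rational_of_fixed {K : Type} [Field K] [IsAlgClosed K] [CharZero K] (x : K)
    (hx : ∀ τ : K ≃+* K, τ x = x) : ∃ q : ℚ, (q : K) = x := by
  by_cases hal : IsAlgebraic ℚ x
  · by_contra hcon
    push Not at hcon
    have hint : IsIntegral ℚ x := hal.isIntegral
    set p := minpoly ℚ x with hp
    have hirr : Irreducible p := minpoly.irreducible hint
    have hsep : p.Separable := hirr.separable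
    have hcard := card_rootSet_eq_natDegree (K := K) hsep (IsAlgClosed.splits _)
    have hdeg : 2 ≤ p.natDegree := by
      by_contra hlt
      push Not at hlt
      have hpos : 0 < p.natDegree := minpoly.natDegree_pos hint
      have h1 : p.natDegree = 1 := by omega
      have h2 : x ∈ (algebraMap ℚ K).range := minpoly.natDegree_eq_one_iff.mp h1
      obtain ⟨q, hq⟩ := h2
      exact hcon q (by simpa using hq)
    have hxr : x ∈ p.rootSet K := by
      rw [mem_rootSet]
      exact ⟨hirr.ne_zero, minpoly.aeval ℚ x⟩
    have h2 : 1 < Fintype.card (p.rootSet K) := by rw [hcard]; omega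
    obtain ⟨⟨y, hy⟩, hne⟩ := Fintype.exists_ne_of_one_lt_card h2 ⟨x, hxr⟩
    have hne' : y ≠ x := fun h => hne (Subtype.ext h)
    have hy' : aeval y p = 0 := (mem_rootSet.mp hy).2
    have : Fact (Irreducible p) := ⟨hirr⟩
    let i : AdjoinRoot p →+* K := AdjoinRoot.lift (algebraMap ℚ K) x (minpoly.aeval ℚ x)
    let j : AdjoinRoot p →+* K := AdjoinRoot.lift (algebraMap ℚ K) y hy'
    have hfin : FiniteDimensional ℚ (AdjoinRoot p) :=
      (AdjoinRoot.powerBasis hirr.ne_zero).finite
    have h0 : Algebra.trdeg ℚ (AdjoinRoot p) = (0 : ℕ) := by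
      rw [Nat.cast_zero]
      exact _root_.trdeg_eq_zero
    obtain ⟨F, hF⟩ := exists_ringEquiv_of_homs 0 h0 i j i.injective j.injective
    have h3 := hF (AdjoinRoot.root p)
    simp only [i, j, AdjoinRoot.lift_root] at h3
    rw [hx F] at h3
    exact hne' h3.symm
  · exfalso
    have ht : Transcendental ℚ x := hal
    have ht' : Transcendental ℚ (x + 1) := by
      intro h
      apply hal
      have := h.sub (isAlgebraic_one (R := ℚ) (A := K))
      simpa using this
    let i : ℚ[X] →+* K := (aeval x : ℚ[X] →ₐ[ℚ] K).toRingHom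
    let j : ℚ[X] →+* K := (aeval (x + 1) : ℚ[X] →ₐ[ℚ] K).toRingHom
    have hi : Function.Injective i := transcendental_iff_injective.mp ht
    have hj : Function.Injective j := transcendental_iff_injective.mp ht'
    have h0 : Algebra.trdeg ℚ ℚ[X] = (1 : ℕ) := by
      rw [Nat.cast_one]
      exact Polynomial.trdeg_of_isDomain
    obtain ⟨F, hF⟩ := exists_ringEquiv_of_homs 1 h0 i j hi hj
    have h3 := hF X
    have h4 : i X = x := by simp [i]
    have h5 : j X = x + 1 := by simp [j]
    rw [h4, h5, hx F] at h3
    have : (1 : K) = 0 := by linear_combination -h3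
    exact one_ne_zero this

end Pool.Agent.H56CQ
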