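import Pool.Agent.H56CQ.Detect2
import Pool.Agent.H56CQ.FixQ

/-!
# Every rational functional on the central subgroup is realised
-/

set_option autoImplicit false

namespace Pool.Agent.H56CQ

open Finset

section

variable {G : Type*} [Group G]

/-- A map to an additive group turning products into sums, as a monoid homomorphism. -/
def toHom {M A : Type*} [Group M] [AddGroup A] (φ : M → A)
    (h : ∀ x y, φ (x * y) = φ x + φ y) : M →* Multiplicative A :=
  MonoidHom.mk' (fun x => Multiplicative.ofAdd (φ x)) (by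
    intro x y
    simp [h])

theorem toHom_apply {M A : Type*} [Group M] [AddGroup A] (φ : M → A)
    (h : ∀ x y, φ (x * y) = φ x + φ y) (x : M) :
    Multiplicative.toAdd (toHom φ h x) = φ x := rfl

theorem add_one' {M A : Type*} [Group M] [AddGroup A] (φ : M → A)
    (h : ∀ x y, φ (x * y) = φ x + φ y) : φ 1 = 0 := by
  have := map_one (toHom φ h)
  exact congrArg Multiplicative.toAdd this

theorem add_pow' {M A : Type*} [Group M] [AddCommGroup A] (φ : M → A)
    (h : ∀ x y, φ (x * y) = φ x + φ y) (x : M) (n : ℕ) : φ (x ^ n) = n • φ x := by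
  have := map_pow (toHom φ h) x n
  exact congrArg Multiplicative.toAdd this

theorem add_zpow' {M A : Type*} [Group M] [AddCommGroup A] (φ : M → A)
    (h : ∀ x y, φ (x * y) = φ x + φ y) (x : M) (n : ℤ) : φ (x ^ n) = n • φ x := by
  have := map_zpow (toHom φ h) x n
  exact congrArg Multiplicative.toAdd this

theorem add_prod' {M A : Type*} [CommGroup M] [AddCommGroup A] (φ : M → A)
    (h : ∀ x y, φ (x * y) = φ x + φ y) {ι : Type*} (s : Finset ι) (f : ι → M) :
    φ (∏ i ∈ s, f i) = ∑ i ∈ s, φ (f i) := by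
  classical
  induction s using Finset.induction_on with
  | empty => simpa using add_one' φ h
  | insert a s ha ih => rw [Finset.prod_insert ha, h, ih, Finset.sum_insert ha]

end

section

variable {G : Type*} [Group G] {K : Type} [Field K] [CharZero K] [IsAlgClosed K]

theorem rat_mem_Phi {B : Subgroup G} (hB : ∀ b ∈ B, ∀ g : G, b * g = g * b) (hfg : B.FG)
    {V : Type*} [AddCommGroup V] [Module K V] [FiniteDimensional K V]
    (ρ : G →* Module.End K V) (hρ : ∀ g, ρ g = 1 → ∃ N : ℕ, 1 ≤ N ∧ g ^ N = 1) (ψ : B → ℚ)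
    (hψ : ∀ x y, ψ (x * y) = ψ x + ψ y) : (fun b => ((ψ b : ℚ) : K)) ∈ Phi K B := by
  classical
  have hfin := Phi_finite (K := K) B hfg
  obtain ⟨m, b, φ, hφ, hdel, hdual⟩ := exists_dual_points (K := K) _ (Phi K B) hfin le_rfl
  -- the dual basis is fixed by automorphisms
  have hfix : ∀ i (x : B) (τ : K ≃+* K), τ (φ i x) = φ i x := by
    intro i x τ
    have h1 : (fun y => (τ : K →+* K) (φ i y)) ∈ Phi K B := Phi_ringHom (τ : K →+* K) (hφ i)
    have h2 := hdual _ h1 x
    beta_reduce at h2
    rw [Finset.sum_eq_single i] at h2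
    · simpa [hdel] using h2
    · intro j _ hj
      rw [hdel, if_neg (Ne.symm hj)]
      simp
    · intro h
      exact absurd (Finset.mem_univ i) h
  choose q hq using fun i (x : B) => rational_of_fixed (φ i x) (hfix i x)
  have hqadd : ∀ i x y, q i (x * y) = q i x + q i y := by
    intro i x y
    have h1 := Phi_mul (hφ i) x y
    rw [← hq, ← hq, ← hq] at h1
    exact_mod_cast h1
  have hqdel : ∀ i j, q i (b j) = if i = j then 1 else 0 := by
    intro i j
    have h1 := hdel i j
    rw [← hq] at h1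
    have h2 : ((q i (b j) : ℚ) : K) = ((if i = j then (1 : ℚ) else 0 : ℚ) : K) := by
      rw [h1]; split_ifs <;> simp
    exact_mod_cast h2
  let cg : CommGroup B :=
    { (inferInstance : Group B) with
      mul_comm := fun x y => Subtype.ext (hB x x.2 y) }
  have key : ∀ x : B, ψ x = ∑ i, ψ (b i) * q i x := by
    intro x
    let N : ℕ := ∏ i, (q i x).den
    have hN : 0 < N := Finset.prod_pos fun i _ => (q i x).den_pos
    have hn : ∀ i, ∃ n : ℤ, (n : ℚ) = (N : ℚ) * q i x := by
      intro i
      obtain ⟨c, hc⟩ : (q i x).den ∣ N := Finset.dvd_prod_of_mem _ (Finset.mem_univ i)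
      refine ⟨c * (q i x).num, ?_⟩
      rw [hc]
      push_cast
      have h1 : (((q i x).den : ℕ) : ℚ) * q i x = (q i x).num := Rat.den_mul_eq_num _
      linear_combination -(c : ℚ) * h1
    choose n hn using hn
    let y : B := x ^ N * ∏ i, (b i) ^ (-(n i))
    have hval : ∀ θ : B → ℚ, (∀ u v, θ (u * v) = θ u + θ v) →
        θ y = N * θ x - ∑ i, (n i : ℚ) * θ (b i) := by
      intro θ hθ
      have h1 : θ (∏ i, (b i) ^ (-(n i))) = ∑ i, θ ((b i) ^ (-(n i))) := add_prod' θ hθ _ _
      have h2 : ∀ i, θ ((b i) ^ (-(n i))) = -((n i : ℚ) * θ (b i)) := by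
        intro i
        rw [add_zpow' θ hθ]
        simp
      have h3 : θ y = θ (x ^ N) + θ (∏ i, (b i) ^ (-(n i))) := hθ _ _
      rw [h3, h1, add_pow' θ hθ]
      simp only [h2, Finset.sum_neg_distrib, nsmul_eq_mul]
      ring
    have hqy : ∀ i, q i y = 0 := by
      intro i
      rw [hval (q i) (hqadd i), Finset.sum_eq_single i]
      · rw [hqdel, if_pos rfl, hn]; ring
      · intro j _ hj
        rw [hqdel, if_neg (Ne.symm hj), mul_zero]
      · intro h
        exact absurd (Finset.mem_univ i) h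
    have hPhi : ∀ θ ∈ Phi K B, θ y = 0 := by
      intro θ hθ
      rw [hdual θ hθ y]
      refine Finset.sum_eq_zero fun i _ => ?_
      rw [← hq, hqy]
      simp
    obtain ⟨M, hM1, hM⟩ : ∃ M : ℕ, 1 ≤ M ∧ (y : G) ^ M = 1 := by
      by_contra hcon
      push Not at hcon
      obtain ⟨θ, hθ, hne⟩ := exists_Phi_ne_zero (K := K) hB hfg ρ hρ y hcon
      exact hne (hPhi θ hθ)
    have hM' : y ^ M = 1 := Subtype.ext (by simpa using hM)
    have h1 : ψ (y ^ M) = 0 := by rw [hM']; exact add_one' ψ hψ
    rw [add_pow' ψ hψ, nsmul_eq_mul] at h1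
    have h2 : ψ y = 0 := by
      rcases mul_eq_zero.mp h1 with h3 | h3
      · exfalso
        have : M = 0 := by exact_mod_cast h3
        omega
      · exact h3
    rw [hval ψ hψ] at h2
    have hN' : (N : ℚ) ≠ 0 := by exact_mod_cast hN.ne'
    have h4 : (N : ℚ) * ψ x = (N : ℚ) * ∑ i, ψ (b i) * q i x := by
      rw [Finset.mul_sum]
      have h5 : ∑ i, (N : ℚ) * (ψ (b i) * q i x) = ∑ i, (n i : ℚ) * ψ (b i) := by
        refine Finset.sum_congr rfl fun i _ => ?_
        rw [hn]; ring
      rw [h5]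
      linarith
    exact mul_left_cancel₀ hN' h4
  have hfinal : (fun x => ((ψ x : ℚ) : K)) = ∑ i, ((ψ (b i) : ℚ) : K) • φ i := by
    funext x
    rw [Finset.sum_apply, key x]
    push_cast
    refine Finset.sum_congr rfl fun i _ => ?_
    rw [Pi.smul_apply, smul_eq_mul, hq]
  rw [hfinal]
  exact Submodule.sum_mem _ fun i _ => Submodule.smul_mem _ _ (hφ i)

end

end Pool.Agent.H56CQ
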