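import Pool.Agent.H56CQ.Euler

/-!
# Detection of elements of infinite order by representative functions of bounded degree
-/

set_option autoImplicit false

namespace Pool.Agent.H56CQ

open Finset

section Nil

variable {K : Type*} [Field K] {V : Type*} [AddCommGroup V] [Module K V]

open scoped IsMulCommutative in
theorem exists_nil_index [FiniteDimensional K V] (S : Set (Module.End K V))
    (hcomm : ∀ a ∈ S, ∀ b ∈ S, a * b = b * a) (hnil : ∀ a ∈ S, IsNilpotent a) :
    ∃ N : ℕ, ∀ l : List (Module.End K V), (∀ a ∈ l, a ∈ S) → l.length = N → l.prod = 0 := by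
  have hc := Algebra.isMulCommutative_adjoin K hcomm
  let R := Algebra.adjoin K S
  have hfd : FiniteDimensional K R := FiniteDimensional.finiteDimensional_subalgebra R
  have hnoeth : IsNoetherianRing R := isNoetherian_of_tower K inferInstance
  obtain ⟨N, hN⟩ := IsNoetherianRing.isNilpotent_nilradical R
  refine ⟨N, ?_⟩
  intro l hl hlen
  have key : ∀ l : List (Module.End K V), (∀ a ∈ l, a ∈ S) →
      ∃ r : R, r ∈ nilradical R ^ l.length ∧ (r : Module.End K V) = l.prod := by
    intro l
    induction l with
    | nil => intro _; exact ⟨1, by simp, by simp⟩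
    | cons a l ih =>
      intro h
      obtain ⟨r, hr, hr'⟩ := ih fun b hb => h b (List.mem_cons_of_mem _ hb)
      have ha : a ∈ S := h a List.mem_cons_self
      let a' : R := ⟨a, Algebra.subset_adjoin ha⟩
      have ha' : a' ∈ nilradical R := by
        rw [mem_nilradical]
        obtain ⟨k, hk⟩ := hnil a ha
        refine ⟨k, ?_⟩
        apply Subtype.ext
        simpa [a'] using hk
      refine ⟨a' * r, ?_, ?_⟩
      · rw [List.length_cons, pow_succ']
        exact Ideal.mul_mem_mul ha' hr
      · simp [a', hr']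
  obtain ⟨r, hr, hr'⟩ := key l hl
  rw [hlen, hN] at hr
  have : r = 0 := by simpa using hr
  rw [← hr', this]
  simp

end Nil

section Coeff

variable {G : Type*} {K : Type*} [Group G] [Field K]
variable {V : Type*} [AddCommGroup V] [Module K V] [FiniteDimensional K V]

theorem coeff_deg {B : Subgroup G} (hB : ∀ b ∈ B, ∀ g : G, b * g = g * b)
    (ρ : G →* Module.End K V) (hnil : ∀ b ∈ B, IsNilpotent (ρ b - 1)) (ξ : V →ₗ[K] K) (w : V) :
    ∃ N, Deg B N (fun g => ξ (ρ g w)) := by
  obtain ⟨N, hN⟩ := exists_nil_index (K := K) (V := V) {T | ∃ b ∈ B, T = ρ b - 1}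
    (by
      rintro _ ⟨b, hb, rfl⟩ _ ⟨c, hc, rfl⟩
      have : ρ b * ρ c = ρ c * ρ b := by rw [← map_mul, ← map_mul, hB b hb c]
      simp only [mul_sub, sub_mul, one_mul, mul_one, this]
      abel)
    (by rintro _ ⟨b, hb, rfl⟩; exact hnil b hb)
  have key : ∀ k ≤ N, ∀ l : List (Module.End K V),
      (∀ a ∈ l, a ∈ {T | ∃ b ∈ B, T = ρ b - 1}) → l.length = N - k →
      Deg B k (fun g => ξ (ρ g (l.prod w))) := by
    intro k
    induction k with
    | zero =>
      intro _ l hl hlen g
      rw [hN l hl (by simpa using hlen)]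
      simp
    | succ k ih =>
      intro hk l hl hlen b hb
      have h1 := ih (by omega) ((ρ b - 1) :: l)
        (by
          intro a ha
          rcases List.mem_cons.mp ha with rfl | ha
          · exact ⟨b, hb, rfl⟩
          · exact hl a ha)
        (by simp [hlen]; omega)
      refine h1.congr ?_
      intro g
      simp only [List.prod_cons, Module.End.mul_apply, LinearMap.sub_apply, Module.End.one_apply,
        map_sub, map_mul]
  refine ⟨N, ?_⟩
  have := key N le_rfl [] (by simp) (by simp)
  simpa using this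

/-- the conjugation representation on endomorphisms -/
def conjRep (ρ : G →* Module.End K V) : G →* Module.End K (Module.End K V) where
  toFun g := LinearMap.mulLeft K (ρ g) * LinearMap.mulRight K (ρ g⁻¹)
  map_one' := by
    ext T v
    simp
  map_mul' g h := by
    ext T v
    simp [Module.End.mul_apply, mul_assoc]

omit [FiniteDimensional K V] in
theorem conjRep_apply (ρ : G →* Module.End K V) (g : G) (T : Module.End K V) :
    conjRep ρ g T = ρ g * T * ρ g⁻¹ := by
  simp [conjRep, Module.End.mul_apply, mul_assoc]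

omit [FiniteDimensional K V] in
theorem conjRep_nil (ρ : G →* Module.End K V) (z : G) (μ : K)
    (h : IsNilpotent (ρ z - μ • (1 : Module.End K V))) : IsNilpotent (conjRep ρ z - 1) := by
  set n := ρ z - μ • (1 : Module.End K V) with hn
  have hz : ρ z = n + μ • (1 : Module.End K V) := by rw [hn]; abel
  have hinv : ρ z * ρ z⁻¹ = 1 := by rw [← map_mul]; simp
  have hinv' : ρ z⁻¹ * ρ z = 1 := by rw [← map_mul]; simp
  have h1 : conjRep ρ z - 1 =
      (LinearMap.mulLeft K n - LinearMap.mulRight K n) * LinearMap.mulRight K (ρ z⁻¹) := by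
    apply LinearMap.ext
    intro T
    rw [LinearMap.sub_apply, conjRep_apply, Module.End.mul_apply, LinearMap.sub_apply,
      LinearMap.mulRight_apply, LinearMap.mulLeft_apply, LinearMap.mulRight_apply,
      Module.End.one_apply]
    have e1 : ρ z * T * ρ z⁻¹ = n * (T * ρ z⁻¹) + μ • (T * ρ z⁻¹) := by
      rw [hz, add_mul, add_mul, mul_assoc, smul_mul_assoc, smul_mul_assoc, one_mul]
    have e2 : T = T * ρ z⁻¹ * n + μ • (T * ρ z⁻¹) := by
      have : T = T * ρ z⁻¹ * ρ z := by rw [mul_assoc, hinv', mul_one]
      conv_lhs => rw [this, hz]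
      rw [mul_add, mul_smul_comm, mul_one]
    have e3 : n * (T * ρ z⁻¹) + μ • (T * ρ z⁻¹) - (T * ρ z⁻¹ * n + μ • (T * ρ z⁻¹)) =
      n * (T * ρ z⁻¹) - T * ρ z⁻¹ * n := by abel
    rw [← e2] at e3
    rw [e1]
    exact e3
  rw [h1]
  have hnl : IsNilpotent (LinearMap.mulLeft K n) := (LinearMap.isNilpotent_mulLeft_iff K n).mpr h
  have hnr : IsNilpotent (LinearMap.mulRight K n) :=
    (LinearMap.isNilpotent_mulRight_iff K n).mpr h
  have hsub : IsNilpotent (LinearMap.mulLeft K n - LinearMap.mulRight K n) :=
    (LinearMap.commute_mulLeft_right n n).isNilpotent_sub hnl hnr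
  have hcomm : Commute (LinearMap.mulLeft K n - LinearMap.mulRight K n)
      (LinearMap.mulRight K (ρ z⁻¹)) := by
    have hnz : n * ρ z⁻¹ = ρ z⁻¹ * n := by
      rw [hn, sub_mul, mul_sub, hinv, hinv', smul_mul_assoc, mul_smul_comm, one_mul, mul_one]
    refine Commute.sub_left (LinearMap.commute_mulLeft_right n (ρ z⁻¹)) ?_
    apply LinearMap.ext
    intro T
    simp only [Module.End.mul_apply, LinearMap.mulRight_apply, mul_assoc, hnz]
  exact hcomm.isNilpotent_mul_right hsub

omit [FiniteDimensional K V] in
/-- A nilpotent operator commuting with all operators is zero. -/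
theorem central_nil_eq_zero (n : Module.End K V) (hn : IsNilpotent n)
    (hc : ∀ T : Module.End K V, n * T = T * n) : n = 0 := by
  by_contra hne
  obtain ⟨v, hv⟩ : ∃ v, n v ≠ 0 := by
    by_contra hcon
    push Not at hcon
    exact hne (LinearMap.ext fun v => by simpa using hcon v)
  obtain ⟨ξ, hξ⟩ : ∃ ξ : V →ₗ[K] K, ξ (n v) = 1 := by
    obtain ⟨ξ, hξ⟩ : ∃ ξ : Module.Dual K V, ξ (n v) ≠ 0 := by
      by_contra hcon
      push Not at hcon
      exact hv ((Module.forall_dual_apply_eq_zero_iff K (n v)).mp hcon)
    exact ⟨(ξ (n v))⁻¹ • ξ, by simp [hξ]⟩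
  let T : Module.End K V := LinearMap.smulRight ξ v
  have h1 : n (T (n v)) = T (n (n v)) := by
    have := congrArg (fun S : Module.End K V => S (n v)) (hc T)
    simpa [Module.End.mul_apply] using this
  have h2 : n v = ξ (n (n v)) • v := by
    simpa [T, hξ] using h1
  obtain ⟨k, hk⟩ := hn
  set c := ξ (n (n v)) with hcdef
  have hpow : ∀ j, (n ^ j) v = c ^ j • v := by
    intro j
    induction j with
    | zero => simp
    | succ j ih =>
      rw [pow_succ', Module.End.mul_apply, ih, map_smul, h2, smul_smul, pow_succ]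
  have h3 := hpow k
  rw [hk] at h3
  have hv0 : v ≠ 0 := by
    rintro rfl
    simp at hv
  have hc0 : c ^ k = 0 := by
    by_contra hcon
    have : c ^ k • v ≠ 0 := smul_ne_zero hcon hv0
    exact this (by simpa using h3.symm)
  have hc1 : c = 0 := by
    by_contra hcon
    exact pow_ne_zero k hcon hc0
  apply hv
  rw [h2, hc1, zero_smul]

end Coeff

section Torsion

/-- An element killed by every homomorphism to the rationals is torsion. -/
theorem torsion_of_hom_rat {A : Type*} [AddCommGroup A] (x : A)
    (h : ∀ ν : A →+ ℚ, ν x = 0) : ∃ M : ℕ, 1 ≤ M ∧ M • x = 0 := by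
  by_contra hcon
  push Not at hcon
  let f : ℤ →+ A := (zmultiplesHom A) x
  have hf : Function.Injective f := by
    rw [injective_iff_map_eq_zero]
    intro n hn
    by_contra hn0
    have hn' : n • x = 0 := by simpa [f] using hn
    have h1 : n.natAbs • x = 0 := by
      rcases Int.natAbs_eq n with h2 | h2
      · rw [h2] at hn'
        simpa using hn'
      · rw [h2] at hn'
        simpa using hn'
    exact hcon n.natAbs (Int.natAbs_pos.mpr hn0) h1
  have hQ : Module.Baer ℤ ℚ := Module.Baer.of_divisible ℚ
  obtain ⟨ν, hν⟩ := Module.Baer.extension_property_addMonoidHom hQ f hf (Int.castAddHom ℚ)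
  have h1 := h ν
  have h2 : ν (f 1) = 1 := by
    have := congrArg (fun φ : ℤ →+ ℚ => φ 1) hν
    simpa using this
  have h3 : f 1 = x := by simp [f]
  rw [h3, h1] at h2
  exact zero_ne_one h2

end Torsion

end Pool.Agent.H56CQ
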