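import Pool.Agent.H56CQ.Detect

/-!
# An element of `B` killed by `Phi` acts with finite order in every representation
-/

set_option autoImplicit false

namespace Pool.Agent.H56CQ

open Finset

section Restrict

variable {G : Type*} {K : Type*} [Group G] [Field K]
variable {V : Type*} [AddCommGroup V] [Module K V]

/-- restriction of a representation to an invariant subspace -/
def restrictRep (ρ : G →* Module.End K V) (W : Submodule K V)
    (hW : ∀ g, ∀ w ∈ W, ρ g w ∈ W) : G →* Module.End K W where
  toFun g := (ρ g).restrict (hW g)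
  map_one' := by
    ext w
    simp
  map_mul' g h := by
    ext w
    simp

theorem restrictRep_apply (ρ : G →* Module.End K V) (W : Submodule K V)
    (hW : ∀ g, ∀ w ∈ W, ρ g w ∈ W) (g : G) (w : W) :
    ((restrictRep ρ W hW g w : W) : V) = ρ g w := rfl

theorem restrictRep_pow (ρ : G →* Module.End K V) (W : Submodule K V)
    (hW : ∀ g, ∀ w ∈ W, ρ g w ∈ W) (g : G) (n : ℕ) (w : W) :
    (((restrictRep ρ W hW g) ^ n) w : V) = ((ρ g) ^ n) w := by
  rw [← map_pow, ← map_pow]
  rfl

end Restrict

section Single

variable {G : Type*} {K : Type*} [Group G] [Field K] [CharZero K]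
variable {V : Type*} [AddCommGroup V] [Module K V] [FiniteDimensional K V]

/-- determinant of an element of the group as a unit -/
noncomputable def detUnit (ρ : G →* Module.End K V) : G →* Kˣ :=
  (LinearMap.det.comp ρ).toHomUnits

omit [CharZero K] in
theorem detUnit_val (ρ : G →* Module.End K V) (g : G) :
    ((detUnit ρ g : Kˣ) : K) = LinearMap.det (ρ g) := rfl

theorem detect_single [Nontrivial V] {B : Subgroup G} (hB : ∀ b ∈ B, ∀ g : G, b * g = g * b)
    (ρ : G →* Module.End K V) (a : B)
    (H : ∀ (k : ℕ) (f : G → K), IsRep f → Deg B k f → ∀ g, f (g * a) = f g)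
    (hsingle : ∀ z ∈ B, ∃ μ : K, IsNilpotent (ρ z - μ • (1 : Module.End K V))) :
    ∃ N : ℕ, 1 ≤ N ∧ (ρ a) ^ N = 1 := by
  -- step 1: `ρ a` commutes with everything
  have hcomm : ∀ T : Module.End K V, ρ a * T = T * ρ a := by
    intro T
    have hfix : conjRep ρ a T = T := by
      rw [← sub_eq_zero, ← Module.forall_dual_apply_eq_zero_iff K]
      intro ξ
      obtain ⟨N, hN⟩ := coeff_deg hB (conjRep ρ)
        (fun b hb => by
          obtain ⟨μ, hμ⟩ := hsingle b hb
          exact conjRep_nil ρ b μ hμ) ξ T
      have hrep : IsRep (fun g : G => ξ (conjRep ρ g T)) :=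
        IsRep.coeff (fun g => conjRep ρ g) (fun x y => by rw [map_mul]; rfl) ξ T
      have h1 := H N _ hrep hN 1
      beta_reduce at h1
      rw [one_mul, map_one] at h1
      rw [map_sub, h1]
      simp
    rw [conjRep_apply] at hfix
    have hinv' : ρ (a : G)⁻¹ * ρ a = 1 := by rw [← map_mul]; simp
    calc ρ a * T = ρ a * T * (ρ (a : G)⁻¹ * ρ a) := by rw [hinv', mul_one]
      _ = (ρ a * T * ρ (a : G)⁻¹) * ρ a := by simp only [mul_assoc]
      _ = T * ρ a := by rw [hfix]
  obtain ⟨μ, hμ⟩ := hsingle a a.2
  have hscal : ρ a = μ • (1 : Module.End K V) := by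
    have := central_nil_eq_zero _ hμ (by
      intro T
      rw [sub_mul, mul_sub, hcomm, smul_mul_assoc, mul_smul_comm, one_mul, mul_one])
    exact sub_eq_zero.mp this
  -- step 2: the determinant is torsion
  have hdet : ∀ ν : Additive Kˣ →+ ℚ, ν (Additive.ofMul (detUnit ρ a)) = 0 := by
    intro ν
    let s : G → K := fun g => ((ν (Additive.ofMul (detUnit ρ g)) : ℚ) : K)
    have hs : ∀ x y, s (x * y) = s x + s y := by
      intro x y
      simp only [s, map_mul, ofMul_mul, map_add, Rat.cast_add]
    have hrep : IsRep s := IsRep.additive hs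
    have hdeg : Deg B 2 s := by
      intro b _ c _ g
      simp only [hs]
      ring
    have h1 := H 2 s hrep hdeg 1
    rw [hs] at h1
    have h2 : s a = 0 := by simpa using h1
    have h3 : ((ν (Additive.ofMul (detUnit ρ a)) : ℚ) : K) = 0 := h2
    exact_mod_cast h3
  obtain ⟨M, hM1, hM⟩ := torsion_of_hom_rat _ hdet
  have hM' : (detUnit ρ a) ^ M = 1 := by
    have := congrArg Additive.toMul hM
    simpa using this
  have hM2 : (LinearMap.det (ρ a)) ^ M = 1 := by
    have := congrArg (fun u : Kˣ => (u : K)) hM'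
    simpa [detUnit_val] using this
  rw [hscal, LinearMap.det_smul, map_one, mul_one, ← pow_mul] at hM2
  refine ⟨Module.finrank K V * M, ?_, ?_⟩
  · exact Nat.mul_pos Module.finrank_pos hM1
  · rw [hscal, smul_pow, hM2, one_pow, one_smul]

end Single

section Main

variable {G : Type*} {K : Type*} [Group G] [Field K] [CharZero K] [IsAlgClosed K]

theorem detect {B : Subgroup G} (hB : ∀ b ∈ B, ∀ g : G, b * g = g * b) (a : B)
    (H : ∀ (k : ℕ) (f : G → K), IsRep f → Deg B k f → ∀ g, f (g * a) = f g) (n : ℕ) :
    ∀ (V : Type*) [AddCommGroup V] [Module K V] [FiniteDimensional K V],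
      Module.finrank K V ≤ n → ∀ ρ : G →* Module.End K V, ∃ N : ℕ, 1 ≤ N ∧ (ρ a) ^ N = 1 := by
  induction n with
  | zero =>
    intro V _ _ _ hn ρ
    have hsub : Subsingleton V := Module.finrank_zero_iff.mp (Nat.le_zero.mp hn)
    refine ⟨1, le_rfl, ?_⟩
    ext v
    exact Subsingleton.elim _ _
  | succ n ih =>
    intro V _ _ _ hn ρ
    by_cases hsub : Subsingleton V
    · refine ⟨1, le_rfl, ?_⟩
      ext v
      exact Subsingleton.elim _ _
    have hnt : Nontrivial V := not_subsingleton_iff_nontrivial.mp hsub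
    by_cases hcase : ∃ z ∈ B, ∃ (μ : K) (k : ℕ),
        IsCompl (LinearMap.ker ((ρ z - μ • (1 : Module.End K V)) ^ k))
          (LinearMap.range ((ρ z - μ • (1 : Module.End K V)) ^ k)) ∧
        LinearMap.ker ((ρ z - μ • (1 : Module.End K V)) ^ k) ≠ ⊥ ∧
        LinearMap.ker ((ρ z - μ • (1 : Module.End K V)) ^ k) ≠ ⊤
    · obtain ⟨z, hz, μ, k, hc, hbot, htop⟩ := hcase
      set F := (ρ z - μ • (1 : Module.End K V)) ^ k with hF
      have hcommF : ∀ g, ρ g * F = F * ρ g := by
        intro g
        have h1 : Commute (ρ g) (ρ z - μ • (1 : Module.End K V)) := by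
          refine Commute.sub_right ?_ ?_
          · change ρ g * ρ z = ρ z * ρ g
            rw [← map_mul, ← map_mul, hB z hz g]
          · exact (Commute.one_right _).smul_right μ
        exact (h1.pow_right k).eq
      have hW1 : ∀ g, ∀ w ∈ LinearMap.ker F, ρ g w ∈ LinearMap.ker F := by
        intro g w hw
        rw [LinearMap.mem_ker] at hw ⊢
        have := congrArg (fun S : Module.End K V => S w) (hcommF g)
        simp only [Module.End.mul_apply] at this
        rw [← this, hw, map_zero]
      have hW2 : ∀ g, ∀ w ∈ LinearMap.range F, ρ g w ∈ LinearMap.range F := by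
        rintro g _ ⟨v, rfl⟩
        refine ⟨ρ g v, ?_⟩
        have := congrArg (fun S : Module.End K V => S v) (hcommF g)
        simp only [Module.End.mul_apply] at this
        exact this.symm
      have hrk := Submodule.finrank_add_eq_of_isCompl hc
      have h1pos : 0 < Module.finrank K (LinearMap.ker F) := by
        rw [Nat.pos_iff_ne_zero]
        intro h0
        exact hbot (Submodule.finrank_eq_zero.mp h0)
      have h2pos : 0 < Module.finrank K (LinearMap.range F) := by
        rw [Nat.pos_iff_ne_zero]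
        intro h0
        have h3 : LinearMap.range F = ⊥ := Submodule.finrank_eq_zero.mp h0
        rw [h3] at hc
        exact htop (by simpa using hc.sup_eq_top)
      obtain ⟨N1, hN1, h1⟩ := ih (LinearMap.ker F) (by omega) (restrictRep ρ _ hW1)
      obtain ⟨N2, hN2, h2⟩ := ih (LinearMap.range F) (by omega) (restrictRep ρ _ hW2)
      refine ⟨N1 * N2, Nat.mul_pos hN1 hN2, ?_⟩
      have e1 : ∀ w ∈ LinearMap.ker F, ((ρ a) ^ (N1 * N2)) w = w := by
        intro w hw
        have h3 : ((restrictRep ρ _ hW1 a) ^ (N1 * N2)) = 1 := by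
          rw [pow_mul, h1, one_pow]
        have h4 := restrictRep_pow ρ _ hW1 (a : G) (N1 * N2) ⟨w, hw⟩
        rw [h3] at h4
        simpa using h4.symm
      have e2 : ∀ w ∈ LinearMap.range F, ((ρ a) ^ (N1 * N2)) w = w := by
        intro w hw
        have h3 : ((restrictRep ρ _ hW2 a) ^ (N1 * N2)) = 1 := by
          rw [mul_comm, pow_mul, h2, one_pow]
        have h4 := restrictRep_pow ρ _ hW2 (a : G) (N1 * N2) ⟨w, hw⟩
        rw [h3] at h4
        simpa using h4.symm
      apply LinearMap.ext
      intro v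
      have hv : v ∈ LinearMap.ker F ⊔ LinearMap.range F := by
        rw [hc.sup_eq_top]; exact Submodule.mem_top
      obtain ⟨x, hx, y, hy, rfl⟩ := Submodule.mem_sup.mp hv
      rw [map_add, e1 x hx, e2 y hy]
      rfl
    · push Not at hcase
      refine detect_single hB ρ a H ?_
      intro z hz
      obtain ⟨μ, hμ⟩ := Module.End.exists_eigenvalue (ρ z)
      refine ⟨μ, ?_⟩
      set f := ρ z - μ • (1 : Module.End K V) with hf
      obtain ⟨k, hk, hk1⟩ := ((LinearMap.eventually_isCompl_ker_pow_range_pow f).and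
        (Filter.eventually_ge_atTop 1)).exists
      have hbot : LinearMap.ker (f ^ k) ≠ ⊥ := by
        obtain ⟨v, hv⟩ := hμ.exists_hasEigenvector
        have hfv : f v = 0 := by
          rw [hf, LinearMap.sub_apply, hv.apply_eq_smul]
          simp
        intro hb
        have : v ∈ LinearMap.ker (f ^ k) := by
          obtain ⟨j, rfl⟩ : ∃ j, k = j + 1 := ⟨k - 1, by omega⟩
          rw [LinearMap.mem_ker, pow_succ, Module.End.mul_apply, hfv, map_zero]
        rw [hb, Submodule.mem_bot] at this
        exact hv.2 this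
      have htop := hcase z hz μ k hk hbot
      exact ⟨k, LinearMap.ker_eq_top.mp htop⟩

/-- In a group with a finite dimensional representation with torsion kernel in characteristic zero, the
functionals in `Phi` separate every element of infinite order of the central subgroup from the
identity. -/
theorem exists_Phi_ne_zero {B : Subgroup G} (hB : ∀ b ∈ B, ∀ g : G, b * g = g * b) (hfg : B.FG)
    {V : Type*} [AddCommGroup V] [Module K V] [FiniteDimensional K V]
    (ρ : G →* Module.End K V) (hρ : ∀ g, ρ g = 1 → ∃ N : ℕ, 1 ≤ N ∧ g ^ N = 1) (a : B)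
    (ha : ∀ N : ℕ, 1 ≤ N → (a : G) ^ N ≠ 1) : ∃ φ ∈ Phi K B, φ a ≠ 0 := by
  by_contra hcon
  push Not at hcon
  obtain ⟨N, hN, h⟩ := detect hB a (inv_of_ker hB hfg a hcon) _ V le_rfl ρ
  rw [← map_pow] at h
  obtain ⟨M, hM, h2⟩ := hρ _ h
  refine ha (N * M) (Nat.mul_pos hN hM) ?_
  rw [pow_mul, h2]

end Main

end Pool.Agent.H56CQ
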