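import Pool.Agent.H56CQ.Rep

/-!
# Representative functions of bounded degree are invariant under the kernel of `Phi`
-/

set_option autoImplicit false

namespace Pool.Agent.H56CQ

open Finset

section Dual

variable {X : Type*} {K : Type*} [Field K]

/-- A finite dimensional space of functions has a basis dual to evaluation at finitely many
points. -/
theorem exists_dual_points (n : ℕ) : ∀ (W : Submodule K (X → K)), FiniteDimensional K W →
    Module.finrank K W ≤ n →
    ∃ (m : ℕ) (b : Fin m → X) (φ : Fin m → (X → K)), (∀ i, φ i ∈ W) ∧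
      (∀ i j, φ i (b j) = if i = j then 1 else 0) ∧
      ∀ ψ ∈ W, ∀ x, ψ x = ∑ i, ψ (b i) * φ i x := by
  induction n with
  | zero =>
    intro W hW hn
    have h0 : W = ⊥ := by
      have := Submodule.finrank_eq_zero.mp (Nat.le_zero.mp hn)
      exact this
    refine ⟨0, Fin.elim0, Fin.elim0, fun i => i.elim0, fun i => i.elim0, ?_⟩
    intro ψ hψ x
    rw [h0, Submodule.mem_bot] at hψ
    simp [hψ]
  | succ n ih =>
    intro W hW hn
    by_cases h0 : W = ⊥
    · refine ⟨0, Fin.elim0, Fin.elim0, fun i => i.elim0, fun i => i.elim0, ?_⟩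
      intro ψ hψ x
      rw [h0, Submodule.mem_bot] at hψ
      simp [hψ]
    obtain ⟨φ, hφ, hφ0⟩ := Submodule.exists_mem_ne_zero_of_ne_bot h0
    obtain ⟨x0, hx0⟩ : ∃ x, φ x ≠ 0 := by
      by_contra hcon
      push Not at hcon
      exact hφ0 (funext hcon)
    let W' : Submodule K (X → K) := W ⊓ LinearMap.ker (LinearMap.proj x0 : (X → K) →ₗ[K] K)
    have hlt : W' < W := by
      refine lt_of_le_of_ne inf_le_left ?_
      intro heq
      have : φ ∈ W' := heq ▸ hφ
      exact hx0 (by simpa [W'] using this.2)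
    have hfin' : FiniteDimensional K W' := Submodule.finiteDimensional_of_le inf_le_left
    have hrk : Module.finrank K W' ≤ n := by
      have := Submodule.finrank_lt_finrank_of_lt hlt
      omega
    obtain ⟨m, b, θ, h1, h2, h3⟩ := ih W' hfin' hrk
    have hθ0 : ∀ i, θ i x0 = 0 := by
      intro i
      have := (h1 i).2
      simpa using this
    let φ0 : X → K := fun x => (φ x0)⁻¹ * φ x - ∑ i, ((φ x0)⁻¹ * φ (b i)) * θ i x
    have hφ0W : φ0 ∈ W := by
      have : φ0 = (φ x0)⁻¹ • φ - ∑ i, ((φ x0)⁻¹ * φ (b i)) • θ i := by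
        funext x
        simp [φ0, Finset.sum_apply]
      rw [this]
      exact W.sub_mem (W.smul_mem _ hφ) (Submodule.sum_mem _ fun i _ => W.smul_mem _ (h1 i).1)
    have hφ0x : φ0 x0 = 1 := by
      simp [φ0, hθ0, hx0]
    have hφ0b : ∀ j, φ0 (b j) = 0 := by
      intro j
      simp [φ0, h2]
    refine ⟨m + 1, Fin.cons x0 b, Fin.cons φ0 θ, ?_, ?_, ?_⟩
    · intro i
      refine Fin.cases ?_ (fun j => ?_) i
      · simpa using hφ0W
      · simpa using (h1 j).1
    · intro i j
      refine Fin.cases ?_ (fun i' => ?_) i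
      · refine Fin.cases ?_ (fun j' => ?_) j
        · simp [hφ0x]
        · simp [hφ0b, (Fin.succ_ne_zero j').symm]
      · refine Fin.cases ?_ (fun j' => ?_) j
        · simp [hθ0, Fin.succ_ne_zero]
        · simp [h2, Fin.succ_inj]
    · intro ψ hψ x
      let ψ' : X → K := fun x => ψ x - ψ x0 * φ0 x
      have hψ' : ψ' ∈ W' := by
        refine ⟨?_, ?_⟩
        · have : ψ' = ψ - ψ x0 • φ0 := by funext x; simp [ψ']
          rw [this]
          exact W.sub_mem hψ (W.smul_mem _ hφ0W)
        · simp [ψ', hφ0x]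
      have h4 := h3 ψ' hψ' x
      rw [Fin.sum_univ_succ]
      simp only [Fin.cons_zero, Fin.cons_succ]
      have h5 : ∀ i, ψ' (b i) = ψ (b i) := by
        intro i
        simp [ψ', hφ0b]
      simp only [h5] at h4
      have h6 : ψ x = ψ x0 * φ0 x + ψ' x := by simp [ψ']
      rw [h6, h4]

end Dual

section Euler

variable {G : Type*} {K : Type*} [Group G] [Field K]

theorem Phi_finite (B : Subgroup G) (hfg : B.FG) : FiniteDimensional K (Phi K B) := by
  classical
  obtain ⟨S, hS⟩ := hfg
  have hmem : ∀ x ∈ S, x ∈ B := fun x hx => hS ▸ Subgroup.subset_closure hx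
  let ev : Phi K B →ₗ[K] (S → K) :=
    { toFun := fun φ x => (φ : B → K) ⟨x, hmem x x.2⟩
      map_add' := fun _ _ => rfl
      map_smul' := fun _ _ => rfl }
  refine Module.Finite.of_injective ev ?_
  rw [← LinearMap.ker_eq_bot, LinearMap.ker_eq_bot']
  rintro ⟨φ, hφ⟩ h0
  apply Subtype.ext
  funext b
  have hmul := Phi_mul hφ
  have hone : φ 1 = 0 := by
    have := hmul 1 1
    simpa using this
  obtain ⟨b, hb⟩ := b
  have hb' : b ∈ Subgroup.closure (S : Set G) := by rw [hS]; exact hb
  suffices h : ∀ (x : G) (hx : x ∈ Subgroup.closure (S : Set G)), φ ⟨x, hS ▸ hx⟩ = 0 from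
    h b hb'
  intro x hx
  induction hx using Subgroup.closure_induction with
  | mem x hx =>
    have := congrFun h0 ⟨x, hx⟩
    exact this
  | one => exact hone
  | mul x y hx hy h1 h2 =>
    have := hmul ⟨x, hS ▸ hx⟩ ⟨y, hS ▸ hy⟩
    rw [h1, h2, add_zero] at this
    exact this
  | inv x hx h1 =>
    have := hmul ⟨x, hS ▸ hx⟩ ⟨x⁻¹, hS ▸ Subgroup.inv_mem _ hx⟩
    have h2 : (⟨x, hS ▸ hx⟩ : B) * ⟨x⁻¹, hS ▸ Subgroup.inv_mem _ hx⟩ = 1 := by
      apply Subtype.ext
      simp
    rw [h2, hone, h1, zero_add] at this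
    exact this.symm

variable {B : Subgroup G}

theorem euler_one (hB : ∀ b ∈ B, ∀ g : G, b * g = g * b) {m : ℕ} {b : Fin m → B}
    {φ : Fin m → (B → K)}
    (hdual : ∀ ψ ∈ Phi K B, ∀ x, ψ x = ∑ i, ψ (b i) * φ i x) (k : ℕ) :
    ∀ f : G → K, IsRep f → Deg B (k + 2) f → ∀ c : B,
      Deg B k (fun x => (f (x * c) - f x) - ∑ i, φ i c * (f (x * b i) - f x)) := by
  induction k with
  | zero =>
    intro f hf hd c x
    have h1 := hdual _ (hopf hB hf hd x) c
    beta_reduce
    rw [h1]
    rw [sub_eq_zero]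
    exact Finset.sum_congr rfl fun i _ => mul_comm _ _
  | succ k ih =>
    intro f hf hd c d hd'
    have hrep : IsRep (fun x => f (x * d) - f x) := (hf.right d).sub hf
    have h1 := ih _ hrep (hd d hd') c
    refine h1.congr ?_
    intro x
    have e1 : ∀ y : B, x * (y : G) * d = x * d * (y : G) := by
      intro y
      rw [mul_assoc, mul_assoc, hB d hd' y]
    simp only [e1]
    rw [Finset.sum_congr rfl (fun i _ => by
      rw [show f (x * d * ↑(b i)) - f (x * ↑(b i)) - (f (x * d) - f x) =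
        (f (x * d * ↑(b i)) - f (x * d)) - (f (x * ↑(b i)) - f x) by ring, mul_sub])]
    rw [Finset.sum_sub_distrib]
    ring

theorem euler_two (hB : ∀ b ∈ B, ∀ g : G, b * g = g * b) {m : ℕ} {b : Fin m → B}
    {φ : Fin m → (B → K)}
    (hdual : ∀ ψ ∈ Phi K B, ∀ x, ψ x = ∑ i, ψ (b i) * φ i x)
    {s : Fin m → (G → K)} (hs : ∀ i (g : G) (c : B), s i (g * c) = s i g + φ i c) (k : ℕ) :
    ∀ f : G → K, IsRep f → Deg B (k + 1) f →
      Deg B k (fun x => (k : K) * f x - ∑ i, s i x * (f (x * b i) - f x)) := by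
  induction k with
  | zero =>
    intro f _ hd x
    have h1 : ∀ i, f (x * b i) - f x = 0 := by
      intro i
      exact hd _ (b i).2 x
    simp [h1]
  | succ k ih =>
    intro f hf hd c hc
    have hrep : IsRep (fun x => f (x * c) - f x) := (hf.right c).sub hf
    have h1 := ih _ hrep (hd c hc)
    have h2 := euler_one hB hdual k f hf hd ⟨c, hc⟩
    have h3 : Deg B k (fun x => ∑ i, φ i ⟨c, hc⟩ *
        ((f (x * b i * c) - f (x * b i)) - (f (x * c) - f x))) := by
      refine Deg.sum _ fun i _ => Deg.smul _ ?_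
      have h4 := hd c hc (b i) (b i).2
      exact h4
    refine ((h1.add h2).sub h3).congr ?_
    intro x
    have e1 : ∀ i, x * (b i : G) * c = x * c * (b i : G) := by
      intro i
      rw [mul_assoc, mul_assoc, hB c hc (b i)]
    have e2 : ∀ i, s i (x * c) = s i x + φ i ⟨c, hc⟩ := fun i => hs i x ⟨c, hc⟩
    simp only [e1, e2]
    have e3 : ∑ i, (s i x + φ i ⟨c, hc⟩) * (f (x * c * ↑(b i)) - f (x * c)) =
        ∑ i, s i x * (f (x * ↑(b i)) - f x)
        + ∑ i, s i x * (f (x * c * ↑(b i)) - f (x * ↑(b i)) - (f (x * c) - f x))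
        + ∑ i, φ i ⟨c, hc⟩ * (f (x * ↑(b i)) - f x)
        + ∑ i, φ i ⟨c, hc⟩ * (f (x * c * ↑(b i)) - f (x * ↑(b i)) - (f (x * c) - f x)) := by
      rw [← Finset.sum_add_distrib, ← Finset.sum_add_distrib, ← Finset.sum_add_distrib]
      exact Finset.sum_congr rfl fun i _ => by ring
    rw [e3]
    push_cast
    ring

/-- Representative functions of bounded degree along `B` are invariant under every element of
`B` on which `Phi` vanishes. -/
theorem inv_of_ker [CharZero K] (hB : ∀ b ∈ B, ∀ g : G, b * g = g * b) (hfg : B.FG) (a : B)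
    (ha : ∀ φ ∈ Phi K B, φ a = 0) (k : ℕ) :
    ∀ f : G → K, IsRep f → Deg B k f → ∀ g : G, f (g * a) = f g := by
  have hfin := Phi_finite (K := K) B hfg
  obtain ⟨m, b, φ, hφ, -, hdual⟩ := exists_dual_points (K := K) _ (Phi K B) hfin le_rfl
  choose s hs1 hs2 using hφ
  have hsa : ∀ i (g : G), s i (g * a) = s i g := by
    intro i g
    rw [hs2 i g a, ha (φ i) ⟨s i, hs1 i, hs2 i⟩, add_zero]
  induction k with
  | zero =>
    intro f _ hd g
    rw [hd, hd]
  | succ k ih =>
    intro f hf hd g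
    rcases Nat.eq_zero_or_pos k with hk | hk
    · subst hk
      exact deg_one_iff.mp hd _ a.2 g
    · have h1 := euler_two hB hdual hs2 k f hf hd
      have hdiff : ∀ i, IsRep (fun x => f (x * b i) - f x) := fun i => (hf.right (b i : G)).sub hf
      have hrep : IsRep (fun x => (k : K) * f x - ∑ i, s i x * (f (x * b i) - f x)) :=
        (hf.smul _).sub (IsRep.sum _ fun i _ => (hs1 i).mul (hdiff i))
      have h2 := ih _ hrep h1 g
      have h3 : ∀ i, f (g * a * b i) - f (g * a) = f (g * b i) - f g := by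
        intro i
        exact ih _ (hdiff i) (hd _ (b i).2) g
      simp only [hsa, h3] at h2
      have h4 : (k : K) * f (g * a) = (k : K) * f g := by
        linear_combination h2
      exact mul_left_cancel₀ (Nat.cast_ne_zero.mpr hk.ne') h4

end Euler

end Pool.Agent.H56CQ
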