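import Pool.Agent.H56CQ.LinKer

/-!
# Induced representations and kernels
-/

set_option autoImplicit false

namespace Pool.Agent.H56CQ

section

variable {G : Type*} [Group G] {K : Type*} [Field K]

/-- Induction from a subgroup of finite index: a normal subgroup of `G` which is the kernel of a
representation of `H` is the kernel of a representation of `G`. -/
theorem linKer_induced {H N : Subgroup G} [H.FiniteIndex] [N.Normal] (hNH : N ≤ H)
    (h : LinKer K (N.subgroupOf H)) : LinKer K N := by
  classical
  obtain ⟨n, ρ, hρ⟩ := h.exists_rep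
  -- the induced module
  let W : Submodule K (G → Fin n → K) :=
    { carrier := {f | ∀ (g : G) (h : H), f (g * h) = ρ h⁻¹ (f g)}
      add_mem' := by
        intro f f' hf hf' g h
        rw [Pi.add_apply, Pi.add_apply, hf, hf', map_add]
      zero_mem' := by
        intro g h
        rw [Pi.zero_apply, Pi.zero_apply, map_zero]
      smul_mem' := by
        intro c f hf g h
        rw [Pi.smul_apply, Pi.smul_apply, hf, map_smul] }
  have hW : ∀ f ∈ W, ∀ (g : G) (h : H), f (g * h) = ρ h⁻¹ (f g) := fun f hf => hf
  -- finite dimensionality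
  let ev : W →ₗ[K] ((G ⧸ H) → Fin n → K) :=
    { toFun := fun f q => f.1 q.out
      map_add' := fun _ _ => rfl
      map_smul' := fun _ _ => rfl }
  have hev : Function.Injective ev := by
    rw [← LinearMap.ker_eq_bot, LinearMap.ker_eq_bot']
    rintro ⟨f, hf⟩ h0
    apply Subtype.ext
    funext g
    have h1 : f (Quotient.out (g : G ⧸ H)) = 0 := congrFun h0 (g : G ⧸ H)
    obtain ⟨h, hh⟩ := QuotientGroup.mk_out_eq_mul H g
    have h2 : g = Quotient.out (g : G ⧸ H) * ((h⁻¹ : H) : G) := by
      rw [hh]
      simp
    change f g = 0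
    rw [h2, hW f hf, h1, map_zero]
  have hfin : Finite (G ⧸ H) := inferInstance
  have : FiniteDimensional K W := Module.Finite.of_injective ev hev
  -- the induced representation
  let σ : G →* Module.End K W :=
    { toFun := fun x =>
        { toFun := fun f => ⟨fun g => f.1 (x⁻¹ * g), by
            intro g h
            change f.1 (x⁻¹ * (g * h)) = _
            rw [← mul_assoc, hW f.1 f.2]⟩
          map_add' := fun _ _ => rfl
          map_smul' := fun _ _ => rfl }
      map_one' := by
        apply LinearMap.ext
        rintro ⟨f, hf⟩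
        apply Subtype.ext
        funext g
        change f (1⁻¹ * g) = f g
        simp
      map_mul' := by
        intro x y
        apply LinearMap.ext
        rintro ⟨f, hf⟩
        apply Subtype.ext
        funext g
        change f ((x * y)⁻¹ * g) = f (y⁻¹ * (x⁻¹ * g))
        rw [mul_inv_rev, mul_assoc] }
  let M : Subgroup G := σ.toHomUnits.ker
  have hM : ∀ g, σ g = 1 ↔ g ∈ M := by
    intro g
    rw [MonoidHom.mem_ker]
    constructor
    · intro h
      apply Units.ext
      exact h
    · intro h
      exact congrArg (fun u : (Module.End K W)ˣ => (u : Module.End K W)) h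
  have hLM : LinKer K M := linKer_of_rep σ hM
  have hcore : LinKer K H.normalCore := linKer_of_finiteIndex _
  have hinf := hLM.inf hcore
  have heq : M ⊓ H.normalCore = N := by
    apply le_antisymm
    · intro x hx
      obtain ⟨hx1, hx2⟩ := Subgroup.mem_inf.mp hx
      have hxH : x ∈ H := H.normalCore_le hx2
      have hσ := (hM x).mpr hx1
      -- test functions
      have key : ∀ v : Fin n → K, ρ (⟨x, hxH⟩ : H) v = v := by
        intro v
        let f : G → Fin n → K := fun g => if hg : g ∈ H then ρ (⟨g, hg⟩ : H)⁻¹ v else 0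
        have hf : f ∈ W := by
          intro g h
          by_cases hg : g ∈ H
          · have hgh : g * (h : G) ∈ H := H.mul_mem hg h.2
            have e1 : f (g * h) = ρ (⟨g * h, hgh⟩ : H)⁻¹ v := dif_pos hgh
            have e2 : f g = ρ (⟨g, hg⟩ : H)⁻¹ v := dif_pos hg
            have e3 : (⟨g * h, hgh⟩ : H) = ⟨g, hg⟩ * h := rfl
            rw [e1, e2, e3, mul_inv_rev, map_mul]
            rfl
          · have hgh : g * (h : G) ∉ H := fun hc => hg ((H.mul_mem_cancel_right h.2).mp hc)
            have e1 : f (g * h) = 0 := dif_neg hgh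
            have e2 : f g = 0 := dif_neg hg
            rw [e1, e2, map_zero]
        have h1 := congrArg (fun F : Module.End K W => (F ⟨f, hf⟩).1 x) hσ
        have h2 : f (x⁻¹ * x) = f x := h1
        rw [inv_mul_cancel] at h2
        have e1 : f 1 = v := by
          have : f 1 = ρ (⟨1, H.one_mem⟩ : H)⁻¹ v := dif_pos H.one_mem
          rw [this]
          have e3 : (⟨1, H.one_mem⟩ : H)⁻¹ = 1 := by
            apply Subtype.ext
            simp
          rw [e3, map_one]
          rfl
        have e2 : f x = ρ (⟨x, hxH⟩ : H)⁻¹ v := dif_pos hxH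
        rw [e1, e2] at h2
        have h3 := congrArg (ρ (⟨x, hxH⟩ : H)) h2
        rw [h3, ← Module.End.mul_apply, ← map_mul, mul_inv_cancel, map_one]
        rfl
      have h4 : ρ (⟨x, hxH⟩ : H) = 1 := LinearMap.ext key
      exact (hρ _).mp h4
    · intro x hx
      refine Subgroup.mem_inf.mpr ⟨?_, ?_⟩
      · rw [← hM]
        apply LinearMap.ext
        rintro ⟨f, hf⟩
        apply Subtype.ext
        funext g
        change f (x⁻¹ * g) = f g
        have h1 : g⁻¹ * x⁻¹ * g ∈ N := by
          have := (inferInstance : N.Normal).conj_mem x⁻¹ (N.inv_mem hx) g⁻¹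
          simpa using this
        have h2 : x⁻¹ * g = g * ((⟨g⁻¹ * x⁻¹ * g, hNH h1⟩ : H) : G) := by
          simp [mul_assoc]
        rw [h2, hW f hf]
        have h3 : ρ (⟨g⁻¹ * x⁻¹ * g, hNH h1⟩ : H)⁻¹ = 1 := by
          rw [hρ]
          exact Subgroup.inv_mem _ h1
        rw [h3]
        rfl
      · exact (Subgroup.normal_le_normalCore (H := H) (N := N)).mpr hNH hx
  rwa [heq] at hinf

end

end Pool.Agent.H56CQ
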