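import Pool.Agent.H56CQ.Res
import Pool.Agent.H56CQ.Ind

/-!
# All residually finite central quotients at once
-/

set_option autoImplicit false

namespace Pool.Agent.H56CQ

/-- Every residually finite quotient of `E` by a subgroup of the central subgroup `A` is linear. -/
def QuotLinear (E : Type) [Group E] (A : Subgroup E) : Prop :=
  ∀ (Q : Type) [Group Q] (π : E →* Q), Function.Surjective π → π.ker ≤ A → IsRF Q →
    IsLinearGroup Q

section

variable {E : Type} [Group E]

theorem fg_map {G G' : Type*} [Group G] [Group G'] {A : Subgroup G} (h : A.FG) (f : G →* G') :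
    (A.map f).FG := by
  classical
  obtain ⟨S, hS⟩ := h
  refine ⟨S.image f, ?_⟩
  rw [Finset.coe_image, ← MonoidHom.map_closure, hS]

theorem fg_subgroup_of_central {A D : Subgroup E} (hA : ∀ b ∈ A, ∀ g : E, b * g = g * b)
    (hfg : A.FG) (hD : D ≤ A) : D.FG := by
  let cg : CommGroup A := commGroupOf A hA
  have hfg' : Group.FG A := (Group.fg_iff_subgroup_fg A).mpr hfg
  have hM : Module.Finite ℤ (Additive A) :=
    Module.Finite.iff_addGroup_fg.mpr (GroupFG.iff_add_fg.mp hfg')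
  let S : Submodule ℤ (Additive A) :=
    AddSubgroup.toIntSubmodule (Subgroup.toAddSubgroup (D.subgroupOf A))
  have hS : S.FG := IsNoetherian.noetherian S
  have h1 : (Subgroup.toAddSubgroup (D.subgroupOf A)).FG := by
    have h2 := (Submodule.fg_iff_addSubgroup_fg S).mp hS
    exact h2
  have h3 : (D.subgroupOf A).FG := (Subgroup.fg_iff_add_fg _).mpr h1
  have h4 : ((D.subgroupOf A).map A.subtype).FG := fg_map h3 A.subtype
  rwa [Subgroup.subgroupOf_map_subtype, inf_eq_left.mpr hD] at h4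

/-- **Family equivalence.** -/
theorem quotLinear_iff (hE : Group.FG E) {A : Subgroup E} (hA : ∀ b ∈ A, ∀ g : E, b * g = g * b)
    (hfg : A.FG) {K : Type} [Field K] [CharZero K] (hlinA : LinKer K A) :
    QuotLinear E A ↔ IsLinearGroup (E ⧸ Res E) := by
  have hRA : Res E ≤ A := res_le_of_linKer hE hlinA
  constructor
  · intro h
    refine h (E ⧸ Res E) (QuotientGroup.mk' (Res E)) (QuotientGroup.mk'_surjective _) ?_
      isRF_quot_res
    rw [QuotientGroup.ker_mk']
    exact hRA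
  · rintro ⟨k, _, m, φ, hφ⟩ Q _ π hπ hker hrf
    have hlin : LinKer k (⊥ : Subgroup (E ⧸ Res E)) :=
      ⟨m, φ, (MonoidHom.ker_eq_bot_iff φ).mpr hφ⟩
    have hRπ : Res E ≤ π.ker := res_le_ker π hrf
    let π1 : E ⧸ Res E →* Q := QuotientGroup.lift (Res E) π fun x hx => hRπ hx
    have hπ1 : ∀ x : E, π1 (x : E ⧸ Res E) = π x := fun x => rfl
    have hsurj : Function.Surjective π1 := by
      intro q
      obtain ⟨x, rfl⟩ := hπ q
      exact ⟨x, rfl⟩
    let A1 : Subgroup (E ⧸ Res E) := A.map (QuotientGroup.mk' (Res E))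
    have hA1 : ∀ b ∈ A1, ∀ g : E ⧸ Res E, b * g = g * b := by
      rintro _ ⟨a, ha, rfl⟩ g
      obtain ⟨x, rfl⟩ := QuotientGroup.mk_surjective g
      change ((a * x : E) : E ⧸ Res E) = ((x * a : E) : E ⧸ Res E)
      rw [hA a ha x]
    have hlinA1 : LinKer K A1 := hlinA.map_surj _ (QuotientGroup.mk'_surjective _)
      (by rw [QuotientGroup.ker_mk']; exact hRA)
    have hker1 : π1.ker ≤ A1 := by
      intro x hx
      obtain ⟨y, rfl⟩ := QuotientGroup.mk_surjective x
      exact ⟨y, hker hx, rfl⟩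
    obtain ⟨L, _, _, hL⟩ := linKer_bot_quot (F1 := ⊥) hA1 (fg_map hfg _) hlinA1
      (fun g hg => ⟨1, le_rfl, by rw [Subgroup.mem_bot.mp hg, one_pow]⟩) hlin π1 hsurj hker1 hrf
    exact isLinear_of_linKer_bot hL

/-- torsion-by-linear groups -/
theorem quotLinear_of_torsion {A : Subgroup E} (hA : ∀ b ∈ A, ∀ g : E, b * g = g * b)
    (hfg : A.FG) {K : Type} [Field K] [CharZero K] (hlinA : LinKer K A)
    {k : Type} [Field k] {F1 : Subgroup E} (hF1 : ∀ g ∈ F1, ∃ N : ℕ, 1 ≤ N ∧ g ^ N = 1)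
    (hlin : LinKer k F1) : QuotLinear E A := by
  intro Q _ π hπ hker hrf
  obtain ⟨L, _, _, hL⟩ := linKer_bot_quot hA hfg hlinA hF1 hlin π hπ hker hrf
  exact isLinear_of_linKer_bot hL

/-- The finite residual has finite index in `A`. -/
theorem quotLinear_of_relIndex (hE : Group.FG E) {A : Subgroup E}
    (hA : ∀ b ∈ A, ∀ g : E, b * g = g * b)
    (hfg : A.FG) {K : Type} [Field K] [CharZero K] (hlinA : LinKer K A)
    (hidx : (Res E).relIndex A ≠ 0) : QuotLinear E A := by
  rw [quotLinear_iff hE hA hfg hlinA]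
  have hRA : Res E ≤ A := res_le_of_linKer hE hlinA
  have h1 : LinKer K (A.map (QuotientGroup.mk' (Res E))) :=
    hlinA.map_surj _ (QuotientGroup.mk'_surjective _) (by rw [QuotientGroup.ker_mk']; exact hRA)
  refine isLinear_of_linKer_bot (linKer_bot_of_rf isRF_quot_res ?_ h1)
  have hfin : Finite (A ⧸ (Res E).subgroupOf A) := Nat.finite_of_card_ne_zero hidx
  let f : A ⧸ (Res E).subgroupOf A → E ⧸ Res E := fun q => ((q.out : A) : E)
  refine (Set.finite_range f).subset ?_
  rintro _ ⟨a, ha, rfl⟩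
  refine ⟨((⟨a, ha⟩ : A) : A ⧸ (Res E).subgroupOf A), ?_⟩
  obtain ⟨h, hh⟩ := QuotientGroup.mk_out_eq_mul ((Res E).subgroupOf A) (⟨a, ha⟩ : A)
  change ((((⟨a, ha⟩ : A) : A ⧸ (Res E).subgroupOf A).out : A) : E) = ((a : E) : E ⧸ Res E)
  rw [hh]
  rw [QuotientGroup.eq]
  change (a * ((h : A) : E))⁻¹ * a ∈ Res E
  have h2 : ((h : A) : E) ∈ Res E := h.2
  rw [mul_inv_rev, inv_mul_cancel_right]
  exact (Res E).inv_mem h2

end

end Pool.Agent.H56CQ
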