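import Pool.Agent.H56CQ.Crit
import Pool.Agent.H56CQ.Ad

/-!
# Subgroups of connected Lie groups
-/

set_option autoImplicit false

namespace Pool.Agent.H56CQ

open scoped Manifold Topology ContDiff

section

variable {E : Type} [Group E]

/-- extensions of finitely generated groups -/
theorem fg_of_ext {Q : Type*} [Group Q] (π : E →* Q) (hπ : Function.Surjective π)
    (hker : π.ker.FG) (hQ : Group.FG Q) : Group.FG E := by
  classical
  obtain ⟨T, hT⟩ := hker
  obtain ⟨S, hS⟩ := Group.fg_def.mp hQ
  let s : Q → E := Function.surjInv hπ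
  have hs : ∀ q, π (s q) = q := Function.surjInv_eq hπ
  rw [Group.fg_def]
  refine ⟨T ∪ S.image s, ?_⟩
  set H : Subgroup E := Subgroup.closure ((T ∪ S.image s : Finset E) : Set E) with hH
  have h1 : π.ker ≤ H := by
    rw [← hT]
    apply Subgroup.closure_mono
    rw [Finset.coe_union]
    exact Set.subset_union_left
  have h2 : H.map π = ⊤ := by
    rw [eq_top_iff, ← hS, Subgroup.closure_le]
    intro q hq
    refine ⟨s q, ?_, hs q⟩
    apply Subgroup.subset_closure
    rw [Finset.coe_union]
    exact Or.inr (Finset.mem_coe.mpr (Finset.mem_image_of_mem s hq))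
  rw [eq_top_iff]
  intro x _
  have h3 : π x ∈ H.map π := by rw [h2]; trivial
  obtain ⟨y, hy, hyx⟩ := h3
  have h4 : y⁻¹ * x ∈ π.ker := by
    rw [MonoidHom.mem_ker, map_mul, map_inv, hyx, inv_mul_cancel]
  have h5 := H.mul_mem hy (h1 h4)
  rwa [mul_inv_cancel_left] at h5

end

section

variable (n : ℕ) {H : Type} [TopologicalSpace H] [Group H]
  [ChartedSpace (EuclideanSpace ℝ (Fin n)) H]
  [LieGroup (𝓡 n) ((⊤ : ℕ∞) : WithTop ℕ∞) H] [ConnectedSpace H]

include n in
/-- The quotient of a subgroup of a connected Lie group by its intersection with the centre is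
linear over the reals. -/
theorem linKer_center_subgroupOf (E : Subgroup H) :
    LinKer ℝ ((Subgroup.center H).subgroupOf E) :=
  (linKer_center_lie n H).comap E.subtype

end

section

variable {H : Type} [TopologicalSpace H] [Group H] [IsTopologicalGroup H] [ConnectedSpace H]

/-- A discrete normal subgroup of a connected group is central. -/
theorem ker_le_center_of_discrete {G : Type} [Group G] (p : H →* G) [DiscreteTopology p.ker] :
    p.ker ≤ Subgroup.center H := by
  intro a ha
  rw [Subgroup.mem_center_iff]
  intro g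
  let f : H → p.ker := fun g => ⟨g * a * g⁻¹, by
    rw [MonoidHom.mem_ker, map_mul, map_mul, MonoidHom.mem_ker.mp ha, mul_one, ← map_mul,
      mul_inv_cancel, map_one]⟩
  have hf : Continuous f := by
    apply Continuous.subtype_mk
    fun_prop
  have h1 : f g = f 1 := PreconnectedSpace.constant inferInstance hf
  have h2 := congrArg Subtype.val h1
  change g * a * g⁻¹ = 1 * a * 1⁻¹ at h2
  rw [one_mul, inv_one, mul_one, mul_inv_eq_iff_eq_mul] at h2
  exact h2

end

end Pool.Agent.H56CQ
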