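import Pool.Agent.H56CQ.Prod
import Pool.Agent.H56CQ.Lie

/-!
# The statements for subgroups of connected Lie groups
-/

set_option autoImplicit false

namespace Pool.Agent.H56CQ

open scoped Manifold

section

variable {E : Type} [Group E]

theorem question_iff (hE : Group.FG E) {A : Subgroup E} :
    QuestionForQuotients E A ↔ QuotLinear E A := by
  constructor
  · intro h Q _ π hπ hker hrf
    exact (h Q π hπ hker).mpr hrf
  · intro h Q _ π hπ hker
    refine ⟨fun hl => ?_, fun hrf => h Q π hπ hker hrf⟩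
    exact rf_of_linear (Group.fg_of_surjective hπ) hl

/-- the factors are finitely generated -/
theorem factor_fg (hE : Group.FG E)
    {N : Subgroup E} [N.Normal] {k : ℕ} (M : Fin k → Subgroup E)
    (hcomm : ∀ i j, i ≠ j → ∀ x ∈ M i, ∀ y ∈ M j, x * y = y * x) (hind : iSupIndep M)
    (hMN : (⨆ i, M i) ⊓ N = ⊥) [((⨆ i, M i) ⊔ N).FiniteIndex] (i : Fin k) :
    Group.FG (M i) := by
  let S : Subgroup E := ⨆ i, M i
  have hle : ∀ i, M i ≤ S := fun i => le_iSup M i
  have hSfg : Group.FG S := fg_split hE hMN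
  let T0 : Subgroup E := ⨆ (j : Fin k) (_ : j ≠ i), M j
  have hT0 : T0 ≤ S := iSup₂_le fun j _ => hle j
  let T : Subgroup S := T0.subgroupOf S
  have h1 : ((M i).subgroupOf S) ⊓ T = ⊥ := by
    rw [eq_bot_iff]
    rintro x ⟨hx1, hx2⟩
    have h3 : (x : E) ∈ M i ⊓ T0 := ⟨hx1, hx2⟩
    rw [disjoint_iff.mp (hind i), Subgroup.mem_bot] at h3
    exact Subtype.ext h3
  have h2 : ((M i).subgroupOf S) ⊔ T = ⊤ := by
    have h3 : M i ⊔ T0 = S := by
      apply le_antisymm (sup_le (hle i) hT0)
      refine iSup_le fun j => ?_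
      by_cases hji : j = i
      · subst hji
        exact le_sup_left
      · exact (le_iSup₂ (f := fun (j : Fin k) (_ : j ≠ i) => M j) j hji).trans le_sup_right
    rw [eq_top_iff]
    intro x _
    have h4 : (((M i).subgroupOf S) ⊔ T).map S.subtype = S := by
      rw [Subgroup.map_sup, Subgroup.subgroupOf_map_subtype, Subgroup.subgroupOf_map_subtype,
        inf_eq_left.mpr (hle i), inf_eq_left.mpr hT0, h3]
    have h5 : (x : E) ∈ (((M i).subgroupOf S) ⊔ T).map S.subtype := by
      rw [h4]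
      exact x.2
    obtain ⟨y, hy, hyx⟩ := h5
    have : y = x := Subtype.ext hyx
    rwa [← this]
  have h3 : T.Normal := by
    refine normal_of_commute_sup (M := (M i).subgroupOf S) ?_ h2
    intro x hx y hy
    have hle2 : T0 ≤ Subgroup.centralizer ((M i : Subgroup E) : Set E) := by
      refine iSup₂_le fun j hj => ?_
      intro z hz
      rw [Subgroup.mem_centralizer_iff]
      intro w hw
      exact hcomm i j (Ne.symm hj) w hw z hz
    exact Subtype.ext ((Subgroup.mem_centralizer_iff.mp (hle2 hy)) x hx)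
  have h4 : (((M i).subgroupOf S) ⊔ T).FiniteIndex := by rw [h2]; infer_instance
  have h5 : Group.FG ((M i).subgroupOf S) := fg_split hSfg h1
  exact Group.fg_of_surjective (f := (Subgroup.subgroupOfEquivOfLe (hle i)).toMonoidHom)
    (Subgroup.subgroupOfEquivOfLe (hle i)).surjective

/-- semidirect products with finitely many commuting factors -/
theorem levi_iff (hE : Group.FG E) {A : Subgroup E} (hA : ∀ b ∈ A, ∀ g : E, b * g = g * b)
    (hfg : A.FG) {K : Type} [Field K] [CharZero K] (hlinA : LinKer K A)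
    {N : Subgroup E} [N.Normal] {k : ℕ} (M : Fin k → Subgroup E)
    (hcomm : ∀ i j, i ≠ j → ∀ x ∈ M i, ∀ y ∈ M j, x * y = y * x) (hind : iSupIndep M)
    (hMN : (⨆ i, M i) ⊓ N = ⊥) [((⨆ i, M i) ⊔ N).FiniteIndex]
    {L : Type} [Field L] [CharZero L] {R : Subgroup E} (hR : LinKer L R)
    (hRN : ((R ⊓ N : Subgroup E) : Set E).Finite) :
    QuotLinear E A ↔ ∀ i, QuotLinear (M i) (A.subgroupOf (M i)) := by
  let S : Subgroup E := ⨆ i, M i
  have hle : ∀ i, M i ≤ S := fun i => le_iSup M i
  have hSfg : Group.FG S := fg_split hE hMN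
  rw [quotLinear_iff hE hA hfg hlinA, split_iff hE hA hfg hlinA hMN hR hRN]
  have hcomm' : ∀ i j, i ≠ j → ∀ x ∈ (M i).subgroupOf S, ∀ y ∈ (M j).subgroupOf S,
      x * y = y * x := by
    intro i j hij x hx y hy
    exact Subtype.ext (hcomm i j hij x hx y hy)
  have hind' : iSupIndep fun i => (M i).subgroupOf S := by
    intro j
    rw [disjoint_iff, eq_bot_iff]
    rintro x ⟨hx1, hx2⟩
    have h3 := hind j
    rw [disjoint_iff] at h3
    have h4 : (x : E) ∈ M j ⊓ ⨆ (i : Fin k) (_ : i ≠ j), M i := by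
      refine Subgroup.mem_inf.mpr ⟨hx1, ?_⟩
      have h5 : (⨆ (i : Fin k) (_ : i ≠ j), (M i).subgroupOf S) ≤
          (⨆ (i : Fin k) (_ : i ≠ j), M i).subgroupOf S := by
        refine iSup₂_le fun i hi => ?_
        refine Subgroup.comap_mono ?_
        exact le_iSup₂ (f := fun (i : Fin k) (_ : i ≠ j) => M i) i hi
      exact h5 hx2
    rw [h3, Subgroup.mem_bot] at h4
    exact Subtype.ext h4
  have htop' : (⨆ i, (M i).subgroupOf S) = ⊤ := by
    rw [eq_top_iff]
    intro x _
    have h3 : (⨆ j, ((M j).subgroupOf S).map S.subtype) = S := by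
      have h4 : ∀ j, ((M j).subgroupOf S).map S.subtype = M j := by
        intro j
        rw [Subgroup.subgroupOf_map_subtype, inf_eq_left.mpr (hle j)]
      simp only [h4]
      rfl
    rw [← Subgroup.map_iSup] at h3
    have h5 : (x : E) ∈ (⨆ j, (M j).subgroupOf S).map S.subtype := by
      rw [h3]
      exact x.2
    obtain ⟨y, hy, hyx⟩ := h5
    have : y = x := Subtype.ext hyx
    rwa [← this]
  have hAS : ∀ b ∈ A.subgroupOf S, ∀ g : S, b * g = g * b := fun b hb g =>
    Subtype.ext (hA b hb g)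
  rw [family_iff k hSfg hAS (fg_subgroupOf hA hfg) (hlinA.comap S.subtype)
    (fun i => (M i).subgroupOf S) hcomm' hind' htop']
  refine forall_congr' fun i => ?_
  rw [lin_res_equiv (Subgroup.subgroupOfEquivOfLe (hle i))]
  have hfgi : Group.FG (M i) := factor_fg hE M hcomm hind hMN i
  exact (quotLinear_iff hfgi (fun b hb g => Subtype.ext (hA b hb g)) (fg_subgroupOf hA hfg)
    (hlinA.comap (M i).subtype)).symm

end

section

theorem center_central (G : Type) [Group G] (Γ : Subgroup G) : ∀ b ∈ (Subgroup.center G).subgroupOf Γ, ∀ g : Γ, b * g = g * b := by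
  intro b hb g
  apply Subtype.ext
  exact (Subgroup.mem_center_iff.mp (Subgroup.mem_subgroupOf.mp hb) g).symm

theorem center_fg (G : Type) [Group G] (Γ : Subgroup G) (hA : (Γ ⊓ Subgroup.center G).FG) : ((Subgroup.center G).subgroupOf Γ).FG := by
  have h5 : Group.FG ↥(Γ ⊓ Subgroup.center G) := (Group.fg_iff_subgroup_fg _).mpr hA
  have h6 := fg_map (Group.fg_def.mp h5)
    (Subgroup.inclusion (inf_le_left : Γ ⊓ Subgroup.center G ≤ Γ))
  have h7 : (⊤ : Subgroup ↥(Γ ⊓ Subgroup.center G)).map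
      (Subgroup.inclusion (inf_le_left : Γ ⊓ Subgroup.center G ≤ Γ)) =
      (Subgroup.center G).subgroupOf Γ := by
    ext x
    constructor
    · rintro ⟨y, _, rfl⟩
      exact (Subgroup.mem_inf.mp y.2).2
    · intro hx
      exact ⟨⟨x, x.2, hx⟩, trivial, rfl⟩
  rwa [h7] at h6

variable (n : ℕ) (G : Type) [TopologicalSpace G] [Group G] [IsTopologicalGroup G]
  [ChartedSpace (EuclideanSpace ℝ (Fin n)) G]
  [LieGroup (𝓡 n) ((⊤ : ℕ∞) : WithTop ℕ∞) G] [ConnectedSpace G]
  (Γ : Subgroup G)

include n in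
theorem lie_tfae (hΓ : Group.FG Γ) (hA : (Γ ⊓ Subgroup.center G).FG) :
    [QuestionForQuotients Γ ((Subgroup.center G).subgroupOf Γ),
      IsLinearGroup (Γ ⧸ Res Γ),
      ∀ a : Γ, (a : G) ∈ Subgroup.center G → RepTorsion a →
        ∃ k : ℕ, 1 ≤ k ∧ a ^ k ∈ Res Γ].TFAE := by
  have h1 := center_central G Γ
  have h2 := center_fg G Γ hA
  have h3 := linKer_center_subgroupOf n Γ
  tfae_have 1 ↔ 2 := by
    rw [question_iff hΓ]
    exact quotLinear_iff hΓ h1 h2 h3
  tfae_have 1 ↔ 3 := by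
    rw [question_iff hΓ]
    exact quotLinear_iff_elements hΓ h1 h2 h3
  tfae_finish

end

end Pool.Agent.H56CQ
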