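import Pool.Agent.H56CQ.Split

/-!
# Vanishing first cohomology forces central elements to have finite order
-/

set_option autoImplicit false

namespace Pool.Agent.H56CQ

section

variable {E : Type} [Group E]

theorem h1_module (h : H1Vanish E) {K : Type} [Field K] [CharZero K] {V : Type*}
    [AddCommGroup V] [Module K V] [FiniteDimensional K V] (ρ : E →* Module.End K V)
    (c : E → V) (hc : ∀ x y, c (x * y) = c x + ρ x (c y)) : ∃ v, ∀ x, c x = ρ x v - v := by
  let b := Module.finBasis K V
  let e := LinearMap.toMatrixAlgEquiv b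
  let φ : E →* Matrix.GeneralLinearGroup (Fin (Module.finrank K V)) K :=
    (e.toMonoidHom.comp ρ).toHomUnits
  have hφ : ∀ x w, Matrix.mulVec (φ x : Matrix _ _ K) (b.equivFun w) = b.equivFun (ρ x w) := by
    intro x w
    exact LinearMap.toMatrix_mulVec_repr b b (ρ x) w
  obtain ⟨v, hv⟩ := h K (Module.finrank K V) φ (fun x => b.equivFun (c x)) (by
    intro x y
    rw [hφ, hc, map_add])
  refine ⟨b.equivFun.symm v, ?_⟩
  intro x
  apply b.equivFun.injective
  have h1 := hv x
  rw [map_sub, ← hφ, LinearEquiv.apply_symm_apply]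
  exact h1

/-- A central element acting unipotently acts trivially. -/
theorem unipotent_trivial (h : H1Vanish E) {K : Type} [Field K] [CharZero K] {V : Type*}
    [AddCommGroup V] [Module K V] [FiniteDimensional K V] (ρ : E →* Module.End K V)
    (b : E) (hb : ∀ g, b * g = g * b) (hn : IsNilpotent (ρ b - 1)) : ρ b = 1 := by
  set n : Module.End K V := ρ b - 1 with hndef
  have hcomm : ∀ g, n * ρ g = ρ g * n := by
    intro g
    rw [hndef, sub_mul, mul_sub, ← map_mul, ← map_mul, hb g, one_mul, mul_one]
  have hinv : ∀ g, ρ g * ρ g⁻¹ = 1 := by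
    intro g
    rw [← map_mul]
    simp
  have hinv' : ∀ g, ρ g⁻¹ * ρ g = 1 := by
    intro g
    rw [← map_mul]
    simp
  let W : Submodule K V := LinearMap.ker n
  have hW : ∀ g, ∀ w ∈ W, ρ g w ∈ W := by
    intro g w hw
    have hw' : n w = 0 := hw
    have h1 := congrArg (fun T : Module.End K V => T w) (hcomm g)
    simp only [Module.End.mul_apply] at h1
    change n (ρ g w) = 0
    rw [h1, hw', map_zero]
  let U : Submodule K (Module.End K V) :=
    { carrier := {f | (∀ v, f v ∈ W) ∧ ∀ w ∈ W, f w = 0}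
      add_mem' := by
        rintro f g ⟨h1, h2⟩ ⟨h3, h4⟩
        refine ⟨fun v => ?_, fun w hw => ?_⟩
        · rw [LinearMap.add_apply]
          exact W.add_mem (h1 v) (h3 v)
        · rw [LinearMap.add_apply, h2 w hw, h4 w hw, add_zero]
      zero_mem' := ⟨fun v => by rw [LinearMap.zero_apply]; exact W.zero_mem,
        fun w _ => LinearMap.zero_apply w⟩
      smul_mem' := by
        rintro c f ⟨h1, h2⟩
        refine ⟨fun v => ?_, fun w hw => ?_⟩
        · rw [LinearMap.smul_apply]
          exact W.smul_mem c (h1 v)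
        · rw [LinearMap.smul_apply, h2 w hw, smul_zero] }
  have hU : ∀ g, ∀ f ∈ U, conjRep ρ g f ∈ U := by
    rintro g f ⟨h1, h2⟩
    rw [conjRep_apply]
    refine ⟨fun v => ?_, fun w hw => ?_⟩
    · exact hW g _ (h1 _)
    · change ρ g (f (ρ g⁻¹ w)) = 0
      rw [h2 _ (hW g⁻¹ w hw), map_zero]
  -- a projection onto `W`
  obtain ⟨p, hp⟩ := LinearMap.exists_leftInverse_of_injective W.subtype
    (LinearMap.ker_eq_bot.mpr Subtype.val_injective)
  let π : Module.End K V := W.subtype.comp p
  have hπ1 : ∀ v, π v ∈ W := fun v => (p v).2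
  have hπ2 : ∀ w ∈ W, π w = w := by
    intro w hw
    have h1 := congrArg (fun T : W →ₗ[K] W => T ⟨w, hw⟩) hp
    exact congrArg Subtype.val h1
  have hcU : ∀ g, conjRep ρ g π - π ∈ U := by
    intro g
    refine ⟨fun v => ?_, fun w hw => ?_⟩
    · rw [LinearMap.sub_apply, conjRep_apply]
      exact W.sub_mem (hW g _ (hπ1 _)) (hπ1 v)
    · rw [LinearMap.sub_apply, conjRep_apply]
      change ρ g (π (ρ g⁻¹ w)) - π w = 0
      rw [hπ2 _ (hW g⁻¹ w hw), hπ2 w hw]
      have h1 := congrArg (fun T : Module.End K V => T w) (hinv g)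
      change ρ g (ρ g⁻¹ w) = w at h1
      rw [h1, sub_self]
  obtain ⟨u, hu⟩ := h1_module h (restrictRep (conjRep ρ) U hU)
    (fun g => (⟨conjRep ρ g π - π, hcU g⟩ : U)) (by
      intro x y
      apply Subtype.ext
      change conjRep ρ (x * y) π - π = (conjRep ρ x π - π) + conjRep ρ x (conjRep ρ y π - π)
      rw [map_mul, Module.End.mul_apply, map_sub]
      abel)
  have hu2 : ∀ g, conjRep ρ g (π - u) = π - u := by
    intro g
    have h1 := congrArg (fun f : U => (f : Module.End K V)) (hu g)
    change conjRep ρ g π - π = conjRep ρ g (u : Module.End K V) - u at h1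
    rw [map_sub]
    have e : conjRep ρ g π = conjRep ρ g (u : Module.End K V) - u + π := by
      rw [← h1]
      abel
    rw [e]
    abel
  set π' : Module.End K V := π - u with hπ'
  have hcomm' : ∀ g, ρ g * π' = π' * ρ g := by
    intro g
    have h1 := hu2 g
    rw [conjRep_apply] at h1
    calc ρ g * π' = ρ g * π' * (ρ g⁻¹ * ρ g) := by rw [hinv', mul_one]
      _ = ρ g * π' * ρ g⁻¹ * ρ g := by rw [mul_assoc (ρ g * π')]
      _ = π' * ρ g := by rw [h1]
  have hnπ : n * π' = π' * n := by
    rw [hndef, sub_mul (ρ b) 1 π', mul_sub π' (ρ b) 1, hcomm', one_mul, mul_one]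
  have hπ'1 : ∀ v, π' v ∈ W := fun v => W.sub_mem (hπ1 v) (u.2.1 v)
  have hπ'2 : ∀ w ∈ W, π' w = w := by
    intro w hw
    change π w - (u : Module.End K V) w = w
    rw [hπ2 w hw, u.2.2 w hw, sub_zero]
  obtain ⟨k, hk⟩ := hn
  have key : ∀ k : ℕ, ∀ w, π' w = 0 → (n ^ k) w = 0 → w = 0 := by
    intro k
    induction k with
    | zero =>
      intro w _ h2
      simpa using h2
    | succ k ih =>
      intro w h1 h2
      rw [pow_succ, Module.End.mul_apply] at h2
      have h3 : π' (n w) = 0 := by
        have h4 := congrArg (fun T : Module.End K V => T w) hnπ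
        simp only [Module.End.mul_apply] at h4
        rw [← h4, h1, map_zero]
      have h5 : n w = 0 := ih (n w) h3 h2
      have h6 : π' w = w := hπ'2 w h5
      rw [← h6, h1]
  have hn0 : n = 0 := by
    apply LinearMap.ext
    intro v
    have h1 : π' (v - π' v) = 0 := by
      rw [map_sub, hπ'2 _ (hπ'1 v), sub_self]
    have h2 := key k (v - π' v) h1 (by rw [hk]; rfl)
    have h3 : v = π' v := sub_eq_zero.mp h2
    have h4 : v ∈ W := by
      rw [h3]
      exact hπ'1 v
    exact h4
  have h1 : ρ b - 1 = 0 := hn0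
  exact sub_eq_zero.mp h1

/-- With vanishing first cohomology every central element has finite order in every
representation. -/
theorem finite_order_of_h1 (h : H1Vanish E) {B : Subgroup E}
    (hB : ∀ b ∈ B, ∀ g : E, b * g = g * b) (a : B) (K : Type) [Field K] [CharZero K] (m : ℕ)
    (φ : E →* Matrix.GeneralLinearGroup (Fin m) K) : ∃ N : ℕ, 1 ≤ N ∧ φ a ^ N = 1 := by
  have hrat : ∀ ν : E → ℚ, (∀ x y, ν (x * y) = ν x + ν y) → ν a = 0 := by
    intro ν hν
    obtain ⟨v, hv⟩ := h ℚ 1 1 (fun x _ => ν x) (by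
      intro x y
      funext i
      simp [hν])
    have h1 := congrFun (hv a) 0
    simpa using h1
  let L := AlgebraicClosure K
  have hL : CharZero L := charZero_of_injective_algebraMap (algebraMap K L).injective
  let φ' := (Matrix.GeneralLinearGroup.map (algebraMap K L)).comp φ
  obtain ⟨N, hN, h1⟩ := detect_gen (K := L) hB a (by
    intro V _ _ _ _ ρ hs
    obtain ⟨μ, hμ⟩ := hs a a.2
    obtain ⟨M, hM1, hM'⟩ := det_torsion ρ (a : E) hrat
    have hM2 : (LinearMap.det (ρ a)) ^ M = 1 := by
      have := congrArg (fun u : Lˣ => (u : L)) hM'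
      simpa [detUnit_val] using this
    set n := ρ a - μ • (1 : Module.End L V) with hn
    have hneg : IsNilpotent (-n) := hμ.neg
    have hdetmu : LinearMap.det (ρ a) = μ ^ Module.finrank L V := by
      have h1 := LinearMap.eval_charpoly (-n) μ
      rw [hneg.charpoly_eq_X_pow_finrank] at h1
      rw [Polynomial.eval_pow, Polynomial.eval_X] at h1
      rw [h1]
      congr 1
      rw [hn, Algebra.algebraMap_eq_smul_one]
      abel
    rw [hdetmu, ← pow_mul] at hM2
    set m := Module.finrank L V * M with hm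
    have hmpos : 1 ≤ m := Nat.mul_pos Module.finrank_pos hM1
    have hcomm : Commute (ρ (a : E)) (μ • (1 : Module.End L V)) :=
      (Commute.one_right _).smul_right μ
    have h2 := hcomm.mul_geom_sum₂ m
    have h3 : (μ • (1 : Module.End L V)) ^ m = 1 := by
      rw [smul_pow, hM2, one_pow, one_smul]
    rw [h3, ← hn] at h2
    have hcn : Commute (ρ (a : E)) n := by
      rw [hn]
      exact (Commute.refl _).sub_right hcomm
    have hcn2 : Commute (μ • (1 : Module.End L V)) n := (Commute.one_left n).smul_left μ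
    have hnil : IsNilpotent ((ρ (a : E)) ^ m - 1) := by
      rw [← h2]
      refine Commute.isNilpotent_mul_right ?_ hμ
      refine Commute.sum_right _ _ _ fun i _ => ?_
      exact (hcn.symm.pow_right i).mul_right (hcn2.symm.pow_right _)
    refine ⟨m, hmpos, ?_⟩
    rw [← map_pow] at hnil ⊢
    refine unipotent_trivial h ρ _ ?_ hnil
    intro g
    have h5 : (a : E) ^ m ∈ B := B.pow_mem a.2 m
    exact hB _ h5 g) _ (Fin m → L) le_rfl (matRep φ')
  refine ⟨N, hN, ?_⟩
  rw [← map_pow, matRep_eq_one, MonoidHom.mem_ker] at h1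
  have h2 : Matrix.GeneralLinearGroup.map (algebraMap K L) (φ ((a : E) ^ N)) = 1 := h1
  rw [← map_pow]
  generalize φ ((a : E) ^ N) = X at h2 ⊢
  apply Units.ext
  ext i j
  have h3 := congrArg (fun u : Matrix.GeneralLinearGroup (Fin m) L =>
    (u : Matrix (Fin m) (Fin m) L) i j) h2
  have h4 : algebraMap K L ((X : Matrix (Fin m) (Fin m) K) i j) =
      (1 : Matrix (Fin m) (Fin m) L) i j := by
    simpa using h3
  apply (algebraMap K L).injective
  rw [h4]
  simp [Matrix.one_apply]

end

end Pool.Agent.H56CQ
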