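import Pool.Agent.H56CQ.Rep
import Pool.Agent.H56CQ.Defs

/-!
# Kernels of finite dimensional representations
-/

set_option autoImplicit false

namespace Pool.Agent.H56CQ

open Finset

section

variable {Γ : Type*} [Group Γ] (K : Type*) [Field K]

/-- `N` is the kernel of a finite dimensional representation over `K`. -/
def LinKer (N : Subgroup Γ) : Prop :=
  ∃ (n : ℕ) (φ : Γ →* Matrix.GeneralLinearGroup (Fin n) K), φ.ker = N

variable {K}

theorem linKer_of_rep {V : Type*} [AddCommGroup V] [Module K V] [FiniteDimensional K V]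
    (ρ : Γ →* Module.End K V) {N : Subgroup Γ} (h : ∀ g, ρ g = 1 ↔ g ∈ N) : LinKer K N := by
  let e := LinearMap.toMatrixAlgEquiv (Module.finBasis K V)
  let φ : Γ →* Matrix.GeneralLinearGroup (Fin (Module.finrank K V)) K :=
    (e.toMonoidHom.comp ρ).toHomUnits
  refine ⟨_, φ, ?_⟩
  ext g
  rw [MonoidHom.mem_ker, ← h g]
  constructor
  · intro hg
    have h1 : ((φ g : Matrix.GeneralLinearGroup (Fin (Module.finrank K V)) K) :
        Matrix (Fin (Module.finrank K V)) (Fin (Module.finrank K V)) K) = 1 := by rw [hg]; rfl
    have h2 : e (ρ g) = 1 := h1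
    exact e.injective (by rw [h2, map_one])
  · intro hg
    apply Units.ext
    change e (ρ g) = 1
    rw [hg, map_one]

/-- the representation on column vectors attached to a matrix representation -/
noncomputable def matRep {n : ℕ} (φ : Γ →* Matrix.GeneralLinearGroup (Fin n) K) :
    Γ →* Module.End K (Fin n → K) :=
  (Matrix.toLinAlgEquiv' : Matrix (Fin n) (Fin n) K ≃ₐ[K] _).toMonoidHom.comp
    ((Units.coeHom _).comp φ)

theorem matRep_eq_one {n : ℕ} (φ : Γ →* Matrix.GeneralLinearGroup (Fin n) K) (g : Γ) :
    matRep φ g = 1 ↔ g ∈ φ.ker := by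
  rw [MonoidHom.mem_ker]
  constructor
  · intro h
    apply Units.ext
    have h1 : (Matrix.toLinAlgEquiv' : Matrix (Fin n) (Fin n) K ≃ₐ[K] _) (φ g).val = 1 := h
    exact (Matrix.toLinAlgEquiv' : Matrix (Fin n) (Fin n) K ≃ₐ[K] _).injective
      (by rw [h1]; simp)
  · intro h
    change (Matrix.toLinAlgEquiv' : Matrix (Fin n) (Fin n) K ≃ₐ[K] _) (φ g).val = 1
    rw [h]
    simp

theorem LinKer.exists_rep {N : Subgroup Γ} (h : LinKer K N) :
    ∃ (n : ℕ) (ρ : Γ →* Module.End K (Fin n → K)), ∀ g, ρ g = 1 ↔ g ∈ N := by
  obtain ⟨n, φ, hφ⟩ := h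
  exact ⟨n, matRep φ, fun g => by rw [matRep_eq_one, hφ]⟩

theorem linKer_top : LinKer K (⊤ : Subgroup Γ) :=
  ⟨0, 1, by ext g; simp⟩

theorem LinKer.inf {N M : Subgroup Γ} (hN : LinKer K N) (hM : LinKer K M) :
    LinKer K (N ⊓ M) := by
  obtain ⟨n, ρ, hρ⟩ := hN.exists_rep
  obtain ⟨m, σ, hσ⟩ := hM.exists_rep
  let τ : Γ →* Module.End K ((Fin n → K) × (Fin m → K)) :=
    { toFun := fun g => LinearMap.prodMap (ρ g) (σ g)
      map_one' := by
        rw [map_one, map_one]
        rfl
      map_mul' := by
        intro g h
        rw [map_mul, map_mul]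
        rfl }
  refine linKer_of_rep τ ?_
  intro g
  rw [Subgroup.mem_inf, ← hρ, ← hσ]
  constructor
  · intro h
    constructor
    · apply LinearMap.ext
      intro v
      have := congrArg (fun F : Module.End K ((Fin n → K) × (Fin m → K)) => (F (v, 0)).1) h
      exact this
    · apply LinearMap.ext
      intro v
      have := congrArg (fun F : Module.End K ((Fin n → K) × (Fin m → K)) => (F (0, v)).2) h
      exact this
  · rintro ⟨h1, h2⟩
    change LinearMap.prodMap (ρ g) (σ g) = 1
    rw [h1, h2]
    rfl

theorem linKer_iInf {m : ℕ} (N : Fin m → Subgroup Γ) (h : ∀ i, LinKer K (N i)) :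
    LinKer K (⨅ i, N i) := by
  induction m with
  | zero =>
    have : (⨅ i, N i) = ⊤ := by
      rw [iInf_of_empty]
    rw [this]
    exact linKer_top
  | succ m ih =>
    have h1 := (h 0).inf (ih (fun i => N i.succ) fun i => h _)
    have h2 : (⨅ i, N i) = N 0 ⊓ ⨅ i : Fin m, N i.succ := by
      refine le_antisymm (le_inf (iInf_le _ _) (le_iInf fun i => iInf_le _ _)) ?_
      refine le_iInf fun i => ?_
      refine Fin.cases ?_ (fun j => ?_) i
      · exact inf_le_left
      · exact inf_le_right.trans (iInf_le _ j)
    rwa [h2]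

theorem LinKer.comap {Γ' : Type*} [Group Γ'] {N : Subgroup Γ} (h : LinKer K N) (f : Γ' →* Γ) :
    LinKer K (N.comap f) := by
  obtain ⟨n, φ, hφ⟩ := h
  exact ⟨n, φ.comp f, by rw [← hφ, MonoidHom.comap_ker]⟩

theorem linKer_bot_of_finite [Finite Γ] : LinKer K (⊥ : Subgroup Γ) := by
  classical
  have : Fintype Γ := Fintype.ofFinite Γ
  let ρ : Γ →* Module.End K (Γ → K) :=
    { toFun := fun g =>
        { toFun := fun F q => F (q * g)
          map_add' := fun _ _ => rfl
          map_smul' := fun _ _ => rfl }
      map_one' := by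
        ext F q
        simp
      map_mul' := by
        intro g h
        apply LinearMap.ext
        intro F
        funext q
        simp [mul_assoc] }
  refine linKer_of_rep ρ ?_
  intro g
  rw [Subgroup.mem_bot]
  constructor
  · intro h
    have h1 := congrArg (fun F : Module.End K (Γ → K) =>
      F (fun q => if q = g then (1 : K) else 0) 1) h
    have h2 : (if (1 : Γ) * g = g then (1 : K) else 0) = if (1 : Γ) = g then 1 else 0 := h1
    rw [one_mul, if_pos rfl] at h2
    by_contra hne
    rw [if_neg (Ne.symm hne)] at h2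
    exact one_ne_zero h2
  · rintro rfl
    exact map_one ρ

theorem linKer_of_finiteIndex (N : Subgroup Γ) [N.Normal] [N.FiniteIndex] : LinKer K N := by
  have h1 : LinKer K (⊥ : Subgroup (Γ ⧸ N)) := linKer_bot_of_finite
  have h2 := h1.comap (QuotientGroup.mk' N)
  rwa [MonoidHom.comap_bot, QuotientGroup.ker_mk'] at h2

theorem isLinear_of_linKer_bot {Γ : Type*} [Group Γ] {K : Type} [Field K]
    (h : LinKer K (⊥ : Subgroup Γ)) : IsLinearGroup Γ := by
  obtain ⟨n, φ, hφ⟩ := h
  exact ⟨K, inferInstance, n, φ, (MonoidHom.ker_eq_bot_iff φ).mp hφ⟩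

/-- extension of scalars -/
theorem LinKer.map_field {L : Type*} [Field L] (f : K →+* L) {N : Subgroup Γ}
    (h : LinKer K N) : LinKer L N := by
  obtain ⟨n, φ, hφ⟩ := h
  refine ⟨n, (Matrix.GeneralLinearGroup.map f).comp φ, ?_⟩
  rw [← hφ]
  ext g
  rw [MonoidHom.mem_ker, MonoidHom.mem_ker, MonoidHom.comp_apply]
  constructor
  · intro h
    apply Units.ext
    ext i j
    have h1 := congrArg (fun u : Matrix.GeneralLinearGroup (Fin n) L =>
      (u : Matrix (Fin n) (Fin n) L) i j) h
    have h2 : f ((φ g : Matrix (Fin n) (Fin n) K) i j) = (1 : Matrix (Fin n) (Fin n) L) i j := by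
      simpa using h1
    apply f.injective
    rw [h2]
    simp [Matrix.one_apply]
  · intro h
    rw [h, map_one]

end

section Conj

variable {G : Type*} [Group G] {K : Type*} [Field K]

/-- The quotient of a linear group by its centre is linear. -/
theorem linKer_center (h : LinKer K (⊥ : Subgroup G)) : LinKer K (Subgroup.center G) := by
  obtain ⟨n, ρ, hρ⟩ := h.exists_rep
  let A : Submodule K (Module.End K (Fin n → K)) := Submodule.span K (Set.range ρ)
  have hinv : ∀ g, ∀ T ∈ A, ρ g * T * ρ g⁻¹ ∈ A := by
    intro g T hT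
    induction hT using Submodule.span_induction with
    | mem x hx =>
      obtain ⟨h, rfl⟩ := hx
      rw [← map_mul, ← map_mul]
      exact Submodule.subset_span ⟨_, rfl⟩
    | zero => simp
    | add x y _ _ hx hy =>
      rw [mul_add, add_mul]
      exact A.add_mem hx hy
    | smul c x _ hx =>
      rw [mul_smul_comm, smul_mul_assoc]
      exact A.smul_mem c hx
  let σ : G →* Module.End K A :=
    { toFun := fun g =>
        { toFun := fun T => ⟨ρ g * T * ρ g⁻¹, hinv g T T.2⟩
          map_add' := by
            intro S T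
            apply Subtype.ext
            simp [mul_add, add_mul]
          map_smul' := by
            intro c T
            apply Subtype.ext
            simp }
      map_one' := by
        apply LinearMap.ext
        intro T
        apply Subtype.ext
        change ρ 1 * (T : Module.End K (Fin n → K)) * ρ 1⁻¹ = T
        simp
      map_mul' := by
        intro g h
        apply LinearMap.ext
        intro T
        apply Subtype.ext
        change ρ (g * h) * (T : Module.End K (Fin n → K)) * ρ (g * h)⁻¹ =
          ρ g * (ρ h * (T : Module.End K (Fin n → K)) * ρ h⁻¹) * ρ g⁻¹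
        rw [mul_inv_rev, map_mul, map_mul]
        simp only [mul_assoc] }
  refine linKer_of_rep (V := A) σ ?_
  intro g
  rw [Subgroup.mem_center_iff]
  constructor
  · intro h x
    have h1 := congrArg (fun F : Module.End K A =>
      ((F ⟨ρ x, Submodule.subset_span ⟨x, rfl⟩⟩ : A) : Module.End K (Fin n → K))) h
    have h2 : ρ g * ρ x * ρ g⁻¹ = ρ x := h1
    rw [← map_mul, ← map_mul] at h2
    have h3 : ρ (g * x * g⁻¹ * x⁻¹) = 1 := by
      rw [map_mul, h2, ← map_mul]
      simp
    rw [hρ, Subgroup.mem_bot] at h3
    have h4 : g * x * g⁻¹ = x := mul_inv_eq_one.mp h3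
    exact (mul_inv_eq_iff_eq_mul.mp h4).symm
  · intro h
    apply LinearMap.ext
    intro T
    apply Subtype.ext
    change ρ g * (T : Module.End K (Fin n → K)) * ρ g⁻¹ = T
    have hT : ∀ T ∈ A, ρ g * T = T * ρ g := by
      intro T hT
      induction hT using Submodule.span_induction with
      | mem x hx =>
        obtain ⟨y, rfl⟩ := hx
        rw [← map_mul, ← map_mul, h y]
      | zero => simp
      | add x y _ _ hx hy => rw [mul_add, add_mul, hx, hy]
      | smul c x _ hx => rw [mul_smul_comm, smul_mul_assoc, hx]
    rw [hT T T.2, mul_assoc, ← map_mul]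
    simp

end Conj

section Trans

variable {G : Type*} [Group G] {K : Type*} [Field K]

/-- the span of right translates -/
def rightSpan (f : G → K) : Submodule K (G → K) :=
  Submodule.span K (Set.range fun q : G => fun p : G => f (p * q))

theorem rightSpan_finite {f : G → K} (hf : IsRep f) : FiniteDimensional K (rightSpan f) := by
  obtain ⟨ι, _, u, v, h⟩ := hf
  have hle : rightSpan f ≤ Submodule.span K (Set.range u) := by
    refine Submodule.span_le.mpr ?_
    rintro _ ⟨q, rfl⟩
    have : (fun p : G => f (p * q)) = ∑ i, v i q • u i := by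
      funext p
      simp [h, Finset.sum_apply, mul_comm]
    beta_reduce
    rw [this]
    exact Submodule.sum_mem _ fun i _ =>
      Submodule.smul_mem _ _ (Submodule.subset_span ⟨i, rfl⟩)
  have : FiniteDimensional K (Submodule.span K (Set.range u)) :=
    FiniteDimensional.span_of_finite K (Set.finite_range u)
  exact Submodule.finiteDimensional_of_le hle

theorem rightSpan_inv (f : G → K) (g : G) (h : G → K) (hh : h ∈ rightSpan f) :
    (fun p => h (p * g)) ∈ rightSpan f := by
  induction hh using Submodule.span_induction with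
  | mem x hx =>
    obtain ⟨q, rfl⟩ := hx
    have : (fun p => f (p * g * q)) = fun p => f (p * (g * q)) := by
      funext p; rw [mul_assoc]
    simp only
    rw [this]
    exact Submodule.subset_span ⟨g * q, rfl⟩
  | zero => exact Submodule.zero_mem _
  | add x y _ _ hx hy => exact Submodule.add_mem _ hx hy
  | smul c x _ hx => exact Submodule.smul_mem _ c hx

/-- right translation on the span of right translates -/
def rightRep (f : G → K) : G →* Module.End K (rightSpan f) where
  toFun g :=
    { toFun := fun h => ⟨fun p => (h : G → K) (p * g), rightSpan_inv f g h h.2⟩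
      map_add' := fun _ _ => rfl
      map_smul' := fun _ _ => rfl }
  map_one' := by
    apply LinearMap.ext
    intro h
    apply Subtype.ext
    funext p
    change (h : G → K) (p * 1) = h.1 p
    rw [mul_one]
  map_mul' x y := by
    apply LinearMap.ext
    intro h
    apply Subtype.ext
    funext p
    change (h : G → K) (p * (x * y)) = (h : G → K) (p * x * y)
    rw [mul_assoc]

/-- For a functional in `Phi`, there is a representation whose kernel meets `B` in the kernel of
the functional. -/
theorem linKer_of_Phi {B : Subgroup G} (hB : ∀ b ∈ B, ∀ g : G, b * g = g * b) {φ : B → K}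
    (hφ : φ ∈ Phi K B) : ∃ N : Subgroup G, LinKer K N ∧ ∀ b : B, (b : G) ∈ N ↔ φ b = 0 := by
  obtain ⟨s, hs, hsφ⟩ := hφ
  have hfin := rightSpan_finite hs
  let N : Subgroup G := (rightRep s).toHomUnits.ker
  have hN : ∀ g, rightRep s g = 1 ↔ g ∈ N := by
    intro g
    rw [MonoidHom.mem_ker]
    constructor
    · intro h
      apply Units.ext
      exact h
    · intro h
      exact congrArg (fun u : (Module.End K (rightSpan s))ˣ => (u : Module.End K (rightSpan s))) h
  refine ⟨N, linKer_of_rep (rightRep s) hN, ?_⟩
  intro b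
  rw [← hN]
  constructor
  · intro h
    have h1 := congrArg (fun F : Module.End K (rightSpan s) =>
      ((F ⟨fun p => s (p * 1), Submodule.subset_span ⟨1, rfl⟩⟩ : rightSpan s) : G → K) 1) h
    have h2 : s (1 * b * 1) = s (1 * 1) := h1
    rw [mul_one, mul_one, hsφ] at h2
    simpa using h2
  · intro h
    apply LinearMap.ext
    rintro ⟨F, hF⟩
    apply Subtype.ext
    funext p
    change F (p * b) = F p
    induction hF using Submodule.span_induction generalizing p with
    | mem x hx =>
      obtain ⟨q, rfl⟩ := hx
      beta_reduce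
      rw [mul_assoc, hB b b.2 q, ← mul_assoc, hsφ, h, add_zero]
    | zero => rfl
    | add x y _ _ hx hy => rw [Pi.add_apply, Pi.add_apply, hx, hy]
    | smul c x _ hx => rw [Pi.smul_apply, Pi.smul_apply, hx]

end Trans

end Pool.Agent.H56CQ
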