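import Mathlib

/-!
# Pure closure of a subgroup of a finitely generated central subgroup
-/

set_option autoImplicit false

namespace Pool.Agent.H56CQ

section

variable {G : Type*} [Group G]

/-- The elements of the central subgroup `B` having a positive power in `D`. -/
def pureClosure (B D : Subgroup G) (hB : ∀ b ∈ B, ∀ g : G, b * g = g * b) : Subgroup G where
  carrier := {x | x ∈ B ∧ ∃ n : ℕ, 1 ≤ n ∧ x ^ n ∈ D}
  one_mem' := ⟨B.one_mem, 1, le_rfl, by simp⟩
  mul_mem' := by
    rintro x y ⟨hx, n, hn, hxn⟩ ⟨hy, m, hm, hym⟩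
    refine ⟨B.mul_mem hx hy, n * m, Nat.mul_pos hn hm, ?_⟩
    have h1 : Commute x y := hB x hx y
    rw [h1.mul_pow, pow_mul, mul_comm n m, pow_mul]
    exact D.mul_mem (D.pow_mem hxn m) (D.pow_mem hym n)
  inv_mem' := by
    rintro x ⟨hx, n, hn, hxn⟩
    exact ⟨B.inv_mem hx, n, hn, by rw [inv_pow]; exact D.inv_mem hxn⟩

theorem mem_pureClosure {B D : Subgroup G} {hB : ∀ b ∈ B, ∀ g : G, b * g = g * b} {x : G} :
    x ∈ pureClosure B D hB ↔ x ∈ B ∧ ∃ n : ℕ, 1 ≤ n ∧ x ^ n ∈ D := Iff.rfl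

theorem le_pureClosure {B D : Subgroup G} (hB : ∀ b ∈ B, ∀ g : G, b * g = g * b) (hD : D ≤ B) :
    D ≤ pureClosure B D hB := fun x hx => ⟨hD hx, 1, le_rfl, by simpa using hx⟩

theorem pureClosure_le {B D : Subgroup G} (hB : ∀ b ∈ B, ∀ g : G, b * g = g * b) :
    pureClosure B D hB ≤ B := fun _ hx => hx.1

/-- the group structure on `B` is commutative -/
@[reducible] def commGroupOf (B : Subgroup G) (hB : ∀ b ∈ B, ∀ g : G, b * g = g * b) : CommGroup B :=
  { (inferInstance : Group B) with mul_comm := fun x y => Subtype.ext (hB x x.2 y) }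

theorem pureClosure_finite {B D : Subgroup G} (hB : ∀ b ∈ B, ∀ g : G, b * g = g * b)
    (hfg : B.FG) : ∃ R : Set G, R.Finite ∧ (∀ r ∈ R, r ∈ pureClosure B D hB) ∧
      ∀ x ∈ pureClosure B D hB, ∃ r ∈ R, ∃ d ∈ D, x = r * d := by
  classical
  let cg : CommGroup B := commGroupOf B hB
  have hfg' : Group.FG B := (Group.fg_iff_subgroup_fg B).mpr hfg
  have hM : Module.Finite ℤ (Additive B) :=
    Module.Finite.iff_addGroup_fg.mpr (GroupFG.iff_add_fg.mp hfg')
  let S : Submodule ℤ (Additive B) :=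
    AddSubgroup.toIntSubmodule (Subgroup.toAddSubgroup (D.subgroupOf B))
  have hS : ∀ x : B, (Additive.ofMul x : Additive B) ∈ S ↔ (x : G) ∈ D := by
    intro x
    rfl
  let T := Submodule.torsion ℤ (Additive B ⧸ S)
  have hT : Finite T := Module.finite_of_fg_torsion T Submodule.torsion_isTorsion
  let out : T → B := fun t => Additive.toMul (Quotient.out (t : Additive B ⧸ S))
  have hout : ∀ t : T, S.mkQ (Additive.ofMul (out t)) = t := by
    intro t
    exact Quotient.out_eq (t : Additive B ⧸ S)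
  have hcls : ∀ x : B, (x : G) ∈ pureClosure B D hB ↔
      S.mkQ (Additive.ofMul x) ∈ T := by
    intro x
    rw [mem_pureClosure, Submodule.mem_torsion_iff]
    constructor
    · rintro ⟨_, n, hn, hx⟩
      refine ⟨⟨(n : ℤ), ?_⟩, ?_⟩
      · rw [mem_nonZeroDivisors_iff_ne_zero]
        exact_mod_cast (by omega : n ≠ 0)
      · change (n : ℤ) • S.mkQ (Additive.ofMul x) = 0
        rw [← map_zsmul]
        rw [← LinearMap.mem_ker, Submodule.ker_mkQ]
        have : ((n : ℤ) • Additive.ofMul x) = Additive.ofMul (x ^ n) := by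
          rw [natCast_zsmul]
          rfl
        rw [this, hS]
        simpa using hx
    · rintro ⟨⟨n, hn⟩, h⟩
      refine ⟨x.2, n.natAbs, ?_, ?_⟩
      · have := mem_nonZeroDivisors_iff_ne_zero.mp hn
        exact Int.natAbs_pos.mpr this
      · have h1 : n • S.mkQ (Additive.ofMul x) = 0 := h
        have h2 : (n.natAbs : ℤ) • S.mkQ (Additive.ofMul x) = 0 := by
          rcases Int.natAbs_eq n with h3 | h3
          · rw [← h3]; exact h1
          · have h4 : (n.natAbs : ℤ) = -n := by omega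
            rw [h4, neg_smul, h1, neg_zero]
        rw [← map_zsmul, ← LinearMap.mem_ker, Submodule.ker_mkQ] at h2
        have : ((n.natAbs : ℤ) • Additive.ofMul x) = Additive.ofMul (x ^ n.natAbs) := by
          rw [natCast_zsmul]
          rfl
        rw [this, hS] at h2
        simpa using h2
  refine ⟨Set.range fun t : T => ((out t : B) : G), Set.finite_range _, ?_, ?_⟩
  · rintro _ ⟨t, rfl⟩
    rw [hcls, hout]
    exact t.2
  · intro x hx
    have hxB : x ∈ B := hx.1
    have h1 := (hcls ⟨x, hxB⟩).mp hx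
    refine ⟨_, ⟨⟨_, h1⟩, rfl⟩, ((out ⟨_, h1⟩)⁻¹ * ⟨x, hxB⟩ : B), ?_, ?_⟩
    · rw [← hS]
      have h2 := hout ⟨_, h1⟩
      have h3 : S.mkQ (Additive.ofMul ((out ⟨_, h1⟩)⁻¹ * ⟨x, hxB⟩ : B)) = 0 := by
        rw [ofMul_mul, ofMul_inv, map_add, map_neg, h2]
        simp
      rw [← LinearMap.mem_ker, Submodule.ker_mkQ] at h3
      exact h3
    · simp

end

end Pool.Agent.H56CQ
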