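import Pool.Agent.H56CQ.Descent
import Pool.Agent.H56CQ.LinKer
import Pool.Agent.H56CQ.Pure

/-!
# Characteristic zero: the quotient by a pure central subgroup is linear
-/

set_option autoImplicit false

namespace Pool.Agent.H56CQ

section

variable {G : Type*} [Group G]

/-- A point outside the pure closure is detected by a rational functional vanishing on `D`. -/
theorem exists_rat_functional {B D : Subgroup G} (hB : ∀ b ∈ B, ∀ g : G, b * g = g * b)
    (x : B) (hx : (x : G) ∉ pureClosure B D hB) :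
    ∃ ψ : B → ℚ, (∀ u v, ψ (u * v) = ψ u + ψ v) ∧
      (∀ b : B, (b : G) ∈ pureClosure B D hB → ψ b = 0) ∧ ψ x ≠ 0 := by
  let cg : CommGroup B := commGroupOf B hB
  let S : AddSubgroup (Additive B) :=
    Subgroup.toAddSubgroup ((pureClosure B D hB).subgroupOf B)
  have hS : ∀ y : B, (Additive.ofMul y : Additive B) ∈ S ↔ (y : G) ∈ pureClosure B D hB := by
    intro y
    rfl
  by_contra hcon
  push Not at hcon
  have h1 : ∀ ν : (Additive B ⧸ S) →+ ℚ, ν (QuotientAddGroup.mk' S (Additive.ofMul x)) = 0 := by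
    intro ν
    refine hcon (fun b => ν (QuotientAddGroup.mk' S (Additive.ofMul b))) ?_ ?_
    · intro u v
      rw [ofMul_mul, map_add, map_add]
    · intro b hb
      have : QuotientAddGroup.mk' S (Additive.ofMul b) = 0 := by
        rw [← AddMonoidHom.mem_ker, QuotientAddGroup.ker_mk', hS]
        exact hb
      rw [this, map_zero]
  obtain ⟨M, hM1, hM⟩ := torsion_of_hom_rat _ h1
  rw [← map_nsmul, ← AddMonoidHom.mem_ker, QuotientAddGroup.ker_mk'] at hM
  have h2 : (M • Additive.ofMul x : Additive B) = Additive.ofMul (x ^ M) := rfl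
  rw [h2, hS] at hM
  obtain ⟨_, n, hn, h3⟩ := hM
  apply hx
  refine ⟨x.2, M * n, Nat.mul_pos hM1 hn, ?_⟩
  rw [pow_mul]
  simpa using h3

end

section

variable {G : Type*} [Group G] {K : Type*} [Field K] [CharZero K]

/-- If all rational functionals on `B` are realised then the pure closure of every subgroup of
`B` is the kernel of a representation. -/
theorem linKer_assemble {B D : Subgroup G} (hB : ∀ b ∈ B, ∀ g : G, b * g = g * b)
    (hfg : B.FG)
    (hrat : ∀ ψ : B → ℚ, (∀ x y, ψ (x * y) = ψ x + ψ y) →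
      (fun b => ((ψ b : ℚ) : K)) ∈ Phi K B) (hlinB : LinKer K B) :
    LinKer K (pureClosure B D hB) := by
  classical
  have hfin := Phi_finite (K := K) B hfg
  let V0 : Submodule K (B → K) :=
    { carrier := {φ | ∀ b : B, (b : G) ∈ pureClosure B D hB → φ b = 0}
      add_mem' := by
        intro φ ψ h1 h2 b hb
        rw [Pi.add_apply, h1 b hb, h2 b hb, add_zero]
      zero_mem' := fun _ _ => rfl
      smul_mem' := by
        intro c φ h b hb
        rw [Pi.smul_apply, h b hb, smul_zero] }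
  let W : Submodule K (B → K) := Phi K B ⊓ V0
  have hfinW : FiniteDimensional K W := Submodule.finiteDimensional_of_le inf_le_left
  obtain ⟨m, b, φ, hφ, -, hdual⟩ := exists_dual_points (K := K) _ W hfinW le_rfl
  choose N hN1 hN2 using fun i => linKer_of_Phi hB (hφ i).1
  have hfinal : pureClosure B D hB = B ⊓ ⨅ i, N i := by
    apply le_antisymm
    · refine le_inf (pureClosure_le hB) (le_iInf fun i => ?_)
      intro x hx
      have hxB : x ∈ B := hx.1
      exact (hN2 i ⟨x, hxB⟩).mpr ((hφ i).2 ⟨x, hxB⟩ hx)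
    · intro x hx
      obtain ⟨hxB, hxN⟩ := Subgroup.mem_inf.mp hx
      rw [Subgroup.mem_iInf] at hxN
      by_contra hcon
      obtain ⟨ψ, hψ1, hψ2, hψ3⟩ := exists_rat_functional hB ⟨x, hxB⟩ hcon
      have h1 : (fun b => ((ψ b : ℚ) : K)) ∈ W := by
        refine ⟨hrat ψ hψ1, ?_⟩
        intro b hb
        beta_reduce
        rw [hψ2 b hb, Rat.cast_zero]
      have h2 := hdual _ h1 ⟨x, hxB⟩
      beta_reduce at h2
      rw [Finset.sum_eq_zero] at h2
      · exact hψ3 (by exact_mod_cast h2)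
      · intro i _
        rw [(hN2 i ⟨x, hxB⟩).mp (hxN i), mul_zero]
  rw [hfinal]
  exact hlinB.inf (linKer_iInf N hN1)

end

section

variable {G : Type*} [Group G] {K : Type} [Field K] [CharZero K] [IsAlgClosed K]

theorem linKer_pureClosure {B D : Subgroup G} (hB : ∀ b ∈ B, ∀ g : G, b * g = g * b)
    (hfg : B.FG) {F1 : Subgroup G} (hF1 : ∀ g ∈ F1, ∃ N : ℕ, 1 ≤ N ∧ g ^ N = 1)
    (hlin : LinKer K F1) (hlinB : LinKer K B) :
    LinKer K (pureClosure B D hB) := by
  obtain ⟨n, ρ, hρ⟩ := hlin.exists_rep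
  have hρ' : ∀ g, ρ g = 1 → ∃ N : ℕ, 1 ≤ N ∧ g ^ N = 1 := fun g hg =>
    hF1 g ((hρ g).mp hg)
  exact linKer_assemble hB hfg (fun ψ hψ => rat_mem_Phi hB hfg ρ hρ' ψ hψ) hlinB

end

end Pool.Agent.H56CQ
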