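import Pool.Agent.H56CQ.Quot

/-!
# The version relative to a central subgroup with linear quotient
-/

set_option autoImplicit false

namespace Pool.Agent.H56CQ

/-- Two fields of characteristic zero embed in a common algebraically closed field. -/
theorem exists_common_field (k K : Type) [Field k] [Field K] [CharZero k] [CharZero K] :
    ∃ (L : Type) (_ : Field L) (_ : CharZero L) (_ : IsAlgClosed L), Nonempty (k →+* L) ∧
      Nonempty (K →+* L) := by
  let T := TensorProduct ℚ k K
  have hT : Nontrivial T := inferInstance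
  obtain ⟨m, hm⟩ := Ideal.exists_maximal T
  obtain ⟨F, _, π⟩ : ∃ (F : Type) (_ : Field F), Nonempty (T →+* F) :=
    ⟨T ⧸ m, Ideal.Quotient.field m, ⟨Ideal.Quotient.mk m⟩⟩
  obtain ⟨π⟩ := π
  let f : k →+* F := π.comp (algebraMap k T)
  let g : K →+* F := π.comp (Algebra.TensorProduct.includeRight : K →ₐ[ℚ] T).toRingHom
  have hF : CharZero F := charZero_of_injective_ringHom f.injective
  exact ⟨AlgebraicClosure F, inferInstance,
    charZero_of_injective_algebraMap (algebraMap F (AlgebraicClosure F)).injective,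
    inferInstance, ⟨(algebraMap F (AlgebraicClosure F)).comp f⟩,
    ⟨(algebraMap F (AlgebraicClosure F)).comp g⟩⟩

section

variable {E : Type*} [Group E]

/-- All rational functionals are realised, for a group that is torsion-by-linear over some field
of positive characteristic. -/
theorem rat_mem_Phi_p {k : Type*} [Field k] [IsAlgClosed k] (p : ℕ) [Fact p.Prime] [CharP k p]
    {K : Type*} [Field K] [CharZero K]
    {B : Subgroup E} (hB : ∀ b ∈ B, ∀ g : E, b * g = g * b) (hfg : B.FG)
    {F1 : Subgroup E} (hF1 : ∀ g ∈ F1, ∃ N : ℕ, 1 ≤ N ∧ g ^ N = 1) (hlin : LinKer k F1)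
    (ψ : B → ℚ) (hψ : ∀ x y, ψ (x * y) = ψ x + ψ y) :
    (fun b => ((ψ b : ℚ) : K)) ∈ Phi K B := by
  obtain ⟨n0, ρ, hρ⟩ := hlin.exists_rep
  let W : Submodule ℚ (B → ℚ) :=
    { carrier := {ψ | ∃ ν : E → ℚ, (∀ x y, ν (x * y) = ν x + ν y) ∧ ∀ b : B, ν b = ψ b}
      add_mem' := by
        rintro ψ ψ' ⟨ν, h1, h2⟩ ⟨ν', h1', h2'⟩
        refine ⟨fun g => ν g + ν' g, ?_, ?_⟩
        · intro x y
          simp only [h1, h1']
          ring
        · intro b
          simp only [h2, h2', Pi.add_apply]
      zero_mem' := ⟨fun _ => 0, by intro x y; simp, fun _ => rfl⟩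
      smul_mem' := by
        rintro c ψ ⟨ν, h1, h2⟩
        refine ⟨fun g => c * ν g, ?_, ?_⟩
        · intro x y
          simp only [h1]
          ring
        · intro b
          simp only [h2, Pi.smul_apply, smul_eq_mul] }
  have hW : ∀ φ ∈ W, ∀ b c, φ (b * c) = φ b + φ c := by
    rintro φ ⟨ν, h1, h2⟩ b c
    rw [← h2, ← h2, ← h2, Subgroup.coe_mul, h1]
  have hsep : ∀ y : B, (∀ θ ∈ W, θ y = 0) → ∃ M : ℕ, 1 ≤ M ∧ y ^ M = 1 := by
    intro y hy
    have H : ∀ ν : E → ℚ, (∀ x y, ν (x * y) = ν x + ν y) → ν y = 0 := by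
      intro ν hν
      exact hy (fun b => ν b) ⟨ν, hν, fun _ => rfl⟩
    obtain ⟨N, hN, h⟩ := detect_gen hB y
      (fun V _ _ _ _ ρ hs => detect_single_p p ρ y (det_torsion ρ y H) hs)
      _ (Fin n0 → k) le_rfl ρ
    rw [← map_pow] at h
    obtain ⟨M, hM, h2⟩ := hF1 _ ((hρ _).mp h)
    refine ⟨N * M, Nat.mul_pos hN hM, ?_⟩
    rw [← pow_mul] at h2
    exact Subtype.ext (by simpa using h2)
  obtain ⟨ν, hν1, hν2⟩ := additive_mem hB hfg W hW hsep ψ hψ
  refine ⟨fun g => ((ν g : ℚ) : K), IsRep.additive ?_, ?_⟩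
  · intro x y
    beta_reduce
    rw [hν1, Rat.cast_add]
  · intro g b
    beta_reduce
    rw [hν1, Rat.cast_add, hν2]

/-- **Relative version.** Let `A` be a finitely generated central subgroup of `E` with `E / A`
linear in characteristic zero, and suppose that `E` is torsion-by-linear over some field. Then
for every subgroup `D` of `A` the pure closure of `D` in `A` is the kernel of a representation in
characteristic zero. -/
theorem linKer_relative {A D : Subgroup E} (hA : ∀ b ∈ A, ∀ g : E, b * g = g * b) (hfg : A.FG)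
    {K : Type} [Field K] [CharZero K] (hlinA : LinKer K A)
    {k : Type} [Field k] {F1 : Subgroup E} (hF1 : ∀ g ∈ F1, ∃ N : ℕ, 1 ≤ N ∧ g ^ N = 1)
    (hlin : LinKer k F1) :
    ∃ (L : Type) (_ : Field L) (_ : CharZero L), LinKer L (pureClosure A D hA) := by
  obtain ⟨p, hp⟩ := CharP.exists k
  rcases CharP.char_is_prime_or_zero k p with h | h
  · have : Fact p.Prime := ⟨h⟩
    have hp' : CharP (AlgebraicClosure k) p :=
      charP_of_injective_algebraMap (algebraMap k (AlgebraicClosure k)).injective p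
    have hlin' : LinKer (AlgebraicClosure k) F1 :=
      hlin.map_field (algebraMap k (AlgebraicClosure k))
    exact ⟨K, inferInstance, inferInstance, linKer_assemble hA hfg
      (fun ψ hψ => rat_mem_Phi_p p hA hfg hF1 hlin' ψ hψ) hlinA⟩
  · subst h
    have : CharZero k := CharP.charP_to_charZero k
    obtain ⟨L, _, _, _, ⟨f⟩, ⟨g⟩⟩ := exists_common_field k K
    exact ⟨L, inferInstance, inferInstance,
      linKer_pureClosure hA hfg hF1 (hlin.map_field f) (hlinA.map_field g)⟩

end

end Pool.Agent.H56CQ
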