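import Pool.Agent.H56CQ.Quot

/-!
# Finitely generated linear groups are residually finite
-/

set_option autoImplicit false

namespace Pool.Agent.H56CQ

universe u

theorem isJacobsonRing_int : IsJacobsonRing ℤ := by
  rw [isJacobsonRing_iff_prime_eq]
  intro P hP
  by_cases h : P = ⊥
  · subst h
    rw [eq_bot_iff]
    intro x hx
    rw [Ideal.mem_jacobson_bot] at hx
    have h1 := hx x
    rw [Int.isUnit_iff] at h1
    rw [Ideal.mem_bot]
    rcases h1 with h1 | h1
    · nlinarith
    · nlinarith
  · have : P.IsMaximal := IsPrime.to_maximal_ideal h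
    exact Ideal.jacobson_eq_self_of_isMaximal

/-- A field that is finitely generated as a ring is finite. -/
theorem finite_field_of_finiteType (F : Type*) [Field F] [Algebra.FiniteType ℤ F] : Finite F := by
  have hJ := isJacobsonRing_int
  have hfin : Module.Finite ℤ F := finite_of_finite_type_of_isJacobsonRing ℤ F
  obtain ⟨p, hp⟩ := CharP.exists F
  rcases CharP.char_is_prime_or_zero F p with h | h
  · refine Module.finite_of_fg_torsion F ?_
    intro x
    refine ⟨⟨(p : ℤ), ?_⟩, ?_⟩
    · rw [mem_nonZeroDivisors_iff_ne_zero]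
      exact_mod_cast h.ne_zero
    · change (p : ℤ) • x = 0
      rw [zsmul_eq_mul, Int.cast_natCast, CharP.cast_eq_zero, zero_mul]
  · exfalso
    subst h
    have : CharZero F := CharP.charP_to_charZero F
    have hinj : Function.Injective (algebraMap ℤ F) := (algebraMap ℤ F).injective_int
    have hint : Algebra.IsIntegral ℤ F := Algebra.IsIntegral.of_finite ℤ F
    have hf : IsField ℤ := isField_of_isIntegral_of_isField hinj (Field.toIsField F)
    obtain ⟨y, hy⟩ := hf.mul_inv_cancel (a := 2) (by norm_num)
    omega

/-- A nonzero element of a finitely generated domain survives in a finite field. -/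
theorem exists_finite_field {R : Type u} [CommRing R] [IsDomain R] [Algebra.FiniteType ℤ R]
    (x : R) (hx : x ≠ 0) : ∃ (F : Type u) (_ : Field F) (_ : Finite F) (θ : R →+* F), θ x ≠ 0 := by
  let A := Localization.Away x
  have hA : Nontrivial A := by
    have : Function.Injective (algebraMap R A) :=
      IsLocalization.injective A (powers_le_nonZeroDivisors_of_noZeroDivisors hx)
    exact this.nontrivial
  have hfR : Algebra.FiniteType R A := IsLocalization.finiteType_of_monoid_fg (Submonoid.powers x) A
  obtain ⟨m, hm⟩ := Ideal.exists_maximal A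
  obtain ⟨F, _, π, hπ⟩ : ∃ (F : Type u) (_ : Field F) (π : A →+* F), Function.Surjective π :=
    ⟨A ⧸ m, Ideal.Quotient.field m, Ideal.Quotient.mk m, Ideal.Quotient.mk_surjective⟩
  have hfF : Algebra.FiniteType ℤ F := by
    have h1 : (algebraMap ℤ R).FiniteType := RingHom.finiteType_algebraMap.mpr inferInstance
    have h2 : (algebraMap R A).FiniteType := RingHom.finiteType_algebraMap.mpr hfR
    have h3 : π.FiniteType := RingHom.FiniteType.of_surjective π hπ
    have h4 := (h3.comp h2).comp h1
    have h5 : (π.comp (algebraMap R A)).comp (algebraMap ℤ R) = algebraMap ℤ F :=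
      Subsingleton.elim _ _
    rw [h5] at h4
    exact RingHom.finiteType_algebraMap.mp h4
  have hfin : Finite F := finite_field_of_finiteType F
  refine ⟨F, inferInstance, hfin, π.comp (algebraMap R A), ?_⟩
  have hu : IsUnit (algebraMap R A x) := IsLocalization.Away.algebraMap_isUnit x
  exact ((hu.map π).ne_zero)

open Matrix in
theorem rf_of_linear {Γ : Type*} [Group Γ] (hfg : Group.FG Γ) (hlin : IsLinearGroup Γ) :
    IsRF Γ := by
  classical
  obtain ⟨K, _, n, φ, hφ⟩ := hlin
  obtain ⟨S, hS⟩ := hfg
  let E : Set K := ⋃ s ∈ S, (Set.range fun p : Fin n × Fin n => (φ s : Matrix (Fin n) (Fin n) K) p.1 p.2) ∪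
      (Set.range fun p : Fin n × Fin n => (φ s⁻¹ : Matrix (Fin n) (Fin n) K) p.1 p.2)
  have hE : E.Finite := by
    refine Set.Finite.biUnion S.finite_toSet fun s _ => ?_
    exact (Set.finite_range _).union (Set.finite_range _)
  let R : Subalgebra ℤ K := Algebra.adjoin ℤ E
  have hR : Algebra.FiniteType ℤ R := by
    rw [← Subalgebra.fg_iff_finiteType]
    exact ⟨hE.toFinset, by simp [R]⟩
  have hmem : ∀ g : Γ, ∀ i j, (φ g : Matrix (Fin n) (Fin n) K) i j ∈ R := by
    intro g
    have hg : g ∈ Subgroup.closure (S : Set Γ) := by rw [hS]; exact Subgroup.mem_top g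
    suffices h : (∀ i j, (φ g : Matrix (Fin n) (Fin n) K) i j ∈ R) ∧
        (∀ i j, (φ g⁻¹ : Matrix (Fin n) (Fin n) K) i j ∈ R) from h.1
    induction hg using Subgroup.closure_induction with
    | mem x hx =>
      constructor
      · intro i j
        refine Algebra.subset_adjoin (Set.mem_biUnion hx (Or.inl ⟨(i, j), rfl⟩))
      · intro i j
        refine Algebra.subset_adjoin (Set.mem_biUnion hx (Or.inr ⟨(i, j), rfl⟩))
    | one =>
      constructor
      · intro i j
        rw [map_one, Units.val_one, Matrix.one_apply]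
        split_ifs
        · exact R.one_mem
        · exact R.zero_mem
      · intro i j
        rw [inv_one, map_one, Units.val_one, Matrix.one_apply]
        split_ifs
        · exact R.one_mem
        · exact R.zero_mem
    | mul x y _ _ h1 h2 =>
      constructor
      · intro i j
        rw [map_mul, Units.val_mul, Matrix.mul_apply]
        exact R.sum_mem fun k _ => R.mul_mem (h1.1 _ _) (h2.1 _ _)
      · intro i j
        rw [_root_.mul_inv_rev, map_mul, Units.val_mul, Matrix.mul_apply]
        exact R.sum_mem fun k _ => R.mul_mem (h2.2 _ _) (h1.2 _ _)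
    | inv x _ h1 =>
      exact ⟨h1.2, by rw [inv_inv]; exact h1.1⟩
  intro g hg
  have hne : (φ g : Matrix (Fin n) (Fin n) K) ≠ 1 := by
    intro h
    apply hg
    apply hφ
    rw [map_one]
    exact Units.ext h
  obtain ⟨i, j, hij⟩ : ∃ i j, (φ g : Matrix (Fin n) (Fin n) K) i j ≠ (1 : Matrix _ _ K) i j := by
    by_contra hcon
    push Not at hcon
    exact hne (Matrix.ext hcon)
  let M : Γ →* Matrix (Fin n) (Fin n) R :=
    { toFun := fun g => Matrix.of fun i j => ⟨(φ g : Matrix (Fin n) (Fin n) K) i j, hmem g i j⟩
      map_one' := by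
        ext i j
        simp only [Matrix.of_apply, map_one, Units.val_one]
        rw [Matrix.one_apply, Matrix.one_apply]
        split_ifs <;> rfl
      map_mul' := by
        intro x y
        ext i j
        simp [Matrix.mul_apply] }
  let x : R := M g i j - (1 : Matrix (Fin n) (Fin n) R) i j
  have hx : x ≠ 0 := by
    intro h
    apply hij
    have h1 : ((M g i j : R) : K) = (((1 : Matrix (Fin n) (Fin n) R) i j : R) : K) :=
      congrArg Subtype.val (sub_eq_zero.mp h)
    have h2 : (((1 : Matrix (Fin n) (Fin n) R) i j : R) : K) = (1 : Matrix _ _ K) i j := by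
      rw [Matrix.one_apply, Matrix.one_apply]
      split_ifs <;> rfl
    rw [h2] at h1
    exact h1
  obtain ⟨F, _, hF, θ, hθ⟩ := exists_finite_field x hx
  let ψ : Γ →* (Matrix (Fin n) (Fin n) F)ˣ :=
    ((θ.mapMatrix : Matrix (Fin n) (Fin n) R →+* Matrix (Fin n) (Fin n) F).toMonoidHom.comp
      M).toHomUnits
  have hfinM : Finite (Matrix (Fin n) (Fin n) F) := inferInstanceAs (Finite (Fin n → Fin n → F))
  have hfinU : Finite (Matrix (Fin n) (Fin n) F)ˣ := inferInstance
  refine ⟨ψ.ker, inferInstance, ?_, ?_⟩
  · exact Subgroup.finiteIndex_ker ψ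
  · intro h
    rw [MonoidHom.mem_ker] at h
    have h1 : θ (M g i j) = (1 : Matrix (Fin n) (Fin n) F) i j := by
      have := congrArg (fun u : (Matrix (Fin n) (Fin n) F)ˣ => (u : Matrix _ _ F) i j) h
      exact this
    apply hθ
    simp only [x, map_sub, h1]
    have h2 : θ ((1 : Matrix (Fin n) (Fin n) R) i j) = (1 : Matrix (Fin n) (Fin n) F) i j := by
      rw [Matrix.one_apply, Matrix.one_apply]
      split_ifs <;> simp
    rw [h2, sub_self]

end Pool.Agent.H56CQ
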