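import Pool.Agent.H56CQ.Crit

/-!
# Families of factors
-/

set_option autoImplicit false

namespace Pool.Agent.H56CQ

section

variable {E : Type} [Group E]

theorem lin_res_iff : IsLinearGroup (E ⧸ Res E) ↔
    ∃ (K : Type) (_ : Field K), LinKer K (Res E) := by
  constructor
  · rintro ⟨k, _, m, φ, hφ⟩
    have h1 : LinKer k (⊥ : Subgroup (E ⧸ Res E)) :=
      ⟨m, φ, (MonoidHom.ker_eq_bot_iff φ).mpr hφ⟩
    have h3 := h1.comap (QuotientGroup.mk' (Res E))
    rw [MonoidHom.comap_bot, QuotientGroup.ker_mk'] at h3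
    exact ⟨k, inferInstance, h3⟩
  · rintro ⟨K, _, h⟩
    have h5 := h.map_surj (QuotientGroup.mk' (Res E)) (QuotientGroup.mk'_surjective _)
      (by rw [QuotientGroup.ker_mk'])
    have h6 : (Res E).map (QuotientGroup.mk' (Res E)) = ⊥ := by
      rw [eq_bot_iff]
      rintro _ ⟨x, hx, rfl⟩
      rw [Subgroup.mem_bot]
      exact (QuotientGroup.eq_one_iff x).mpr hx
    rw [h6] at h5
    exact isLinear_of_linKer_bot h5

theorem res_comap_equiv {F : Type} [Group F] (e : E ≃* F) :
    (Res F).comap e.toMonoidHom = Res E := by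
  ext x
  rw [Subgroup.mem_comap, mem_res, mem_res]
  constructor
  · intro h N h1 h2
    have hfi : (N.comap e.symm.toMonoidHom).FiniteIndex := finiteIndex_comap _ N
    have h3 := h (N.comap e.symm.toMonoidHom) (h1.comap _) hfi
    rw [Subgroup.mem_comap] at h3
    simpa using h3
  · intro h N h1 h2
    have hfi : (N.comap e.toMonoidHom).FiniteIndex := finiteIndex_comap _ N
    exact h (N.comap e.toMonoidHom) (h1.comap _) hfi

theorem lin_res_equiv {F : Type} [Group F] (e : E ≃* F) :
    IsLinearGroup (E ⧸ Res E) ↔ IsLinearGroup (F ⧸ Res F) := by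
  rw [lin_res_iff, lin_res_iff]
  constructor
  · rintro ⟨K, _, h⟩
    refine ⟨K, inferInstance, ?_⟩
    rw [← res_comap_equiv e.symm]
    exact h.comap _
  · rintro ⟨K, _, h⟩
    refine ⟨K, inferInstance, ?_⟩
    rw [← res_comap_equiv e]
    exact h.comap _

/-- commuting subgroups generating the group are normal -/
theorem normal_of_commute_sup {N M : Subgroup E} (h : ∀ x ∈ M, ∀ y ∈ N, x * y = y * x)
    (htop : M ⊔ N = ⊤) : N.Normal := by
  constructor
  intro n hn g
  have hg : g ∈ M ⊔ N := by rw [htop]; trivial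
  have key : ∀ g ∈ M ⊔ N, ∀ n ∈ N, g * n * g⁻¹ ∈ N := by
    intro g hg
    rw [Subgroup.sup_eq_closure] at hg
    induction hg using Subgroup.closure_induction with
    | mem x hx =>
      intro n hn
      rcases hx with hx | hx
      · rw [h x hx n hn, mul_inv_cancel_right]
        exact hn
      · exact N.mul_mem (N.mul_mem hx hn) (N.inv_mem hx)
    | one =>
      intro n hn
      simpa using hn
    | mul x y _ _ h1 h2 =>
      intro n hn
      have h3 := h1 _ (h2 n hn)
      have e : x * (y * n * y⁻¹) * x⁻¹ = x * y * n * (x * y)⁻¹ := by group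
      rwa [e] at h3
    | inv x hx h1 =>
      intro n hn
      -- use that `x` normalises `N`: write `n = x n' x⁻¹`
      have hx2 : x ∈ M ⊔ N := by rw [htop]; trivial
      obtain ⟨m, hm, y, hy, rfl⟩ : ∃ m ∈ M, ∃ y ∈ N, m * y = x := by
        have hx3 : x ∈ Subgroup.closure ((M : Set E) ∪ N) := hx
        clear h1 hx hx2
        induction hx3 using Subgroup.closure_induction with
        | mem x hx =>
          rcases hx with hx | hx
          · exact ⟨x, hx, 1, N.one_mem, mul_one x⟩
          · exact ⟨1, M.one_mem, x, hx, one_mul x⟩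
        | one => exact ⟨1, M.one_mem, 1, N.one_mem, mul_one 1⟩
        | mul x y _ _ h1 h2 =>
          obtain ⟨m, hm, n, hn, rfl⟩ := h1
          obtain ⟨m', hm', n', hn', rfl⟩ := h2
          refine ⟨m * m', M.mul_mem hm hm', n * n', N.mul_mem hn hn', ?_⟩
          have e := h m' hm' n hn
          calc m * m' * (n * n') = m * (m' * n) * n' := by group
            _ = m * (n * m') * n' := by rw [e]
            _ = m * n * (m' * n') := by group
        | inv x _ h1 =>
          obtain ⟨m, hm, n, hn, rfl⟩ := h1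
          refine ⟨m⁻¹, M.inv_mem hm, n⁻¹, N.inv_mem hn, ?_⟩
          rw [mul_inv_rev]
          exact h _ (M.inv_mem hm) _ (N.inv_mem hn)
      have e : (m * y)⁻¹ * n * (m * y)⁻¹⁻¹ = y⁻¹ * (m⁻¹ * n * m) * y := by group
      rw [e]
      have e2 : m⁻¹ * n * m = n := by
        rw [h _ (M.inv_mem hm) n hn, inv_mul_cancel_right]
      rw [e2]
      exact N.mul_mem (N.mul_mem (N.inv_mem hy) hn) hy
  exact key g hg n hn

end

section

/-- **Finite families of commuting factors.** -/
theorem family_iff (k : ℕ) : ∀ {E : Type} [Group E] (_ : Group.FG E) {A : Subgroup E}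
    (_ : ∀ b ∈ A, ∀ g : E, b * g = g * b) (_ : A.FG) {K : Type} [Field K] [CharZero K]
    (_ : LinKer K A) (M : Fin k → Subgroup E)
    (_ : ∀ i j, i ≠ j → ∀ x ∈ M i, ∀ y ∈ M j, x * y = y * x) (_ : iSupIndep M)
    (_ : (⨆ i, M i) = ⊤),
    (IsLinearGroup (E ⧸ Res E) ↔ ∀ i, IsLinearGroup (M i ⧸ Res (M i))) := by
  induction k with
  | zero =>
    intro E _ hE A hA hfg K _ _ hlinA M hcomm hind htop
    have h1 : (⊥ : Subgroup E) = ⊤ := by rw [← htop, iSup_of_empty]
    refine ⟨fun _ i => i.elim0, fun _ => ?_⟩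
    rw [lin_res_iff]
    refine ⟨ℚ, inferInstance, ?_⟩
    have h2 : Res E = ⊤ := by
      rw [eq_top_iff, ← h1]
      exact bot_le
    rw [h2]
    exact linKer_top
  | succ k ih =>
    intro E _ hE A hA hfg K _ _ hlinA M hcomm hind htop
    let M' : Subgroup E := ⨆ i : Fin k, M i.succ
    have hsup : M 0 ⊔ M' = ⊤ := by
      rw [eq_top_iff, ← htop]
      refine iSup_le fun i => ?_
      refine Fin.cases le_sup_left (fun j => ?_) i
      exact (le_iSup (fun i : Fin k => M i.succ) j).trans le_sup_right
    have hdisj : M 0 ⊓ M' = ⊥ := by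
      have h1 := hind 0
      rw [disjoint_iff] at h1
      rw [eq_bot_iff, ← h1]
      refine inf_le_inf_left _ (iSup_le fun j => ?_)
      exact le_iSup₂ (f := fun (j : Fin (k + 1)) (_ : j ≠ 0) => M j) j.succ (Fin.succ_ne_zero j)
    have hcomm' : ∀ x ∈ M 0, ∀ y ∈ M', x * y = y * x := by
      intro x hx y hy
      have hle : M' ≤ Subgroup.centralizer (M 0 : Set E) := by
        refine iSup_le fun j => ?_
        intro z hz
        rw [Subgroup.mem_centralizer_iff]
        intro w hw
        exact hcomm 0 j.succ (Fin.succ_ne_zero j).symm w hw z hz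
      exact (Subgroup.mem_centralizer_iff.mp (hle hy)) x hx
    have hn1 : M'.Normal := normal_of_commute_sup hcomm' hsup
    have hn0 : (M 0).Normal := normal_of_commute_sup
      (fun x hx y hy => (hcomm' y hy x hx).symm) (by rw [sup_comm]; exact hsup)
    have hfi : (M 0 ⊔ M').FiniteIndex := by rw [hsup]; infer_instance
    have hfi' : (M' ⊔ M 0).FiniteIndex := by rw [sup_comm]; exact hfi
    rw [prod_iff hE hA hfg hlinA hdisj]
    have hdisj' : M' ⊓ M 0 = ⊥ := by rw [inf_comm]; exact hdisj
    have hM'fg : Group.FG M' := fg_split hE hdisj'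
    have hle : ∀ j : Fin k, M j.succ ≤ M' := fun j => le_iSup (fun i : Fin k => M i.succ) j
    have h2 := ih (E := M') hM'fg (A := A.subgroupOf M')
      (fun b hb g => Subtype.ext (hA b hb g)) (fg_subgroupOf hA hfg) (hlinA.comap M'.subtype)
      (fun j => (M j.succ).subgroupOf M')
      (by
        intro i j hij x hx y hy
        exact Subtype.ext (hcomm i.succ j.succ (fun h => hij (Fin.succ_injective _ h)) x hx y hy))
      (by
        intro j
        rw [disjoint_iff, eq_bot_iff]
        rintro x ⟨hx1, hx2⟩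
        have h3 := hind j.succ
        rw [disjoint_iff] at h3
        have h4 : (x : E) ∈ M j.succ ⊓ ⨆ (i : Fin (k + 1)) (_ : i ≠ j.succ), M i := by
          refine Subgroup.mem_inf.mpr ⟨hx1, ?_⟩
          have h5 : (⨆ (i : Fin k) (_ : i ≠ j), (M i.succ).subgroupOf M') ≤
              (⨆ (i : Fin (k + 1)) (_ : i ≠ j.succ), M i).subgroupOf M' := by
            refine iSup₂_le fun i hi => ?_
            refine Subgroup.comap_mono ?_
            exact le_iSup₂ (f := fun (i : Fin (k + 1)) (_ : i ≠ j.succ) => M i) i.succ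
              (fun h => hi (Fin.succ_injective _ h))
          exact h5 hx2
        rw [h3, Subgroup.mem_bot] at h4
        exact Subtype.ext h4)
      (by
        rw [eq_top_iff]
        intro x _
        have h3 : (⨆ j : Fin k, ((M j.succ).subgroupOf M').map M'.subtype) = M' := by
          have h4 : ∀ j : Fin k, ((M j.succ).subgroupOf M').map M'.subtype = M j.succ := by
            intro j
            rw [Subgroup.subgroupOf_map_subtype, inf_eq_left.mpr (hle j)]
          simp only [h4]
          rfl
        rw [← Subgroup.map_iSup] at h3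
        have h5 : (x : E) ∈ (⨆ j : Fin k, (M j.succ).subgroupOf M').map M'.subtype := by
          rw [h3]
          exact x.2
        obtain ⟨y, hy, hyx⟩ := h5
        have : y = x := Subtype.ext hyx
        rwa [← this])
    rw [h2]
    have h3 : ∀ j : Fin k, (IsLinearGroup (((M j.succ).subgroupOf M') ⧸
        Res ((M j.succ).subgroupOf M')) ↔ IsLinearGroup (M j.succ ⧸ Res (M j.succ))) := fun j =>
      lin_res_equiv (Subgroup.subgroupOfEquivOfLe (hle j))
    constructor
    · rintro ⟨h4, h5⟩ i
      refine Fin.cases h4 (fun j => ?_) i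
      exact (h3 j).mp (h5 j)
    · intro h4
      exact ⟨h4 0, fun j => (h3 j).mpr (h4 j.succ)⟩

end

end Pool.Agent.H56CQ
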