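import Pool.Agent.H56CQ.CharP

/-!
# Central quotients of linear groups
-/

set_option autoImplicit false

namespace Pool.Agent.H56CQ

section

variable {G : Type*} [Group G] {K : Type} [Field K] [IsAlgClosed K]

theorem linKer_pureClosure_any {B D : Subgroup G} (hB : ∀ b ∈ B, ∀ g : G, b * g = g * b)
    (hfg : B.FG) (hlin : LinKer K (⊥ : Subgroup G)) (hlinB : LinKer K B) :
    LinKer K (pureClosure B D hB) := by
  obtain ⟨p, hp⟩ := CharP.exists K
  rcases CharP.char_is_prime_or_zero K p with h | h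
  · have : Fact p.Prime := ⟨h⟩
    exact linKer_pureClosure_p p hB hfg hlin hlinB
  · subst h
    have : CharZero K := CharP.charP_to_charZero K
    exact linKer_pureClosure hB hfg (F1 := ⊥)
      (fun g hg => ⟨1, le_rfl, by rw [Subgroup.mem_bot.mp hg, one_pow]⟩) hlin hlinB

end

section

variable {Γ : Type*} [Group Γ]

/-- residually finite and finite-by-linear implies linear -/
theorem linKer_bot_of_rf {K : Type*} [Field K] (hrf : IsRF Γ) {F : Subgroup Γ}
    (hF : (F : Set Γ).Finite) (h : LinKer K F) : LinKer K (⊥ : Subgroup Γ) := by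
  classical
  have : Finite F := hF
  obtain ⟨m, ⟨e⟩⟩ := Finite.exists_equiv_fin F
  have hex : ∀ x : F, ∃ N : Subgroup Γ, LinKer K N ∧ ((x : Γ) ≠ 1 → (x : Γ) ∉ N) := by
    intro x
    by_cases hx : (x : Γ) = 1
    · exact ⟨⊤, linKer_top, fun h => absurd hx h⟩
    · obtain ⟨N, hN1, hN2, hN3⟩ := hrf x hx
      exact ⟨N, linKer_of_finiteIndex N, fun _ => hN3⟩
  choose N hN1 hN2 using hex
  have h1 : LinKer K (F ⊓ ⨅ i : Fin m, N (e.symm i)) :=
    h.inf (linKer_iInf _ fun i => hN1 _)
  have h2 : (F ⊓ ⨅ i : Fin m, N (e.symm i)) = ⊥ := by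
    rw [eq_bot_iff]
    intro x hx
    obtain ⟨hxF, hxN⟩ := Subgroup.mem_inf.mp hx
    rw [Subgroup.mem_iInf] at hxN
    by_contra hne
    have h3 := hxN (e ⟨x, hxF⟩)
    rw [Equiv.symm_apply_apply] at h3
    exact hN2 ⟨x, hxF⟩ (fun h => hne (Subgroup.mem_bot.mpr h)) h3
  rwa [h2] at h1

/-- descent of a representation along a surjection -/
theorem LinKer.map_surj {K : Type*} [Field K] {G : Type*} [Group G] (π : G →* Γ)
    (hπ : Function.Surjective π) {N : Subgroup G} (hN : LinKer K N) (hker : π.ker ≤ N) :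
    LinKer K (N.map π) := by
  obtain ⟨n, φ, hφ⟩ := hN
  let ψ : Γ →* Matrix.GeneralLinearGroup (Fin n) K :=
    (π.liftOfSurjective hπ) ⟨φ, by rw [hφ]; exact hker⟩
  have hψ : ∀ g, ψ (π g) = φ g := fun g =>
    π.liftOfRightInverse_comp_apply (Function.surjInv hπ) (Function.rightInverse_surjInv hπ)
      ⟨φ, by rw [hφ]; exact hker⟩ g
  refine ⟨n, ψ, ?_⟩
  ext x
  obtain ⟨g, rfl⟩ := hπ x
  rw [MonoidHom.mem_ker, hψ, ← MonoidHom.mem_ker, hφ]
  constructor
  · intro h
    exact Subgroup.mem_map_of_mem π h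
  · rintro ⟨y, hy, hyx⟩
    have h1 : y⁻¹ * g ∈ π.ker := by
      rw [MonoidHom.mem_ker, map_mul, map_inv, hyx, inv_mul_cancel]
    have h2 := N.mul_mem hy (hker h1)
    simpa using h2

end

section

variable {G Γ G1 : Type*} [Group G] [Group Γ] [Group G1]

/-- A central quotient of a finite-by-linear group with finitely generated centre is again
finite-by-linear. -/
theorem finite_by_linear {K : Type} [Field K] [IsAlgClosed K]
    (π : G →* Γ) (hπ : Function.Surjective π) (hcen : π.ker ≤ Subgroup.center G)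
    (f : G →* G1) (hf : Function.Surjective f) (hfin : (f.ker : Set G).Finite)
    (hlin : LinKer K (⊥ : Subgroup G1)) (hfg : (Subgroup.center G1).FG) :
    ∃ F : Subgroup Γ, (F : Set Γ).Finite ∧ LinKer K F := by
  classical
  have hB : ∀ b ∈ Subgroup.center G1, ∀ g : G1, b * g = g * b := fun b hb g =>
    (Subgroup.mem_center_iff.mp hb g).symm
  let D1 : Subgroup G1 := π.ker.map f
  have hD1 : D1 ≤ Subgroup.center G1 := by
    rintro _ ⟨d, hd, rfl⟩
    rw [Subgroup.mem_center_iff]
    intro x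
    obtain ⟨y, rfl⟩ := hf x
    rw [← map_mul, ← map_mul, Subgroup.mem_center_iff.mp (hcen hd) y]
  let P := pureClosure (Subgroup.center G1) D1 hB
  have hP : LinKer K P := linKer_pureClosure_any hB hfg hlin (linKer_center hlin)
  obtain ⟨R, hR1, hR2, hR3⟩ := pureClosure_finite (D := D1) hB hfg
  have hN : LinKer K (P.comap f) := hP.comap f
  have hker : π.ker ≤ P.comap f := by
    intro d hd
    rw [Subgroup.mem_comap]
    exact le_pureClosure hB hD1 (Subgroup.mem_map_of_mem f hd)
  refine ⟨(P.comap f).map π, ?_, hN.map_surj π hπ hker⟩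
  -- finiteness
  let lift : G1 → G := Function.surjInv hf
  have hlift : ∀ x, f (lift x) = x := Function.surjInv_eq hf
  refine ((hR1.prod hfin).image (fun p : G1 × G => π (lift p.1) * π p.2)).subset ?_
  rintro _ ⟨n, hn, rfl⟩
  obtain ⟨r, hr, d1, hd1, hnr⟩ := hR3 (f n) hn
  obtain ⟨d, hd, rfl⟩ := hd1
  refine ⟨(r, d⁻¹ * (lift r)⁻¹ * n), ⟨hr, ?_⟩, ?_⟩
  · change d⁻¹ * (lift r)⁻¹ * n ∈ f.ker
    rw [MonoidHom.mem_ker, map_mul, map_mul, map_inv, map_inv, hlift, hnr]
    group
  · have hd' : π d = 1 := hd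
    change π (lift r) * π (d⁻¹ * (lift r)⁻¹ * n) = π n
    rw [map_mul, map_mul, map_inv, map_inv, hd']
    group

/-- **Main algebraic theorem.** A residually finite central quotient of a finite-by-linear group
with finitely generated centre is linear. -/
theorem linear_of_rf_quotient (π : G →* Γ) (hπ : Function.Surjective π)
    (hcen : π.ker ≤ Subgroup.center G)
    (f : G →* G1) (hf : Function.Surjective f) (hfin : (f.ker : Set G).Finite)
    (hlin : IsLinearGroup G1) (hfg : (Subgroup.center G1).FG) (hrf : IsRF Γ) :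
    IsLinearGroup Γ := by
  obtain ⟨K, _, m, φ, hφ⟩ := hlin
  have h1 : LinKer K (⊥ : Subgroup G1) := ⟨m, φ, (MonoidHom.ker_eq_bot_iff φ).mpr hφ⟩
  have h2 : LinKer (AlgebraicClosure K) (⊥ : Subgroup G1) :=
    h1.map_field (algebraMap K (AlgebraicClosure K))
  obtain ⟨F, hF1, hF2⟩ := finite_by_linear π hπ hcen f hf hfin h2 hfg
  exact isLinear_of_linKer_bot (linKer_bot_of_rf hrf hF1 hF2)

end

end Pool.Agent.H56CQ
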