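import Mathlib

/-!
# Representative functions on a group, and the filtration by degree along a central subgroup
-/

set_option autoImplicit false

namespace Pool.Agent.H56CQ

open Finset

section Rep

variable {G : Type*} {K : Type*} [Group G] [Field K]

/-- A function on a group is representative when it comes from a finite rank kernel. -/
def IsRep (f : G → K) : Prop :=
  ∃ (ι : Type) (_ : Fintype ι) (u v : ι → G → K), ∀ x y, f (x * y) = ∑ i, u i x * v i y

theorem IsRep.const (c : K) : IsRep (fun _ : G => c) :=
  ⟨Unit, inferInstance, fun _ _ => c, fun _ _ => 1, by intro x y; simp⟩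

theorem IsRep.add {f g : G → K} (hf : IsRep f) (hg : IsRep g) : IsRep (fun x => f x + g x) := by
  obtain ⟨ι, _, u, v, h⟩ := hf
  obtain ⟨κ, _, u', v', h'⟩ := hg
  refine ⟨ι ⊕ κ, inferInstance, Sum.elim u u', Sum.elim v v', ?_⟩
  intro x y
  simp [h, h']

theorem IsRep.mul {f g : G → K} (hf : IsRep f) (hg : IsRep g) : IsRep (fun x => f x * g x) := by
  obtain ⟨ι, _, u, v, h⟩ := hf
  obtain ⟨κ, _, u', v', h'⟩ := hg
  refine ⟨ι × κ, inferInstance, fun p x => u p.1 x * u' p.2 x, fun p x => v p.1 x * v' p.2 x, ?_⟩
  intro x y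
  beta_reduce
  rw [h, h', Finset.sum_mul_sum, Fintype.sum_prod_type]
  refine Finset.sum_congr rfl fun i _ => Finset.sum_congr rfl fun j _ => ?_
  ring

theorem IsRep.smul {f : G → K} (c : K) (hf : IsRep f) : IsRep (fun x => c * f x) :=
  (IsRep.const c).mul hf

theorem IsRep.neg {f : G → K} (hf : IsRep f) : IsRep (fun x => - f x) := by
  have := hf.smul (-1)
  simpa using this

theorem IsRep.sub {f g : G → K} (hf : IsRep f) (hg : IsRep g) : IsRep (fun x => f x - g x) := by
  simpa [sub_eq_add_neg] using hf.add hg.neg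

theorem IsRep.sum {α : Type*} (s : Finset α) {f : α → G → K} (hf : ∀ a ∈ s, IsRep (f a)) :
    IsRep (fun x => ∑ a ∈ s, f a x) := by
  classical
  induction s using Finset.induction_on with
  | empty => simpa using IsRep.const (G := G) (0 : K)
  | insert a s ha ih =>
    have h1 := (hf a (Finset.mem_insert_self a s)).add
      (ih fun b hb => hf b (Finset.mem_insert_of_mem hb))
    simpa [Finset.sum_insert ha] using h1

theorem IsRep.left {f : G → K} (q : G) (hf : IsRep f) : IsRep (fun x => f (q * x)) := by
  obtain ⟨ι, _, u, v, h⟩ := hf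
  refine ⟨ι, inferInstance, fun i x => u i (q * x), v, ?_⟩
  intro x y
  beta_reduce
  rw [← mul_assoc, h]

theorem IsRep.right {f : G → K} (q : G) (hf : IsRep f) : IsRep (fun x => f (x * q)) := by
  obtain ⟨ι, _, u, v, h⟩ := hf
  refine ⟨ι, inferInstance, u, fun i x => v i (x * q), ?_⟩
  intro x y
  beta_reduce
  rw [mul_assoc, h]

theorem IsRep.inv {f : G → K} (hf : IsRep f) : IsRep (fun x => f x⁻¹) := by
  obtain ⟨ι, _, u, v, h⟩ := hf
  refine ⟨ι, inferInstance, fun i x => v i x⁻¹, fun i x => u i x⁻¹, ?_⟩
  intro x y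
  beta_reduce
  rw [mul_inv_rev, h]
  exact Finset.sum_congr rfl fun i _ => mul_comm _ _

theorem IsRep.additive {f : G → K} (hf : ∀ x y, f (x * y) = f x + f y) : IsRep f := by
  refine ⟨Bool, inferInstance, fun b x => if b then f x else 1,
    fun b x => if b then 1 else f x, ?_⟩
  intro x y
  simp [hf]

theorem IsRep.ringHom {f : G → K} (τ : K →+* K) (hf : IsRep f) : IsRep (fun x => τ (f x)) := by
  obtain ⟨ι, _, u, v, h⟩ := hf
  refine ⟨ι, inferInstance, fun i x => τ (u i x), fun i x => τ (v i x), ?_⟩
  intro x y
  simp [h, map_sum]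

/-- coefficients of a finite dimensional representation -/
theorem IsRep.coeff {V : Type*} [AddCommGroup V] [Module K V] [FiniteDimensional K V]
    (T : G → (V →ₗ[K] V)) (hT : ∀ x y, T (x * y) = T x ∘ₗ T y) (ξ : V →ₗ[K] K) (w : V) :
    IsRep (fun g => ξ (T g w)) := by
  let e := Module.finBasis K V
  refine ⟨Fin (Module.finrank K V), inferInstance, fun i x => ξ (T x (e i)),
    fun i y => e.repr (T y w) i, ?_⟩
  intro x y
  have h1 : T (x * y) w = T x (T y w) := by rw [hT]; rfl
  beta_reduce
  rw [h1]
  conv_lhs => rw [← e.sum_repr (T y w)]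
  simp only [map_sum, map_smul, smul_eq_mul]
  exact Finset.sum_congr rfl fun i _ => mul_comm _ _

/-- coefficients of a finite dimensional anti-representation -/
theorem IsRep.coeff_anti {V : Type*} [AddCommGroup V] [Module K V] [FiniteDimensional K V]
    (T : G → (V →ₗ[K] V)) (hT : ∀ x y, T (x * y) = T y ∘ₗ T x) (ξ : V →ₗ[K] K) (w : V) :
    IsRep (fun g => ξ (T g w)) := by
  let e := Module.finBasis K V
  refine ⟨Fin (Module.finrank K V), inferInstance, fun i x => e.repr (T x w) i,
    fun i y => ξ (T y (e i)), ?_⟩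
  intro x y
  have h1 : T (x * y) w = T y (T x w) := by rw [hT]; rfl
  beta_reduce
  rw [h1]
  conv_lhs => rw [← e.sum_repr (T x w)]
  simp only [map_sum, map_smul, smul_eq_mul]

/-- The span of the left translates of a function. -/
def leftSpan (f : G → K) : Submodule K (G → K) :=
  Submodule.span K (Set.range fun q : G => fun p : G => f (q * p))

theorem mem_leftSpan (f : G → K) (q : G) : (fun p : G => f (q * p)) ∈ leftSpan f :=
  Submodule.subset_span ⟨q, rfl⟩

theorem leftSpan_finite {f : G → K} (hf : IsRep f) : FiniteDimensional K (leftSpan f) := by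
  obtain ⟨ι, _, u, v, h⟩ := hf
  have hle : leftSpan f ≤ Submodule.span K (Set.range v) := by
    refine Submodule.span_le.mpr ?_
    rintro _ ⟨q, rfl⟩
    have : (fun p : G => f (q * p)) = ∑ i, u i q • v i := by
      funext p
      simp [h, Finset.sum_apply]
    beta_reduce
    rw [this]
    exact Submodule.sum_mem _ fun i _ =>
      Submodule.smul_mem _ _ (Submodule.subset_span ⟨i, rfl⟩)
  have : FiniteDimensional K (Submodule.span K (Set.range v)) :=
    FiniteDimensional.span_of_finite K (Set.finite_range v)
  exact Submodule.finiteDimensional_of_le hle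

theorem isRep_of_mem_leftSpan {f : G → K} (hf : IsRep f) {h : G → K} (hh : h ∈ leftSpan f) :
    IsRep h := by
  induction hh using Submodule.span_induction with
  | mem x hx =>
    obtain ⟨q, rfl⟩ := hx
    exact hf.left q
  | zero => exact IsRep.const 0
  | add x y _ _ hx hy => exact hx.add hy
  | smul c x _ hx => exact hx.smul c

/-- The translation operator on the span of left translates. -/
def leftOp (f : G → K) (q : G) : leftSpan f →ₗ[K] leftSpan f where
  toFun h := ⟨fun p => (h : G → K) (q * p), by
    obtain ⟨h, hh⟩ := h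
    change (fun p => h (q * p)) ∈ leftSpan f
    induction hh using Submodule.span_induction with
    | mem x hx =>
      obtain ⟨q', rfl⟩ := hx
      have : (fun p => f (q' * (q * p))) = fun p => f ((q' * q) * p) := by
        funext p; rw [mul_assoc]
      simp only
      rw [this]
      exact mem_leftSpan f _
    | zero => exact Submodule.zero_mem _
    | add x y _ _ hx hy => exact Submodule.add_mem _ hx hy
    | smul c x _ hx => exact Submodule.smul_mem _ c hx⟩
  map_add' _ _ := rfl
  map_smul' _ _ := rfl

theorem leftOp_apply (f : G → K) (q : G) (h : leftSpan f) (p : G) :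
    (leftOp f q h : G → K) p = (h : G → K) (q * p) := rfl

theorem leftOp_mul (f : G → K) (q q' : G) :
    leftOp f (q * q') = leftOp f q' ∘ₗ leftOp f q := by
  ext h p
  simp [leftOp_apply, mul_assoc]

end Rep

section Deg

variable {G : Type*} {K : Type*} [Group G] [Field K]

/-- Functions of degree `< k` along the subgroup `B`. -/
def Deg (B : Subgroup G) : ℕ → (G → K) → Prop
  | 0, f => ∀ g, f g = 0
  | (k + 1), f => ∀ b ∈ B, Deg B k (fun g => f (g * b) - f g)

variable {B : Subgroup G}

theorem Deg.congr {k : ℕ} {f g : G → K} (hf : Deg B k f) (h : ∀ x, f x = g x) : Deg B k g := by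
  have : f = g := funext h
  rwa [← this]

theorem Deg.zero (k : ℕ) : Deg B k (fun _ : G => (0 : K)) := by
  induction k with
  | zero => intro g; rfl
  | succ k ih => intro b _; simpa using ih

theorem Deg.add {k : ℕ} {f g : G → K} (hf : Deg B k f) (hg : Deg B k g) :
    Deg B k (fun x => f x + g x) := by
  induction k generalizing f g with
  | zero => intro x; simp [hf x, hg x]
  | succ k ih =>
    intro b hb
    refine (ih (hf b hb) (hg b hb)).congr ?_
    intro x; ring

theorem Deg.smul {k : ℕ} {f : G → K} (c : K) (hf : Deg B k f) : Deg B k (fun x => c * f x) := by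
  induction k generalizing f with
  | zero => intro x; simp [hf x]
  | succ k ih =>
    intro b hb
    refine (ih (hf b hb)).congr ?_
    intro x; ring

theorem Deg.neg {k : ℕ} {f : G → K} (hf : Deg B k f) : Deg B k (fun x => - f x) :=
  (hf.smul (-1)).congr fun x => by ring

theorem Deg.sub {k : ℕ} {f g : G → K} (hf : Deg B k f) (hg : Deg B k g) :
    Deg B k (fun x => f x - g x) :=
  (hf.add hg.neg).congr fun x => by ring

theorem Deg.sum {k : ℕ} {α : Type*} (s : Finset α) {f : α → G → K}
    (hf : ∀ a ∈ s, Deg B k (f a)) : Deg B k (fun x => ∑ a ∈ s, f a x) := by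
  classical
  induction s using Finset.induction_on with
  | empty => simpa using Deg.zero (G := G) (K := K) (B := B) k
  | insert a s ha ih =>
    have h1 := (hf a (Finset.mem_insert_self a s)).add
      (ih fun b hb => hf b (Finset.mem_insert_of_mem hb))
    simpa [Finset.sum_insert ha] using h1

theorem Deg.succ {k : ℕ} {f : G → K} (hf : Deg B k f) : Deg B (k + 1) f := by
  induction k generalizing f with
  | zero =>
    intro b _ x
    beta_reduce
    rw [hf, hf, sub_zero]
  | succ k ih =>
    intro b hb
    exact ih (hf b hb)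

theorem deg_one_iff {f : G → K} : Deg B 1 f ↔ ∀ b ∈ B, ∀ g, f (g * b) = f g := by
  constructor
  · intro h b hb g
    exact sub_eq_zero.mp (h b hb g)
  · intro h b hb g
    exact sub_eq_zero.mpr (h b hb g)

theorem Deg.left {k : ℕ} {f : G → K} (q : G) (hf : Deg B k f) : Deg B k (fun x => f (q * x)) := by
  induction k generalizing f with
  | zero => intro x; exact hf _
  | succ k ih =>
    intro b hb
    refine (ih (hf b hb)).congr ?_
    intro x
    simp only [mul_assoc]

/-- multiplication by an invariant function does not raise the degree -/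
theorem Deg.mul_inv {k : ℕ} {h f : G → K} (hh : ∀ b ∈ B, ∀ g, h (g * b) = h g)
    (hf : Deg B k f) : Deg B k (fun x => h x * f x) := by
  induction k generalizing f with
  | zero => intro x; simp [hf x]
  | succ k ih =>
    intro b hb
    refine (ih (hf b hb)).congr ?_
    intro x
    beta_reduce
    rw [hh b hb]; ring

end Deg

section Phi

variable {G : Type*} {K : Type*} [Group G] [Field K]

/-- The functionals on `B` that extend to equivariant representative functions. -/
def Phi (K : Type*) [Field K] (B : Subgroup G) : Submodule K (B → K) where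
  carrier := {φ | ∃ s : G → K, IsRep s ∧ ∀ (g : G) (b : B), s (g * b) = s g + φ b}
  add_mem' := by
    rintro φ ψ ⟨s, hs, h1⟩ ⟨t, ht, h2⟩
    refine ⟨fun x => s x + t x, hs.add ht, ?_⟩
    intro g b
    simp only [h1, h2, Pi.add_apply]
    ring
  zero_mem' := ⟨fun _ => 0, IsRep.const 0, by intro g b; simp⟩
  smul_mem' := by
    rintro c φ ⟨s, hs, h1⟩
    refine ⟨fun x => c * s x, hs.smul c, ?_⟩
    intro g b
    simp only [h1, Pi.smul_apply, smul_eq_mul]
    ring

theorem mem_Phi {B : Subgroup G} {φ : B → K} :
    φ ∈ Phi K B ↔ ∃ s : G → K, IsRep s ∧ ∀ (g : G) (b : B), s (g * b) = s g + φ b := Iff.rfl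

theorem Phi_mul {B : Subgroup G} {φ : B → K} (h : φ ∈ Phi K B) (b c : B) :
    φ (b * c) = φ b + φ c := by
  obtain ⟨s, _, hs⟩ := h
  have h1 := hs 1 (b * c)
  have h2 := hs (1 * b) c
  have h3 := hs 1 b
  have h4 : (1 : G) * ((b * c : B) : G) = 1 * b * c := by
    rw [Subgroup.coe_mul, mul_assoc]
  rw [h4, h2, h3] at h1
  have h5 : s 1 + (φ b + φ c) = s 1 + φ (b * c) := by rw [← h1]; ring
  exact (add_left_cancel h5).symm

theorem Phi_ringHom {B : Subgroup G} {φ : B → K} (τ : K →+* K) (h : φ ∈ Phi K B) :
    (fun b => τ (φ b)) ∈ Phi K B := by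
  obtain ⟨s, hr, hs⟩ := h
  exact ⟨fun x => τ (s x), hr.ringHom τ, fun g b => by simp [hs]⟩

/-- The Hopf module trick: values of first differences of functions of degree one are realised by
constants. -/
theorem hopf {B : Subgroup G} (hB : ∀ b ∈ B, ∀ g : G, b * g = g * b) {f : G → K} (hf : IsRep f)
    (hd : Deg B 2 f) (x : G) : (fun b : B => f (x * b) - f x) ∈ Phi K B := by
  classical
  have hfin := leftSpan_finite hf
  let L0 : Submodule K (leftSpan f) :=
    { carrier := {h | ∀ b ∈ B, ∀ g, (h : G → K) (g * b) = (h : G → K) g}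
      add_mem' := by
        intro h h' h1 h2 b hb g
        simp [h1 b hb g, h2 b hb g]
      zero_mem' := by intro b _ g; rfl
      smul_mem' := by
        intro c h h1 b hb g
        simp [h1 b hb g] }
  obtain ⟨C, hC⟩ := Submodule.exists_isCompl L0
  let π : leftSpan f →ₗ[K] leftSpan f := C.subtype ∘ₗ Submodule.projectionOnto C L0 hC.symm
  have hπ0 : ∀ h ∈ L0, π h = 0 := by
    intro h hh
    have : Submodule.projectionOnto C L0 hC.symm h = 0 := by
      rw [Submodule.projectionOnto_apply_eq_zero_iff]
      exact hh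
    simp [π, this]
  have hπ1 : ∀ h, h - π h ∈ L0 := by
    intro h
    have h2 : π (h - π h) = 0 := by
      have h3 : π (π h) = π h := by
        simp only [π, LinearMap.comp_apply, Submodule.subtype_apply]
        rw [Submodule.projectionOnto_apply_left]
      rw [map_sub, h3, sub_self]
    have h4 : Submodule.projectionOnto C L0 hC.symm (h - π h) = 0 := by
      apply Subtype.ext
      exact h2
    rwa [Submodule.projectionOnto_apply_eq_zero_iff] at h4
  let F : G → leftSpan f := fun q => ⟨fun p => f (q * p), mem_leftSpan f q⟩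
  have hF : ∀ q, F q = leftOp f q (F 1) := by
    intro q
    apply Subtype.ext
    funext p
    simp [F, leftOp_apply]
  -- translates by central elements change `F` by invariant functions
  have hFz : ∀ (q : G), ∀ b ∈ B, F (q * b) - F q ∈ L0 := by
    intro q b hb c hc g
    have h1 := hd b hb c hc (q * g)
    have e1 : q * b * (g * c) = q * g * c * b := by
      rw [← mul_assoc, mul_assoc q b g, hB b hb g, ← mul_assoc q g b, mul_assoc (q * g) b c,
        hB b hb c, ← mul_assoc]
    have e2 : q * b * g = q * g * b := by rw [mul_assoc, hB b hb g, mul_assoc]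
    simp only [F, AddSubgroupClass.coe_sub, Pi.sub_apply]
    rw [e1, e2, ← mul_assoc q g c]
    linear_combination h1
  refine ⟨fun p => (π (F (x * p⁻¹)) : G → K) p, ?_, ?_⟩
  · -- representative
    let e := Module.finBasis K (leftSpan f)
    have hexp : ∀ p, (π (F (x * p⁻¹)) : G → K) p =
        ∑ i, e.repr (F (x * p⁻¹)) i * (π (e i) : G → K) p := by
      intro p
      conv_lhs => rw [← e.sum_repr (F (x * p⁻¹))]
      simp only [map_sum, map_smul, Submodule.coe_sum, Submodule.coe_smul, Finset.sum_apply,
        Pi.smul_apply, smul_eq_mul]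
    have h2 : (fun p => (π (F (x * p⁻¹)) : G → K) p) =
        fun p => ∑ i, e.repr (F (x * p⁻¹)) i * (π (e i) : G → K) p := funext hexp
    rw [h2]
    refine IsRep.sum _ fun i _ => ?_
    refine IsRep.mul ?_ (isRep_of_mem_leftSpan hf (π (e i)).2)
    have h3 : IsRep (fun q : G => e.repr (F q) i) := by
      have h4 := IsRep.coeff_anti (leftOp f) (leftOp_mul f)
        (e.coord i) (F 1)
      have h5 : (fun q : G => e.repr (F q) i) = fun q => (e.coord i) (leftOp f q (F 1)) := by
        funext q
        rw [hF q]
        rfl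
      rw [h5]
      exact h4
    exact (h3.left x).inv
  · intro p b
    have hb := b.2
    have e1 : x * (p * (b : G))⁻¹ = x * p⁻¹ * ((b : G))⁻¹ := by
      rw [mul_inv_rev, ← hB (b : G)⁻¹ (B.inv_mem hb) p⁻¹ |>.symm, ← mul_assoc]
    have e2 : π (F (x * (p * (b : G))⁻¹)) = π (F (x * p⁻¹)) := by
      rw [e1]
      have h1 := hπ0 _ (hFz (x * p⁻¹) (b : G)⁻¹ (B.inv_mem hb))
      rw [map_sub] at h1
      exact sub_eq_zero.mp h1
    have h3 := hπ1 (F (x * p⁻¹)) (b : G) hb p
    simp only [AddSubgroupClass.coe_sub, Pi.sub_apply] at h3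
    have e3 : ((F (x * p⁻¹) : leftSpan f) : G → K) (p * b) = f (x * b) := by
      simp [F, ← mul_assoc]
    have e4 : ((F (x * p⁻¹) : leftSpan f) : G → K) p = f x := by
      simp [F]
    rw [e3, e4] at h3
    change (π (F (x * (p * (b : G))⁻¹)) : G → K) (p * b) = (π (F (x * p⁻¹)) : G → K) p + _
    rw [e2]
    linear_combination -h3

end Phi

end Pool.Agent.H56CQ
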