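import Pool.Agent.H56CQ.MainB
import Pool.Agent.H56CQ.Malcev

/-!
# The finite residual and central quotients
-/

set_option autoImplicit false

namespace Pool.Agent.H56CQ

section

variable {Γ : Type*} [Group Γ]

theorem isRF_iff_res : IsRF Γ ↔ Res Γ = ⊥ := by
  rw [eq_bot_iff]
  constructor
  · intro h g hg
    by_contra hne
    obtain ⟨N, h1, h2, h3⟩ := h g (fun h => hne (Subgroup.mem_bot.mpr h))
    exact h3 (mem_res.mp hg N h1 h2)
  · intro h g hg
    by_contra hcon
    push Not at hcon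
    exact hg (Subgroup.mem_bot.mp (h (mem_res.mpr fun N h1 h2 => hcon N h1 h2)))

theorem finiteIndex_comap {Q : Type*} [Group Q] (π : Γ →* Q) (N : Subgroup Q)
    [N.FiniteIndex] : (N.comap π).FiniteIndex := by
  constructor
  rw [Subgroup.index_comap]
  exact (inferInstance : (N.subgroupOf π.range).FiniteIndex).index_ne_zero

theorem res_le_ker {Q : Type*} [Group Q] (π : Γ →* Q) (hQ : IsRF Q) : Res Γ ≤ π.ker := by
  intro g hg
  by_contra hne
  obtain ⟨N, h1, h2, h3⟩ := hQ (π g) hne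
  exact h3 (mem_res.mp hg (N.comap π) (h1.comap π) (finiteIndex_comap π N))

theorem isRF_quot_res : IsRF (Γ ⧸ Res Γ) := by
  intro x hx
  obtain ⟨g, rfl⟩ := QuotientGroup.mk_surjective x
  have hg : g ∉ Res Γ := fun h => hx ((QuotientGroup.eq_one_iff g).mpr h)
  rw [mem_res] at hg
  push Not at hg
  obtain ⟨N, h1, h2, h3⟩ := hg
  have hle : Res Γ ≤ N := fun y hy => mem_res.mp hy N h1 h2
  have hcm : (N.map (QuotientGroup.mk' (Res Γ))).comap (QuotientGroup.mk' (Res Γ)) = N := by
    rw [Subgroup.comap_map_eq, QuotientGroup.ker_mk', sup_eq_left.mpr hle]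
  refine ⟨N.map (QuotientGroup.mk' (Res Γ)), h1.map _ (QuotientGroup.mk'_surjective _), ?_, ?_⟩
  · constructor
    rw [← Subgroup.index_comap_of_surjective _ (QuotientGroup.mk'_surjective (Res Γ)), hcm]
    exact h2.index_ne_zero
  · intro h
    apply h3
    rw [← hcm]
    exact h

/-- linear quotients of finitely generated groups contain the finite residual in the kernel -/
theorem res_le_of_linKer {K : Type} [Field K] (hfg : Group.FG Γ) {N : Subgroup Γ}
    (h : LinKer K N) : Res Γ ≤ N := by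
  obtain ⟨n, φ, hφ⟩ := h
  have h1 : Group.FG φ.range := Group.fg_of_surjective φ.rangeRestrict_surjective
  have h2 : IsRF φ.range := rf_of_linear h1 ⟨K, inferInstance, n, φ.range.subtype,
    Subtype.val_injective⟩
  have h3 := res_le_ker φ.rangeRestrict h2
  rwa [MonoidHom.ker_rangeRestrict, hφ] at h3

end

section

variable {E Γ : Type*} [Group E] [Group Γ]

/-- **Quotient theorem, relative version.** -/
theorem linKer_bot_quot {A : Subgroup E} (hA : ∀ b ∈ A, ∀ g : E, b * g = g * b) (hfg : A.FG)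
    {K : Type} [Field K] [CharZero K] (hlinA : LinKer K A)
    {k : Type} [Field k] {F1 : Subgroup E} (hF1 : ∀ g ∈ F1, ∃ N : ℕ, 1 ≤ N ∧ g ^ N = 1)
    (hlin : LinKer k F1) (π : E →* Γ) (hπ : Function.Surjective π) (hker : π.ker ≤ A)
    (hrf : IsRF Γ) :
    ∃ (L : Type) (_ : Field L) (_ : CharZero L), LinKer L (⊥ : Subgroup Γ) := by
  obtain ⟨L, _, hL, h1⟩ := linKer_relative (D := π.ker) hA hfg hlinA hF1 hlin
  have h2 := h1.map_surj π hπ (le_pureClosure hA hker)
  refine ⟨L, inferInstance, hL, linKer_bot_of_rf hrf ?_ h2⟩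
  obtain ⟨R, hR1, hR2, hR3⟩ := pureClosure_finite (D := π.ker) hA hfg
  refine (hR1.image π).subset ?_
  rintro _ ⟨x, hx, rfl⟩
  obtain ⟨r, hr, d, hd, hxr⟩ := hR3 x hx
  refine ⟨r, hr, ?_⟩
  have hd' : π d = 1 := hd
  rw [hxr, map_mul, hd', mul_one]

end

end Pool.Agent.H56CQ
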