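import Pool.Agent.H56CQ.Family

/-!
# Virtual semidirect products
-/

set_option autoImplicit false

namespace Pool.Agent.H56CQ

section

variable {E : Type} [Group E]

/-- the retraction of `M N` onto `M` -/
theorem exists_retraction {N M : Subgroup E} [N.Normal] (hMN : M ⊓ N = ⊥) :
    ∃ ret : (M ⊔ N : Subgroup E) →* M, ∀ x, ((ret x : E))⁻¹ * x ∈ N := by
  classical
  let j : M →* E ⧸ N := (QuotientGroup.mk' N).comp M.subtype
  have hj : Function.Injective j := by
    rw [injective_iff_map_eq_one]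
    intro m hm
    have h1 : (m : E) ∈ N := (QuotientGroup.eq_one_iff (m : E)).mp hm
    have h2 : (m : E) ∈ M ⊓ N := ⟨m.2, h1⟩
    rw [hMN] at h2
    exact Subtype.ext (Subgroup.mem_bot.mp h2)
  have hrange : ∀ x : (M ⊔ N : Subgroup E), ((x : E) : E ⧸ N) ∈ j.range := by
    rintro ⟨x, hx⟩
    obtain ⟨m, hm, n, hn, rfl⟩ := Subgroup.mem_sup_of_normal_right.mp hx
    refine ⟨⟨m, hm⟩, ?_⟩
    change ((m : E) : E ⧸ N) = ((m * n : E) : E ⧸ N)
    rw [QuotientGroup.eq, inv_mul_cancel_left]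
    exact hn
  let q : (M ⊔ N : Subgroup E) →* j.range :=
    ((QuotientGroup.mk' N).comp (M ⊔ N).subtype).codRestrict j.range hrange
  let e : M ≃* j.range := MonoidHom.ofInjective hj
  refine ⟨e.symm.toMonoidHom.comp q, ?_⟩
  intro x
  rw [← QuotientGroup.eq]
  have h1 : e (e.symm (q x)) = q x := e.apply_symm_apply _
  have h2 := congrArg (fun y : j.range => (y : E ⧸ N)) h1
  exact h2

theorem retraction_eq {N M : Subgroup E} (hMN : M ⊓ N = ⊥)
    (ret : (M ⊔ N : Subgroup E) →* M) (hret : ∀ x, ((ret x : E))⁻¹ * x ∈ N) (m : M)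
    (x : (M ⊔ N : Subgroup E)) (hx : (m : E)⁻¹ * x ∈ N) : ret x = m := by
  have h1 : (m : E)⁻¹ * (ret x : E) ∈ M ⊓ N := by
    refine ⟨M.mul_mem (M.inv_mem m.2) (ret x).2, ?_⟩
    have h2 := N.mul_mem hx (N.inv_mem (hret x))
    have e : (m : E)⁻¹ * (x : E) * ((ret x : E)⁻¹ * (x : E))⁻¹ = (m : E)⁻¹ * (ret x : E) := by
      group
    rwa [e] at h2
  rw [hMN, Subgroup.mem_bot, inv_mul_eq_one] at h1
  exact Subtype.ext h1.symm

/-- The finite residual of `M`. -/
theorem res_split {N M : Subgroup E} [N.Normal] (hMN : M ⊓ N = ⊥) [(M ⊔ N).FiniteIndex] :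
    Res M = (Res E).subgroupOf M := by
  obtain ⟨ret, hret⟩ := exists_retraction hMN
  apply le_antisymm
  · intro m hm
    rw [Subgroup.mem_subgroupOf, mem_res]
    intro N' h1 h2
    exact mem_res.mp hm (N'.subgroupOf M) inferInstance inferInstance
  · intro m hm
    rw [Subgroup.mem_subgroupOf] at hm
    rw [mem_res]
    intro M' h1 h2
    let L : Subgroup (M ⊔ N : Subgroup E) := M'.comap ret
    have hL : L.FiniteIndex := finiteIndex_comap ret M'
    have hL2 : (L.map (M ⊔ N).subtype).FiniteIndex := by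
      constructor
      rw [Subgroup.index_map_subtype]
      exact Nat.mul_ne_zero hL.index_ne_zero (inferInstance : (M ⊔ N).FiniteIndex).index_ne_zero
    have hL3 : (L.map (M ⊔ N).subtype).normalCore.FiniteIndex := inferInstance
    have h3 : (m : E) ∈ (L.map (M ⊔ N).subtype).normalCore := mem_res.mp hm _ inferInstance hL3
    have h4 : (m : E) ∈ L.map (M ⊔ N).subtype := Subgroup.normalCore_le _ h3
    obtain ⟨x, hx, hxm⟩ := h4
    have h5 : ret x = m := by
      refine retraction_eq hMN ret hret m x ?_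
      have : (x : E) = m := hxm
      rw [this, inv_mul_cancel]
      exact N.one_mem
    have h6 : ret x ∈ M' := hx
    rwa [h5] at h6

theorem fg_split (hE : Group.FG E) {N M : Subgroup E} [N.Normal] (hMN : M ⊓ N = ⊥)
    [(M ⊔ N).FiniteIndex] : Group.FG M := by
  obtain ⟨ret, hret⟩ := exists_retraction hMN
  have h1 : Group.FG (M ⊔ N : Subgroup E) := inferInstance
  refine Group.fg_of_surjective (f := ret) ?_
  intro m
  refine ⟨⟨m, (le_sup_left : M ≤ M ⊔ N) m.2⟩, ?_⟩
  refine retraction_eq hMN ret hret m _ ?_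
  change (m : E)⁻¹ * (m : E) ∈ N
  rw [inv_mul_cancel]
  exact N.one_mem

theorem fg_subgroupOf {A M : Subgroup E} (hA : ∀ b ∈ A, ∀ g : E, b * g = g * b)
    (hfg : A.FG) : (A.subgroupOf M).FG := by
  have h2 : (A ⊓ M).FG := fg_subgroup_of_central hA hfg inf_le_left
  have h5 : Group.FG ↥(A ⊓ M) := (Group.fg_iff_subgroup_fg _).mpr h2
  have h6 := fg_map (Group.fg_def.mp h5) (Subgroup.inclusion (inf_le_right : A ⊓ M ≤ M))
  have h7 : (⊤ : Subgroup ↥(A ⊓ M)).map (Subgroup.inclusion (inf_le_right : A ⊓ M ≤ M)) =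
      A.subgroupOf M := by
    ext x
    constructor
    · rintro ⟨y, _, rfl⟩
      exact (Subgroup.mem_inf.mp y.2).1
    · intro hx
      exact ⟨⟨x, hx, x.2⟩, trivial, rfl⟩
  rwa [h7] at h6

/-- The maximal residually finite quotient, when linear, is linear in characteristic zero. -/
theorem linKer_res_charZero {A : Subgroup E} (hA : ∀ b ∈ A, ∀ g : E, b * g = g * b)
    (hfg : A.FG) {K : Type} [Field K] [CharZero K] (hlinA : LinKer K A) (hRA : Res E ≤ A)
    (h : IsLinearGroup (E ⧸ Res E)) :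
    ∃ (L : Type) (_ : Field L) (_ : CharZero L), LinKer L (Res E) := by
  obtain ⟨k, _, m, φ, hφ⟩ := h
  have h1 : LinKer k (⊥ : Subgroup (E ⧸ Res E)) :=
    ⟨m, φ, (MonoidHom.ker_eq_bot_iff φ).mpr hφ⟩
  let A1 : Subgroup (E ⧸ Res E) := A.map (QuotientGroup.mk' (Res E))
  have hA1 : ∀ b ∈ A1, ∀ g : E ⧸ Res E, b * g = g * b := by
    rintro _ ⟨a, ha, rfl⟩ g
    obtain ⟨x, rfl⟩ := QuotientGroup.mk_surjective g
    change ((a * x : E) : E ⧸ Res E) = ((x * a : E) : E ⧸ Res E)
    rw [hA a ha x]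
  have hlinA1 : LinKer K A1 := hlinA.map_surj _ (QuotientGroup.mk'_surjective _)
    (by rw [QuotientGroup.ker_mk']; exact hRA)
  obtain ⟨L, _, hL0, hL⟩ := linKer_bot_quot (F1 := ⊥) hA1 (fg_map hfg _) hlinA1
    (fun g hg => ⟨1, le_rfl, by rw [Subgroup.mem_bot.mp hg, one_pow]⟩) h1
    (MonoidHom.id _) Function.surjective_id
    (by
      intro x hx
      have hx1 : x = 1 := hx
      rw [hx1]
      exact A1.one_mem) isRF_quot_res
  have h3 := hL.comap (QuotientGroup.mk' (Res E))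
  rw [MonoidHom.comap_bot, QuotientGroup.ker_mk'] at h3
  exact ⟨L, inferInstance, hL0, h3⟩

/-- The finite residual of the complement together with `N` is the kernel of a representation. -/
theorem linKer_sup (hE : Group.FG E) {A : Subgroup E} (hA : ∀ b ∈ A, ∀ g : E, b * g = g * b)
    (hfg : A.FG) {K : Type} [Field K] [CharZero K] (hlinA : LinKer K A)
    {N M : Subgroup E} [N.Normal] (hMN : M ⊓ N = ⊥) [(M ⊔ N).FiniteIndex]
    (hM : IsLinearGroup (M ⧸ Res M)) :
    ∃ (L : Type) (_ : Field L) (_ : CharZero L), LinKer L ((Res M).map M.subtype ⊔ N) := by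
  have hres : Res M = (Res E).subgroupOf M := res_split hMN
  have hRA : Res E ≤ A := res_le_of_linKer hE hlinA
  have hAM : ∀ b ∈ A.subgroupOf M, ∀ g : M, b * g = g * b :=
    fun b hb g => Subtype.ext (hA b hb g)
  have hresAM : Res M ≤ A.subgroupOf M := by
    intro x hx
    rw [hres] at hx
    exact hRA hx
  obtain ⟨L, _, hL0, hL2⟩ := linKer_res_charZero hAM (fg_subgroupOf hA hfg)
    (hlinA.comap M.subtype) hresAM hM
  obtain ⟨ret, hret⟩ := exists_retraction hMN
  have hL3 : LinKer L ((Res M).comap ret) := hL2.comap ret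
  let P : Subgroup E := ((Res M).comap ret).map (M ⊔ N).subtype
  have hPH : P ≤ M ⊔ N := by
    rintro _ ⟨x, _, rfl⟩
    exact x.2
  have hPsub : P.subgroupOf (M ⊔ N) = (Res M).comap ret := by
    ext x
    rw [Subgroup.mem_subgroupOf]
    constructor
    · rintro ⟨y, hy, hyx⟩
      have : y = x := Subtype.ext hyx
      rwa [← this]
    · intro hx
      exact ⟨x, hx, rfl⟩
  have hPeq : P = (Res M).map M.subtype ⊔ N := by
    apply le_antisymm
    · rintro _ ⟨x, hx, rfl⟩
      refine Subgroup.mem_sup_of_normal_right.mpr ⟨(ret x : E), ⟨ret x, hx, rfl⟩,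
        (ret x : E)⁻¹ * x, hret x, ?_⟩
      change (ret x : E) * ((ret x : E)⁻¹ * x) = x
      rw [mul_inv_cancel_left]
    · refine sup_le ?_ ?_
      · rintro _ ⟨y, hy, rfl⟩
        refine ⟨⟨y, (le_sup_left : M ≤ M ⊔ N) y.2⟩, ?_, rfl⟩
        change ret _ ∈ Res M
        rw [retraction_eq hMN ret hret y ⟨y, (le_sup_left : M ≤ M ⊔ N) y.2⟩
          (by change (y : E)⁻¹ * (y : E) ∈ N; rw [inv_mul_cancel]; exact N.one_mem)]
        exact hy
      · intro n hn
        refine ⟨⟨n, (le_sup_right : N ≤ M ⊔ N) hn⟩, ?_, rfl⟩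
        change ret _ ∈ Res M
        rw [retraction_eq hMN ret hret 1 ⟨n, (le_sup_right : N ≤ M ⊔ N) hn⟩
          (by change ((1 : M) : E)⁻¹ * n ∈ N; simpa using hn)]
        exact (Res M).one_mem
  have hcen : ((Res M).map M.subtype).Normal := by
    constructor
    rintro _ ⟨y, hy, rfl⟩ g
    have hyA : (y : E) ∈ A := hresAM hy
    have e : g * (M.subtype y) * g⁻¹ = M.subtype y := by
      change g * (y : E) * g⁻¹ = y
      rw [← hA _ hyA g, mul_inv_cancel_right]
    rw [e]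
    exact ⟨y, hy, rfl⟩
  have hPn : P.Normal := by
    rw [hPeq]
    infer_instance
  have hP : LinKer L P := by
    refine linKer_induced hPH ?_
    rw [hPsub]
    exact hL3
  rw [hPeq] at hP
  exact ⟨L, inferInstance, hL0, hP⟩

/-- the maximal residually finite quotient of the complement embeds in that of the group -/
theorem linear_compl {N M : Subgroup E} [N.Normal] (hMN : M ⊓ N = ⊥) [(M ⊔ N).FiniteIndex]
    (h : IsLinearGroup (E ⧸ Res E)) : IsLinearGroup (M ⧸ Res M) := by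
  have hres : Res M = (Res E).subgroupOf M := res_split hMN
  obtain ⟨k, _, m, φ, hφ⟩ := h
  have h1 : LinKer k (⊥ : Subgroup (E ⧸ Res E)) :=
    ⟨m, φ, (MonoidHom.ker_eq_bot_iff φ).mpr hφ⟩
  have h2 : LinKer k (Res M) := by
    have h3 := h1.comap ((QuotientGroup.mk' (Res E)).comp M.subtype)
    have h4 : (⊥ : Subgroup (E ⧸ Res E)).comap ((QuotientGroup.mk' (Res E)).comp M.subtype) =
        Res M := by
      rw [hres]
      ext x
      rw [Subgroup.mem_comap, Subgroup.mem_bot, Subgroup.mem_subgroupOf]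
      exact QuotientGroup.eq_one_iff (x : E)
    rwa [h4] at h3
  have h5 := h2.map_surj (QuotientGroup.mk' (Res M)) (QuotientGroup.mk'_surjective _)
    (by rw [QuotientGroup.ker_mk'])
  have h6 : (Res M).map (QuotientGroup.mk' (Res M)) = ⊥ := by
    rw [eq_bot_iff]
    rintro _ ⟨x, hx, rfl⟩
    rw [Subgroup.mem_bot]
    exact (QuotientGroup.eq_one_iff x).mpr hx
  rw [h6] at h5
  exact isLinear_of_linKer_bot h5

/-- **Reduction to the complement.** -/
theorem split_iff (hE : Group.FG E) {A : Subgroup E} (hA : ∀ b ∈ A, ∀ g : E, b * g = g * b)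
    (hfg : A.FG) {K : Type} [Field K] [CharZero K] (hlinA : LinKer K A)
    {N M R : Subgroup E} [N.Normal] (hMN : M ⊓ N = ⊥) [(M ⊔ N).FiniteIndex]
    {k : Type} [Field k] [CharZero k] (hR : LinKer k R)
    (hRN : ((R ⊓ N : Subgroup E) : Set E).Finite) :
    IsLinearGroup (E ⧸ Res E) ↔ IsLinearGroup (M ⧸ Res M) := by
  have hres : Res M = (Res E).subgroupOf M := res_split hMN
  refine ⟨fun h => linear_compl hMN h, fun h => ?_⟩
  obtain ⟨L, _, _, hP⟩ := linKer_sup hE hA hfg hlinA hMN h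
  obtain ⟨L', _, _, _, ⟨f⟩, ⟨g⟩⟩ := exists_common_field L k
  set P : Subgroup E := (Res M).map M.subtype ⊔ N with hPeq
  have hPR : LinKer L' (P ⊓ R) := (hP.map_field f).inf (hR.map_field g)
  have hresPR : Res E ≤ P ⊓ R :=
    le_inf (res_le_of_linKer hE hP) (res_le_of_linKer hE hR)
  have h7 : LinKer L' ((P ⊓ R).map (QuotientGroup.mk' (Res E))) :=
    hPR.map_surj _ (QuotientGroup.mk'_surjective _) (by rw [QuotientGroup.ker_mk']; exact hresPR)
  refine isLinear_of_linKer_bot (linKer_bot_of_rf isRF_quot_res ?_ h7)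
  refine (hRN.image (QuotientGroup.mk' (Res E))).subset ?_
  rintro _ ⟨x, hx, rfl⟩
  obtain ⟨hxP, hxR⟩ := Subgroup.mem_inf.mp hx
  obtain ⟨y, ⟨z, hz, rfl⟩, n, hn, rfl⟩ := Subgroup.mem_sup_of_normal_right.mp hxP
  have hzE : (z : E) ∈ Res E := by
    have h8 := hz
    rw [SetLike.mem_coe, hres, Subgroup.mem_subgroupOf] at h8
    exact h8
  have hzR : (z : E) ∈ R := res_le_of_linKer hE hR hzE
  refine ⟨n, ⟨?_, hn⟩, ?_⟩
  · have h9 := R.mul_mem (R.inv_mem hzR) hxR
    change (z : E)⁻¹ * ((z : E) * n) ∈ R at h9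
    rwa [inv_mul_cancel_left] at h9
  · change ((n : E) : E ⧸ Res E) = (((z : E) * n : E) : E ⧸ Res E)
    rw [QuotientGroup.eq]
    have h9 := (res_normal (Γ := E)).conj_mem _ hzE n⁻¹
    simpa [mul_assoc] using h9

/-- **Reduction to the factors of a virtual direct product.** -/
theorem prod_iff (hE : Group.FG E) {A : Subgroup E} (hA : ∀ b ∈ A, ∀ g : E, b * g = g * b)
    (hfg : A.FG) {K : Type} [Field K] [CharZero K] (hlinA : LinKer K A)
    {N M : Subgroup E} [N.Normal] [M.Normal] (hMN : M ⊓ N = ⊥) [(M ⊔ N).FiniteIndex] :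
    IsLinearGroup (E ⧸ Res E) ↔ (IsLinearGroup (M ⧸ Res M) ∧ IsLinearGroup (N ⧸ Res N)) := by
  have hNM : N ⊓ M = ⊥ := by rw [inf_comm]; exact hMN
  have hfi : (N ⊔ M).FiniteIndex := by rw [sup_comm]; infer_instance
  have hresM : Res M = (Res E).subgroupOf M := res_split hMN
  have hresN : Res N = (Res E).subgroupOf N := res_split hNM
  refine ⟨fun h => ⟨linear_compl hMN h, linear_compl hNM h⟩, fun ⟨h1, h2⟩ => ?_⟩
  obtain ⟨L1, _, _, hP1⟩ := linKer_sup hE hA hfg hlinA hMN h1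
  obtain ⟨L2, _, _, hP2⟩ := linKer_sup hE hA hfg hlinA hNM h2
  obtain ⟨L', _, _, _, ⟨f⟩, ⟨g⟩⟩ := exists_common_field L1 L2
  set P1 : Subgroup E := (Res M).map M.subtype ⊔ N with hP1eq
  set P2 : Subgroup E := (Res N).map N.subtype ⊔ M with hP2eq
  have hP : LinKer L' (P1 ⊓ P2) := (hP1.map_field f).inf (hP2.map_field g)
  have hle : P1 ⊓ P2 ≤ Res E := by
    intro x hx
    obtain ⟨hx1, hx2⟩ := Subgroup.mem_inf.mp hx
    obtain ⟨y, ⟨z, hz, rfl⟩, n, hn, hxy⟩ := Subgroup.mem_sup_of_normal_right.mp hx1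
    obtain ⟨y', ⟨z', hz', rfl⟩, n', hn', hxy'⟩ := Subgroup.mem_sup_of_normal_right.mp hx2
    have hzE : (z : E) ∈ Res E := by
      have h8 := hz
      rw [SetLike.mem_coe, hresM, Subgroup.mem_subgroupOf] at h8
      exact h8
    have hzE' : (z' : E) ∈ Res E := by
      have h8 := hz'
      rw [SetLike.mem_coe, hresN, Subgroup.mem_subgroupOf] at h8
      exact h8
    change (z : E) * n = x at hxy
    change (z' : E) * n' = x at hxy'
    -- commuting factors
    have hcomm : n' * (z' : E) = (z' : E) * n' := by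
      have h3 : n' * (z' : E) * n'⁻¹ * (z' : E)⁻¹ ∈ M ⊓ N := by
        refine Subgroup.mem_inf.mpr ⟨?_, ?_⟩
        · have := (inferInstance : M.Normal).conj_mem n'⁻¹ (M.inv_mem hn') (z' : E)
          have h4 := M.mul_mem hn' this
          have e : n' * ((z' : E) * n'⁻¹ * (z' : E)⁻¹) = n' * (z' : E) * n'⁻¹ * (z' : E)⁻¹ := by
            group
          rwa [e] at h4
        · have := (inferInstance : N.Normal).conj_mem (z' : E) z'.2 n'
          exact N.mul_mem this (N.inv_mem z'.2)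
      rw [hMN, Subgroup.mem_bot, mul_inv_eq_one, mul_inv_eq_iff_eq_mul] at h3
      exact h3
    have h5 : (z : E)⁻¹ * n' = n * (z' : E)⁻¹ := by
      have h6 : (z : E) * n = n' * (z' : E) := by rw [hxy, hcomm, hxy']
      rw [inv_mul_eq_iff_eq_mul, ← mul_assoc, h6, mul_inv_cancel_right]
    have h6 : (z : E)⁻¹ * n' ∈ M ⊓ N := by
      refine Subgroup.mem_inf.mpr ⟨M.mul_mem (M.inv_mem z.2) hn', ?_⟩
      rw [h5]
      exact N.mul_mem hn (N.inv_mem z'.2)
    rw [hMN, Subgroup.mem_bot, inv_mul_eq_one] at h6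
    rw [← hxy', ← h6]
    exact (Res E).mul_mem hzE' hzE
  have h7 : LinKer L' ((P1 ⊓ P2).map (QuotientGroup.mk' (Res E))) :=
    hP.map_surj _ (QuotientGroup.mk'_surjective _) (by
      rw [QuotientGroup.ker_mk']
      exact le_inf (res_le_of_linKer hE hP1) (res_le_of_linKer hE hP2))
  have h8 : (P1 ⊓ P2).map (QuotientGroup.mk' (Res E)) = ⊥ := by
    rw [eq_bot_iff]
    rintro _ ⟨x, hx, rfl⟩
    rw [Subgroup.mem_bot]
    exact (QuotientGroup.eq_one_iff x).mpr (hle hx)
  rw [h8] at h7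
  exact isLinear_of_linKer_bot h7

/-- Extensions with torsion-by-linear quotient. -/
theorem quotLinear_of_ext {A : Subgroup E} (hA : ∀ b ∈ A, ∀ g : E, b * g = g * b)
    (hfg : A.FG) {K : Type} [Field K] [CharZero K] (hlinA : LinKer K A)
    {N R F : Subgroup E} {k : Type} [Field k] [CharZero k] (hR : LinKer k R)
    (hRN : ((R ⊓ N : Subgroup E) : Set E).Finite)
    {k' : Type} [Field k'] [CharZero k'] (hF : LinKer k' F)
    (hFN : ∀ g ∈ F, ∃ n : ℕ, 1 ≤ n ∧ g ^ n ∈ N) : QuotLinear E A := by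
  obtain ⟨L', _, _, _, ⟨f⟩, ⟨g⟩⟩ := exists_common_field k k'
  have h1 : LinKer L' (R ⊓ F) := (hR.map_field f).inf (hF.map_field g)
  refine quotLinear_of_torsion hA hfg hlinA ?_ h1
  intro x hx
  obtain ⟨hx1, hx2⟩ := Subgroup.mem_inf.mp hx
  obtain ⟨n, hn, hxn⟩ := hFN x hx2
  have hfin : Finite (R ⊓ N : Subgroup E) := hRN
  have h3 : x ^ n ∈ R ⊓ N := ⟨R.pow_mem hx1 n, hxn⟩
  obtain ⟨m, hm, h4⟩ := isOfFinOrder_iff_pow_eq_one.mp
    (isOfFinOrder_of_finite (⟨x ^ n, h3⟩ : (R ⊓ N : Subgroup E)))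
  refine ⟨n * m, Nat.mul_pos hn hm, ?_⟩
  rw [pow_mul]
  exact congrArg Subtype.val h4

end

end Pool.Agent.H56CQ
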